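import Pool.Agent.H33.EXC.Zmc
import Pool.Agent.H78.MIC.ClsM

/-!
# `ExnI` and `ExsI` of a class from the subclasses with one datum

`exnI_zoom`, `exsI_zoom`: the exactness (helper78) on a family of boxes, for the kit of a class, from
`ZmC`; `exnK_zoom`, `exsK_zoom`: on the boxes of a kind.
-/

set_option autoImplicit false

namespace Pool.EXC33

open Finset
open Pool.Agent.H49.Ent Pool.Agent.H32.Dense Pool.STK Pool.KA Pool.KSAT Pool.K2S Pool.PB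
open Pool.GEN Pool.S6C Pool.STAT Pool.CHT Pool.STA Pool.PKG
open Pool.TOP (TopS)
open Pool.STR (NumI Rle)
open Pool.STAT.CLO Pool.MIC6

variable {n : ℕ} {hn : 2 ≤ n} {S : PCl n} {P : ℝ → ℝ → ℝ} {rr : ℝ → ℝ}
  {P' : ℕ → List (Fin n) × Fin n → ℝ → ℝ → ℝ} {Λ : Finset (Fin n) → Fin n → ℝ → ℝ → ℝ}
  {PB : ℕ → List (Fin n) × Fin n → ℝ → ℝ → ℝ}
  (H : PkT hn S P rr P' Λ PB) {hTop : TopS n} {hF : FZX (n - 1)}
  {ρ' : ℝ → ℝ} {hρ : Rle rr ρ'}

/-- **The base is full in the subclasses with one datum**, on a family of boxes. -/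
def ZmI (p : ((H.nk hTop hF).chg hρ H.up).Par) (I : ℝ → BS p.cell → Prop) : Prop :=
  ∀ (K K' s₁ : ℕ) (sh : ℕ → ℕ), 1 ≤ K → 1 ≤ K' → ∀ ka : ℝ, 0 < ka → ∀ M' : ℕ,
    EvQ I fun N θ q => ZmC (kitN H p K).kit S K' s₁ sh N M' θ q ka

/-- **Exactness, near digits**, on a family of boxes. -/
theorem exnI_zoom {p : ((H.nk hTop hF).chg hρ H.up).Par} {I : ℝ → BS p.cell → Prop}
    (hI : MonoI I) {T' : ℝ}
    (fcel : ∀ K₀ : ℕ, ∀ ε' : ℝ, 0 < ε' → EvP I fun q =>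
      CellL (n - 1 + 1) ((kitN H p K₀).kit.L q) ε' T' ((kitN H p K₀).kit.y q)
        ((kitN H p K₀).kit.X q) ((kitN H p K₀).kit.la q) ((kitN H p K₀).kit.ml q))
    (hz : ZmI H p I) : ExnI H p I := fun K K' s₁ sh hK hK' _ hk M' =>
  exn_zoom hI H.tmh.1 (kitN H p K).kit (fun q => kit_inj H p K q.k) (fcel K) hK'
    (fun ka hka M => hz K K' s₁ sh hK hK' ka hka M) hk M'

/-- **Exactness, the base given the labels at the exact point**, on a family of boxes. -/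
theorem exsI_zoom {p : ((H.nk hTop hF).chg hρ H.up).Par} {I : ℝ → BS p.cell → Prop}
    (hI : MonoI I) {T' : ℝ}
    (fcel : ∀ K₀ : ℕ, ∀ ε' : ℝ, 0 < ε' → EvP I fun q =>
      CellL (n - 1 + 1) ((kitN H p K₀).kit.L q) ε' T' ((kitN H p K₀).kit.y q)
        ((kitN H p K₀).kit.X q) ((kitN H p K₀).kit.la q) ((kitN H p K₀).kit.ml q))
    (hz : ZmI H p I) : ExsI H p I := fun K K' s₁ sh hK hK' _ hk M' =>
  exs_zoom hI H.tmh.1 (kitN H p K).kit ((fcel K 1 one_pos).mono fun _ h => h.pos)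
    (fun ka hka M => hz K K' s₁ sh hK hK' ka hka M) hk M'

/-- **Exactness on the boxes of a kind.** -/
theorem exnK_zoom {p : ((H.nk hTop hF).chg hρ H.up).Par}
    (hpI : ∀ c (k : p.α × Od n) Q g ρ, p.Ad' c k Q g ρ → AdI hn S P P' c k.2 g ρ)
    {ι : Type} {kd : p.cell.α → ι} {c β h' M : ℝ} (hc : 0 < c) (hβ : 0 < β) {x : ι}
    (hz : ZmI H p (IsK p.cell kd c β h' M x)) : ExnI H p (IsK p.cell kd c β h' M x) :=
  exnI_zoom H (isK_mono p.cell kd c β h' M x) (fun K₀ ε' hε' => kit_cel H hpI hc hβ x K₀ ε' hε') hz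

/-- **Exactness at the exact point on the boxes of a kind.** -/
theorem exsK_zoom {p : ((H.nk hTop hF).chg hρ H.up).Par}
    (hpI : ∀ c (k : p.α × Od n) Q g ρ, p.Ad' c k Q g ρ → AdI hn S P P' c k.2 g ρ)
    {ι : Type} {kd : p.cell.α → ι} {c β h' M : ℝ} (hc : 0 < c) (hβ : 0 < β) {x : ι}
    (hz : ZmI H p (IsK p.cell kd c β h' M x)) : ExsI H p (IsK p.cell kd c β h' M x) :=
  exsI_zoom H (isK_mono p.cell kd c β h' M x) (fun K₀ ε' hε' => kit_cel H hpI hc hβ x K₀ ε' hε') hz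

end Pool.EXC33
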