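import Pool.Agent.H40.ISO.Tbk
import Pool.Agent.H98.OWN.Cho
import Pool.Agent.H17.COR.Root

/-!
# Reference data for a class

`RfD F`: the ball charts of a grid, charts of degree one at its windows, a closed code and the
reference charts. `RfD.Ok`: their properties on an event (`BalG`, `ChOK`, `RefC`). `rfd_cls`: in a
nonempty class there is a nonempty subclass with one datum of this kind.
-/

set_option autoImplicit false

namespace Pool.EXC33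

open Finset MvPolynomial
open Pool.Agent.H49.Ent Pool.Agent.H32.Dense Pool.STK Pool.KS3 Pool.STAT Pool.STAT.CLO Pool.MIC6
open Pool.KA Pool.KSAT Pool.PB Pool.GEN Pool.K2S Pool.S6C
open Pool.STAT.OKI (RefC)
open Pool.CHT (TmH)

variable {m : ℕ}

/-- **The reference data of a family.** -/
structure RfD {J : ℕ} (F : Fam m J) : Type 1 where
  /-- the gradients of the ball charts -/
  e₀ : ℕ → ℕ
  /-- the sides of the ball charts -/
  g₀ : ℕ → ℕ → ℕ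
  /-- the ball charts, at the points -/
  G₀ : ℕ → PtT F → ℕ → MvPolynomial (Option (Fin m)) ℝ
  /-- the ball charts, on the lines -/
  H₀ : ℕ → LnT F → ℕ → MvPolynomial (Option (Fin m)) ℝ
  /-- the gradients of the charts of degree one -/
  e' : ℕ → ℕ
  /-- the gradients of the charts of degree one, without the last level -/
  e'' : ℕ → ℕ
  /-- the sides of the charts of degree one -/
  g' : ℕ → ℕ → ℕ
  /-- the charts of degree one, at the points -/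
  G' : ℕ → PtT F → ℕ → MvPolynomial (Option (Fin m)) ℝ
  /-- the charts of degree one, on the lines -/
  H' : ℕ → LnT F → ℕ → MvPolynomial (Option (Fin m)) ℝ
  /-- the values of the code -/
  W : Type
  /-- the code at the points -/
  cp : PtT F → W
  /-- the code on the lines -/
  cs : LnT F → W
  /-- the reference charts -/
  Rf : ℕ → W → ℕ → PN

instance {J : ℕ} (F : Fam m J) : Nonempty (RfD F) :=
  ⟨{ e₀ := fun _ => 0
     g₀ := fun _ _ => 0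
     G₀ := fun _ _ _ => 0
     H₀ := fun _ _ _ => 0
     e' := fun _ => 0
     e'' := fun _ => 0
     g' := fun _ _ => 0
     G' := fun _ _ _ => 0
     H' := fun _ _ _ => 0
     W := Unit
     cp := fun _ => ()
     cs := fun _ => ()
     Rf := fun _ _ _ => 0 }⟩

/-- **The properties of the reference data** on an event. -/
structure RfD.Ok {J : ℕ} {F : Fam m J} (R : RfD F) (D : GDat F) (c : ℕ → Fin m)
    (n K w₀ z M j₀ : ℕ) (lo hi bn : ℕ → ℕ → ℝ) (Eb : ℕ → ℝ) (y x S : ℝ) (B : F.Ω → Prop) :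
    Prop where
  bal : BalG D.G D.H c n K M w₀ z lo hi R.e₀ R.g₀ R.G₀ R.H₀ B
  cho : ∀ j ≤ j₀, ChOK F c n (fun _ => 1) (w₀ + j * z) (w₀ + j * z) (R.e' j) (R.g' j) B (R.G' j)
    (R.H' j)
  chb : ∀ j ≤ j₀, ChOK F c (n - 1) (fun _ => 1) (w₀ + j * z) (w₀ + j * z) (R.e'' j) (R.g' j) B
    (R.G' j) (R.H' j)
  deg : ∀ j s l, (R.H' j s l).totalDegree ≤ 1
  siz : ∀ j ≤ j₀, (R.e' j : ℝ) ≤ Eb j
  sib : ∀ j ≤ j₀, (R.e'' j : ℝ) ≤ y
  num : ∀ j ≤ j₀, ∀ l < n, |(R.g' j l : ℝ) - bn j l| ≤ x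
  ref : RefC D c n w₀ z M j₀ R.g₀ R.H' S R.cp R.cs R.Rf B

theorem RfD.Ok.sub {J : ℕ} {F : Fam m J} {R : RfD F} {D : GDat F} {c : ℕ → Fin m}
    {n K w₀ z M j₀ : ℕ} {lo hi bn : ℕ → ℕ → ℝ} {Eb : ℕ → ℝ} {y x S : ℝ} {A B : F.Ω → Prop}
    (h : R.Ok D c n K w₀ z M j₀ lo hi bn Eb y x S A) (hB : Sub B A) :
    R.Ok D c n K w₀ z M j₀ lo hi bn Eb y x S B :=
  ⟨h.bal.sub hB, fun j hj => (h.cho j hj).sub hB, fun j hj => (h.chb j hj).sub hB, h.deg, h.siz,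
    h.sib, h.num, h.ref.sub hB⟩

/-- **Charts of degree one** at the windows of a grid up to `j₀`, on a part of each event. -/
def ChoW (S : PCl m) (c : ℕ → Fin m) (n j₀ : ℕ) (ϖ ζ : ℝ) (b : ℕ → ℕ → ℝ) (eb : ℕ → ℝ)
    (y x C : ℝ) : Prop :=
  Bas S fun J F A => ∃ (B : F.Ω → Prop) (e' e'' : ℕ → ℕ) (g' : ℕ → ℕ → ℕ)
      (G' : ℕ → PtT F → ℕ → MvPolynomial (Option (Fin m)) ℝ)
      (H' : ℕ → LnT F → ℕ → MvPolynomial (Option (Fin m)) ℝ),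
      Sub B A ∧ Pe F.p A ≤ C * Pe F.p B ∧
      (∀ j ≤ j₀, ChOK F c n (fun _ => 1) (up ϖ J + j * up ζ J) (up ϖ J + j * up ζ J) (e' j)
        (g' j) B (G' j) (H' j)) ∧
      (∀ j ≤ j₀, ChOK F c (n - 1) (fun _ => 1) (up ϖ J + j * up ζ J) (up ϖ J + j * up ζ J)
        (e'' j) (g' j) B (G' j) (H' j)) ∧
      (∀ j ≤ j₀, (e' j : ℝ) ≤ eb j * J) ∧ (∀ j ≤ j₀, (e'' j : ℝ) ≤ y * J) ∧
      ∀ j ≤ j₀, ∀ l < n, |(g' j l : ℝ) - b j l * J| ≤ x * J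

/-- **Reference data for a class**, one datum on all events of a nonempty subclass. -/
theorem rfd_cls (n K : ℕ) (hn : 1 ≤ n) (hK : 1 ≤ K) {ε : ℝ} (hε : 0 < ε) :
    ∃ κ₀ : ℝ, 0 < κ₀ ∧ κ₀ ≤ 1 ∧ ∀ κ : ℝ, 0 < κ → κ ≤ κ₀ →
    ∀ (j₀ : ℕ) {m : ℕ} {S : PCl m} {c : ℕ → Fin m} {ϖ ζ γ : ℝ}
    {b : ℕ → ℕ → ℝ} {eb : ℕ → ℝ} {y C₁ : ℝ}, TmH S → Inj c n → 0 ≤ ϖ → 0 < ζ → 0 < γ → ϖ + (j₀ + 1) * ζ + γ ≤ 1 →
    (∀ j ≤ j₀, ∀ l < n, ζ + γ ≤ b j l) → (∀ j ≤ j₀, ∀ l < n, b j l + eb j + 2 * ζ + γ ≤ 1) →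
    (∀ j ≤ j₀, Bas S fun J F A => ExW F A (fun l : Fin (n - 1) => c l) (up ϖ J + j * up ζ J)
      ((∑ l ∈ range (n - 1), ((J : ℝ) - (⌊b j l * J⌋₊ : ℕ))) * Real.log 2 - κ * up ζ J)) →
    ChoW S c n j₀ ϖ ζ b eb y (κ * ζ) C₁ →
    ∀ (K' s₁ : ℕ) (sh : ℕ → ℕ) (a₀ : ℕ → ℕ) (M : ℕ) (e : ℕ → ℕ → ℕ → ℕ)
      (g : ℕ → ℕ → ℕ → ℕ → ℕ) (lo hi : ℕ → ℕ → ℕ → ℝ), j₀ ≤ M →
      (∀ J, ∀ j ≤ j₀, ∀ l < n, (b j l - κ * ζ) * J ≤ lo J j l ∧ hi J j l ≤ (b j l + κ * ζ) * J) →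
    ∀ S' : PCl m, S'.Ne →
      (∀ (τ : ℝ) (J : ℕ) (F : Fam m J) (A : F.Ω → Prop), S'.St τ J F A → S.St τ J F A) →
    ∀ d : ∀ (J : ℕ) (F : Fam m J), GDat F,
    (∀ (τ : ℝ) (J : ℕ) (F : Fam m J) (A : F.Ω → Prop), S'.St τ J F A →
      (d J F).Ok c n K K' s₁ sh (a₀ J) (up ϖ J) (up ζ J) M (e J) (g J) A ∧
      ∃ (e₀ : ℕ → ℕ) (g₀ : ℕ → ℕ → ℕ) (G₀ : ℕ → PtT F → ℕ → MvPolynomial (Option (Fin m)) ℝ)
        (H₀ : ℕ → LnT F → ℕ → MvPolynomial (Option (Fin m)) ℝ),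
        BalG (d J F).G (d J F).H c n K M (up ϖ J) (up ζ J) (lo J) (hi J) e₀ g₀ G₀ H₀ A) →
    ∃ (S₁ : PCl m) (R : ∀ (J : ℕ) (F : Fam m J), RfD F), S₁.Ne ∧
      (∀ (τ : ℝ) (J : ℕ) (F : Fam m J) (A : F.Ω → Prop), S₁.St τ J F A → S'.St τ J F A) ∧
      ∀ (τ : ℝ) (J : ℕ) (F : Fam m J) (A : F.Ω → Prop), S₁.St τ J F A →
        (R J F).Ok (d J F) c n K (up ϖ J) (up ζ J) M j₀ (lo J) (hi J) (fun j l => b j l * J)
          (fun j => eb j * J) (y * J) (κ * ζ * J) (Real.exp (ε * up ζ J)) A := by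
  obtain ⟨κ₀, hκ₀, hκ₀1, hbal⟩ := Pool.STAT.OKI.bal_clsC n K hn hε
  refine ⟨κ₀, hκ₀, hκ₀1, fun κ hκ hκκ => ?_⟩
  intro j₀ m S c ϖ ζ γ b eb y C₁ hS hc hϖ hζ hγ hwin hlow hsz hex hcho K' s₁ sh a₀ M e g lo hi hj₀ hlh
    S' hne hsub d hd
  obtain ⟨C, hC, hbal⟩ := hbal j₀
  have hb := hbal (m := m) (S := S) (c := c) (ϖ := ϖ) (ζ := ζ) (γ := γ) (b := b) (eb := eb) hS hc
    hϖ hζ hγ hwin hlow hsz (fun j hj => Bas.mono 0 (hex j hj) fun J _ F A h V z z' hz =>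
      le_trans (by
        have := mul_le_mul_of_nonneg_right hκκ (Nat.cast_nonneg (α := ℝ) (up ζ J))
        linarith) (h V z z' hz))
  obtain ⟨C₂, hC₂⟩ : ∃ C₂, C₂ = max 1 C₁ := ⟨_, rfl⟩
  have hC21 : 1 ≤ C₂ := by rw [hC₂]; exact le_max_left _ _
  have hC2C : C₁ ≤ C₂ := by rw [hC₂]; exact le_max_right _ _
  have hC20 : 0 < C₂ := by linarith
  obtain ⟨S₁, R, h1, h2, h3⟩ := Pool.OWN17.root_fix (C := C₂ * C) hne
    (Δ := fun J F => RfD F)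
    (fun J F (R : RfD F) A => R.Ok (d J F) c n K (up ϖ J) (up ζ J) M j₀ (lo J) (hi J)
      (fun j l => b j l * J) (fun j => eb j * J) (y * J) (κ * ζ * J) (Real.exp (ε * up ζ J)) A)
    (fun J F R A B hA hB => RfD.Ok.sub hA hB) (by
      have k1 := Pool.LBK.Bas.ev (Bas.sub hsub hb) (inv_pos.2 hC20)
      have k2 : Bas S' _ := Bas.sub hsub hcho
      have k3 : Bas S' (fun J F A => (d J F).Ok c n K K' s₁ sh (a₀ J) (up ϖ J) (up ζ J) M (e J)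
          (g J) A ∧ ∃ (e₀ : ℕ → ℕ) (g₀ : ℕ → ℕ → ℕ)
          (G₀ : ℕ → PtT F → ℕ → MvPolynomial (Option (Fin m)) ℝ)
          (H₀ : ℕ → LnT F → ℕ → MvPolynomial (Option (Fin m)) ℝ),
          BalG (d J F).G (d J F).H c n K M (up ϖ J) (up ζ J) (lo J) (hi J) e₀ g₀ G₀ H₀ A) :=
        ⟨1, one_pos, 0, fun J _ F A hA => hd 1 J F A hA⟩
      refine Bas.mono 0 ((k1.and k2).and k3) ?_
      rintro J - F A ⟨⟨p1, B, e', e'', g', G', H', hBA, hPB, q1, q1b, q2, q2b, q3⟩, hDok, e₀, g₀,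
        G₀, H₀, hG⟩
      have hB0 := Pe_nonneg F.isLaw B
      have hκJ : κ * (ζ * J) ≤ κ₀ * (ζ * J) :=
        mul_le_mul_of_nonneg_right hκκ (mul_nonneg hζ.le (Nat.cast_nonneg J))
      have hP1 : C₂⁻¹ * Pe F.p A ≤ Pe F.p B := by
        rw [inv_mul_le_iff₀ hC20]
        exact hPB.trans (mul_le_mul_of_nonneg_right hC2C hB0)
      have hnum : ∀ j ≤ j₀, ∀ l < n, |(g₀ j l : ℝ) - b j l * J| ≤ κ * (ζ * J) := by
        intro j hj l hl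
        obtain ⟨a1, a2⟩ := hG.sd j (hj.trans hj₀) l hl
        obtain ⟨a3, a4⟩ := hlh J j hj l hl
        rw [abs_le]
        constructor <;> linarith
      obtain ⟨H'', hH''⟩ : ∃ H'' : ℕ → LnT F → ℕ → MvPolynomial (Option (Fin m)) ℝ,
        H'' = fun j => if j ≤ j₀ then H' j else 0 := ⟨_, rfl⟩
      have q1' : ∀ j ≤ j₀, ChOK F c n (fun _ => 1) (up ϖ J + j * up ζ J) (up ϖ J + j * up ζ J)
          (e' j) (g' j) B (G' j) (H'' j) := by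
        intro j hj
        rw [hH'']
        simp only [if_pos hj]
        exact q1 j hj
      have q1c : ∀ j ≤ j₀, ChOK F c (n - 1) (fun _ => 1) (up ϖ J + j * up ζ J)
          (up ϖ J + j * up ζ J) (e'' j) (g' j) B (G' j) (H'' j) := by
        intro j hj
        rw [hH'']
        simp only [if_pos hj]
        exact q1b j hj
      have hdeg : ∀ j s l, (H'' j s l).totalDegree ≤ 1 := by
        intro j s l
        by_cases hj : j ≤ j₀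
        · exact (q1' j hj).degH s l
        · rw [hH'']
          simp only [if_neg hj]
          show (0 : MvPolynomial (Option (Fin m)) ℝ).totalDegree ≤ 1
          rw [totalDegree_zero]
          exact Nat.zero_le 1
      obtain ⟨W, cp, cs, Rf, B', hB'B, hPB', hR⟩ := p1 B hBA hP1 (d J F) K' s₁ sh (a₀ J) M (e J)
        (g J) (lo J) (hi J) e₀ e' g₀ g' G₀ G' H₀ H'' hj₀ (hDok.sub hBA) (hG.sub hBA)
        (fun j hj => (q1' j hj).mono le_rfl (fun _ => hK) le_rfl le_rfl)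
        (fun j hj l hl => (hnum j hj l hl).trans hκJ)
        (fun j hj l hl => by
          have := q3 j hj l hl
          rw [mul_assoc] at this
          exact this.trans hκJ) (fun j hj => Or.inr (q2 j hj))
      refine ⟨⟨e₀, g₀, G₀, H₀, e', e'', g', G', H'', W, cp, cs, Rf⟩, B',
        fun ω hω => hBA ω (hB'B ω hω), ?_,
        hG.sub (fun ω hω => hBA ω (hB'B ω hω)), fun j hj => (q1' j hj).sub hB'B,
        fun j hj => (q1c j hj).sub hB'B, hdeg, q2, q2b, q3, hR⟩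
      have hB'0 := Pe_nonneg F.isLaw B'
      calc Pe F.p A ≤ C₂ * Pe F.p B := by
            rw [inv_mul_le_iff₀ hC20] at hP1
            exact hP1
        _ ≤ C₂ * (C * Pe F.p B') := mul_le_mul_of_nonneg_left hPB' hC20.le
        _ = C₂ * C * Pe F.p B' := by ring)
  exact ⟨S₁, R, h1, h2, h3⟩

end Pool.EXC33
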