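import Pool.Agent.H33.EXC.Yro

/-!
# The facts of a box, for targets which are not the last coordinate of the order

`BoxY`: as `BoxZ`, the numbers are ordered in the base only, the labels of the target have slopes up
to `E` and the gap to the base. `box_preY`: the hypotheses of the places.
-/

set_option autoImplicit false

namespace Pool.EXC33

open Finset MvPolynomial
open Pool.Agent.H49.Ent Pool.Agent.H32.Dense Pool.STK Pool.KS3 Pool.STAT Pool.STAT.CLO Pool.MIC6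
open Pool.KA Pool.KSAT Pool.PB Pool.GEN Pool.K2S Pool.S6C
open Pool.STAT.OKI (RefC hts ohg tw)
open Pool.CHT (TmH)
open Pool.REX (Vz)
open Pool.OWN72 (HasA HasB RepX ClA NrD RecExa img hrc)
open Pool.JVE (cI)

variable {m n₀ : ℕ} {Θ : Type*}

/-- **The facts of a box**: `E` is the exponent of the labels of the target, `δ` the error. -/
structure BoxY (Kt : KitP m Θ n₀) (S : PCl m) (L : Finset (Fin m) → Fin m → ℝ → ℝ → ℝ)
    (N M : ℕ) (p : Θ) (Dn : ℕ → ℕ → ℝ) (be co K₁ δ E : ℝ) : Prop where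
  E0 : 0 ≤ E
  y2 : (Kt.y p).2 = Kt.X p
  g0 : co ≤ (Kt.y p).1
  fst : ∀ j ≤ M, Dn j 0 = (Kt.y p).1 + j * msh (Kt.X p) N M
  low : ∀ j ≤ M, ∀ l, 1 ≤ l → l < n₀ + 1 → (Kt.y p).1 + j * msh (Kt.X p) N M + co ≤ Dn j l
  mon : ∀ j ≤ M, ∀ k l, k < l → l < n₀ → Dn j k ≤ Dn j l
  siz : ∀ j ≤ M, ∀ l < n₀ + 1, Dn j l + E + co ≤ 1
  exw : ∀ j ≤ M, Bas S fun J F A => ExW F A (fun l : Fin n₀ => Kt.cs p l)
    (up (Kt.y p).1 J + j * up (msh (Kt.X p) N M) J)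
    ((∑ l ∈ range n₀, ((J : ℝ) - (⌊Dn j l * J⌋₊ : ℕ))) * Real.log 2 -
      δ * up (msh (Kt.X p) N M) J)
  hA : ∀ j ≤ M, ∀ l, 1 ≤ l → l < n₀ → HasA S (img (Kt.cs p) l) (Kt.cs p l)
    ((Kt.y p).1 + j * msh (Kt.X p) N M) (Dn j l - δ * msh (Kt.X p) N M)
  hB : ∀ j ≤ M, HasB S (img (Kt.cs p) n₀) (Kt.cs p n₀)
    ((Kt.y p).1 + j * msh (Kt.X p) N M) (Dn j n₀ - δ * msh (Kt.X p) N M)
    (E + max 0 (Dn j (n₀ - 1) - Dn j n₀))
  rep : ∀ i ≤ M, ∀ j ≤ M, ∀ j' ≤ j, ∀ l, 1 ≤ l → l < n₀ + 1 →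
    RepX S (Kt.cs p 0) (img (Kt.cs p) l) (Kt.cs p l) ((Kt.y p).1 + j' * msh (Kt.X p) N M)
      ((Kt.y p).1 + j * msh (Kt.X p) N M + msh (Kt.X p) N M) (Dn j' l)
      ((Kt.y p).2 + i * msh (Kt.X p) N M - j * msh (Kt.X p) N M) (msh (Kt.X p) N M)
  nrd : ∃ (Wd : Set ℝ) (g R d : ℝ) (Dg sl : ℕ → ℝ), NrD S L (Kt.cs p) n₀ Wd g R d be co Dg sl ∧
    0 ≤ d ∧ d ≤ δ * msh (Kt.X p) N M ∧ g + Kt.X p ≤ (Kt.y p).1 ∧
    (Kt.y p).1 + K₁ * Kt.X p ≤ g + R ∧ ∀ j ≤ M, ∀ l, 1 ≤ l → l < n₀ →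
      Dg l + sl l * ((Kt.y p).1 + j * msh (Kt.X p) N M - g) - d ≤ Dn j l

/-- **The hypotheses of the places** of a box. -/
theorem box_preY (n₀ K K' s₁ : ℕ) (sh : ℕ → ℕ) (hn1 : 1 ≤ n₀) {C hr xr co : ℝ} (hC : 0 ≤ C)
    (hhr : 0 < hr) (hxr : 0 < xr) (hxr1 : xr ≤ 1 / 16) (hco : 0 < co) (M : ℕ) :
    ∃ ε : ℝ, 0 < ε ∧ ∀ κ₀ : ℝ, 0 < κ₀ → ∃ κ δ θ₀ y : ℝ, 0 < κ ∧ κ ≤ κ₀ ∧ 0 < δ ∧ 0 < θ₀ ∧
    ∀ {m : ℕ} {Θ : Type*} {Kt : KitP m Θ n₀} {S : PCl m} {C₀ : ℝ}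
    {L : Finset (Fin m) → Fin m → ℝ → ℝ → ℝ} {N : ℕ} {θ : ℝ} {p : Θ} {Dn : ℕ → ℕ → ℝ}
    {be K₁ δ' E : ℝ}, Kt.K = K → TmH S → TmC S C₀ → Pool.MIC6.ActF S (Kt.cs p 0) →
    NumZ Kt N M θ p Dn → BoxY Kt S L N M p Dn be co K₁ δ' E → 0 ≤ δ' → δ' ≤ δ → 0 ≤ θ → θ ≤ θ₀ →
    Kt.X p ≤ co / 16 → Kt.X p ≤ 1 / 16 →
    PlcH Kt S N M θ p Dn (fun _ => E + y) y (co / 4) κ ((cI m ^ (n₀ + 1)) ^ (M + 1)) ∧
      ((M : ℝ) + 1) ^ 2 * (C * ((ε + 2 * θ) * msh (Kt.X p) N M)) < hr * msh (Kt.X p) N M ∧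
      ∀ (b : ℕ → ℕ → ℕ → ℝ) (e : ℕ → ℕ → ℝ), ∀ i ≤ M, ∀ j ≤ M,
        HrcP Kt S K' s₁ sh N M θ p b e Dn (fun _ => E + y) y κ ε i j
          ((Kt.y p).2 + i * msh (Kt.X p) N M - j * msh (Kt.X p) N M +
            8 * (xr * msh (Kt.X p) N M)) := by
  obtain ⟨Ch, hCh, hhrc⟩ := hrcP_ofT n₀ K
  have hCh0 : 0 < Ch := by linarith
  have hM0 : (0 : ℝ) ≤ M := Nat.cast_nonneg M
  obtain ⟨D, hD⟩ : ∃ D, D = ((M : ℝ) + 1) ^ 2 * (C + 1) := ⟨_, rfl⟩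
  have hD0 : 0 < D := by rw [hD]; positivity
  have hDC : ((M : ℝ) + 1) ^ 2 * C ≤ D := by
    rw [hD]
    exact mul_le_mul_of_nonneg_left (by linarith) (by positivity)
  obtain ⟨ε, hε⟩ : ∃ ε, ε = min (xr / (2 * Ch)) (hr / (4 * D)) := ⟨_, rfl⟩
  have hε0 : 0 < ε := by rw [hε]; exact lt_min (by positivity) (by positivity)
  have hε1 : Ch * ε ≤ xr / 2 := by
    have h1 : ε ≤ xr / (2 * Ch) := by rw [hε]; exact min_le_left _ _
    rw [le_div_iff₀ (by positivity)] at h1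
    linarith
  have hε2 : D * ε ≤ hr / 4 := by
    have h1 : ε ≤ hr / (4 * D) := by rw [hε]; exact min_le_right _ _
    rw [le_div_iff₀ (by positivity)] at h1
    linarith
  refine ⟨ε, hε0, fun κ₀ hκ₀ => ?_⟩
  obtain ⟨κ, hκ⟩ : ∃ κ, κ = min κ₀ (xr / (2 * Ch)) := ⟨_, rfl⟩
  have hκ0 : 0 < κ := by rw [hκ]; exact lt_min hκ₀ (by positivity)
  have hκ1 : Ch * κ ≤ xr / 2 := by
    have h1 : κ ≤ xr / (2 * Ch) := by rw [hκ]; exact min_le_right _ _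
    rw [le_div_iff₀ (by positivity)] at h1
    linarith
  obtain ⟨δ, hδ⟩ : ∃ δ, δ = min (κ / 2) (1 / 16) := ⟨_, rfl⟩
  have hδ0 : 0 < δ := by rw [hδ]; exact lt_min (by linarith) (by norm_num)
  have hδ1 : δ ≤ κ / 2 := by rw [hδ]; exact min_le_left _ _
  have hδ2 : δ ≤ 1 / 16 := by rw [hδ]; exact min_le_right _ _
  obtain ⟨θ₀, hθ₀⟩ : ∃ θ₀, θ₀ = min κ (hr / (8 * D)) := ⟨_, rfl⟩
  have hθ₀0 : 0 < θ₀ := by rw [hθ₀]; exact lt_min hκ0 (by positivity)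
  have hθ₀1 : θ₀ ≤ κ := by rw [hθ₀]; exact min_le_left _ _
  have hθ₀2 : D * θ₀ ≤ hr / 8 := by
    have h1 : θ₀ ≤ hr / (8 * D) := by rw [hθ₀]; exact min_le_right _ _
    rw [le_div_iff₀ (by positivity)] at h1
    linarith
  obtain ⟨y, hy⟩ : ∃ y, y = co / (4 * Ch) := ⟨_, rfl⟩
  have hy0 : 0 < y := by rw [hy]; positivity
  have hy1 : Ch * y = co / 4 := by
    rw [hy]
    field_simp
  have hy2 : y ≤ co / 4 := by
    have : 1 * y ≤ Ch * y := mul_le_mul_of_nonneg_right hCh hy0.le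
    linarith
  refine ⟨κ, δ, θ₀, y, hκ0, by rw [hκ]; exact min_le_left _ _, hδ0, hθ₀0, ?_⟩
  intro m Θ Kt S C₀ L N θ p Dn be K₁ δ' E hKK htmh htmc hact hz hB hδ'0 hδδ hθ0 hθθ hX1 hX2
  have hN1 := hz.N1
  have hNr : (1 : ℝ) ≤ N := by exact_mod_cast hN1
  obtain ⟨ζ, hζ⟩ : ∃ ζ, ζ = msh (Kt.X p) N M := ⟨_, rfl⟩
  have hζ0 : 0 < ζ := by rw [hζ]; exact hz.msh_pos
  have hXζ : (N : ℝ) * ((M + 4) * ζ) = Kt.X p := by rw [hζ]; exact msh_mul hN1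
  have hX4 : (M + 4) * ζ ≤ Kt.X p := by
    have : 1 * ((M + 4) * ζ) ≤ N * ((M + 4) * ζ) :=
      mul_le_mul_of_nonneg_right hNr (by positivity)
    linarith
  have hMζ : 0 ≤ (M : ℝ) * ζ := by positivity
  have hζX : M * ζ + 4 * ζ ≤ Kt.X p := by linarith
  have hmul : ∀ j : ℕ, j ≤ M → (j : ℝ) * ζ ≤ M * ζ := fun j hj =>
    mul_le_mul_of_nonneg_right (by exact_mod_cast hj) hζ0.le
  have hmul0 : ∀ j : ℕ, 0 ≤ (j : ℝ) * ζ := fun j => by positivity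
  have hθκ : θ ≤ κ := hθθ.trans hθ₀1
  have hg0 := hB.g0
  have hE0 := hB.E0
  have hy2' := hB.y2
  have hsM := hB.siz M le_rfl 0 (by omega)
  rw [hB.fst M le_rfl, ← hζ] at hsM
  have hXn : Kt.X p ≤ co / 16 := hX1
  -- tubes
  have htub : ∀ i j : ℕ, i ≤ M → j ≤ M → (Kt.y p).2 + i * ζ - j * ζ ≤ 2 * Kt.X p := by
    intro i j hi hj
    have h1 := hmul i hi
    have h2 := hmul0 j
    linarith
  have hδζ : δ' * ζ ≤ ζ := by
    have : δ' * ζ ≤ 1 * ζ := mul_le_mul_of_nonneg_right (by linarith) hζ0.le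
    linarith
  have hxζ : xr * ζ ≤ ζ := by
    have : xr * ζ ≤ 1 * ζ := mul_le_mul_of_nonneg_right (by linarith) hζ0.le
    linarith
  refine ⟨⟨htmh, hz, hθ0, hθκ, by linarith, ?_, ?_, ?_, ?_, ?_⟩, ?_, ?_⟩
  · rw [← hζ]
    linarith
  · intro j hj l hl
    rw [← hζ]
    rcases Nat.eq_zero_or_pos l with h0 | h0
    · rw [h0, hB.fst j hj, ← hζ]
      have := hmul0 j
      linarith
    · have h1 := hB.low j hj l h0 hl
      rw [← hζ] at h1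
      have := hmul0 j
      linarith
  · intro j hj l hl
    rw [← hζ]
    have h1 := hB.siz j hj l hl
    linarith
  · intro j hj
    refine Bas.mono 0 (hB.exw j hj) fun J _ F A h V z z' hzz => le_trans ?_ (h V z z' hzz)
    have h1 : δ' * (up (msh (Kt.X p) N M) J : ℝ) ≤ κ * up (msh (Kt.X p) N M) J :=
      mul_le_mul_of_nonneg_right (by linarith) (Nat.cast_nonneg _)
    linarith
  · have h1 := choW_ofG (S := S) (c := Kt.cs p) (n := n₀ + 1) (M := M) (ϖ := (Kt.y p).1)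
      (ζ := msh (Kt.X p) N M) (δ := δ' * msh (Kt.X p) N M) (δ' := co / 4) (E := E)
      (x := κ * msh (Kt.X p) N M) (y := y) (b := Dn) (by omega) hz.y0 (by rw [← hζ]; exact hζ0)
      (by rw [← hζ]; linarith) (by rw [← hζ]; positivity) (by linarith) hE0
      (fun j hj l h1 h2 => hB.hA j hj l h1 (by omega)) (fun j hj => hB.hB j hj)
      (fun j hj => hB.fst j hj) (fun j hj l h1 h2 => by
        have h3 := hB.low j hj l h1 h2
        rw [← hζ] at h3 ⊢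
        linarith) (fun j hj l hl => by
        have h3 := hB.siz j hj l hl
        linarith) (by
        rw [← hζ]
        exact mul_lt_mul_of_pos_right (by linarith) hζ0) hy0
    exact h1
  · rw [← hζ]
    have h1 : ((M : ℝ) + 1) ^ 2 * (C * ((ε + 2 * θ) * ζ)) =
      ((M : ℝ) + 1) ^ 2 * C * (ε + 2 * θ) * ζ := by ring
    rw [h1]
    refine mul_lt_mul_of_pos_right ?_ hζ0
    have h2 : ((M : ℝ) + 1) ^ 2 * C * (ε + 2 * θ) ≤ D * (ε + 2 * θ) :=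
      mul_le_mul_of_nonneg_right hDC (by positivity)
    have h3 : D * θ ≤ D * θ₀ := mul_le_mul_of_nonneg_left hθθ hD0.le
    have h4 : D * (ε + 2 * θ) = D * ε + 2 * (D * θ) := by ring
    linarith
  · intro b e i hi j hj
    have hCC : Ch * (ε + κ) * ζ ≤ xr * ζ := by
      refine mul_le_mul_of_nonneg_right ?_ hζ0.le
      have : Ch * (ε + κ) = Ch * ε + Ch * κ := by ring
      linarith
    have h8 : 8 * (xr * ζ) ≤ ζ := by
      have : xr * ζ ≤ 1 / 16 * ζ := mul_le_mul_of_nonneg_right hxr1 hζ0.le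
      linarith
    have ht := htub i j hi hj
    refine hhrc (C₀ := C₀) (γ := co / 4) (γ₁ := msh (Kt.X p) N M) (x := xr * msh (Kt.X p) N M) hKK
      htmc hz hact hθ0 hθκ hε0 hκ0 (by linarith) (by rw [← hζ]; exact hζ0)
      (by rw [← hζ]; positivity) hy0 hE0 (by rw [← hζ]; exact hCC) (by rw [← hζ]; linarith)
      hy1.le le_rfl (by rw [← hζ]; linarith) hj (by
        rw [← hζ]
        have := hmul j hj
        linarith) (fun j' hj' l h1 h2 => by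
        have h3 := hB.low j' (hj'.trans hj) l h1 h2
        rw [← hζ] at h3 ⊢
        linarith) (fun j' hj' => hB.fst j' (hj'.trans hj))
      (fun j' hj' k l h1 h2 => hB.mon j' (hj'.trans hj) k l h1 h2) (fun j' hj' l hl => by
        have h3 := hB.siz j' (hj'.trans hj) l hl
        rw [← hζ]
        linarith) (fun j' hj' l h1 h2 => repX_mono (hB.rep i hi j hj j' hj' l h1 h2) (by
        rw [← hζ]
        exact hxζ))

end Pool.EXC33
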