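import Pool.Agent.H33.EXC.Yrb

/-!
# `ZmC` at a box, for targets which are not the last coordinate of the order

`box_numY`: the numbers for the exactness behind records. `zmc_boxY`: `ZmC` from `BoxY` and
`RecExa`.
-/

set_option autoImplicit false

namespace Pool.EXC33

open Finset MvPolynomial
open Pool.Agent.H49.Ent Pool.Agent.H32.Dense Pool.STK Pool.KS3 Pool.STAT Pool.STAT.CLO Pool.MIC6
open Pool.KA Pool.KSAT Pool.PB Pool.GEN Pool.K2S Pool.S6C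
open Pool.STAT.OKI (RefC hts ohg tw)
open Pool.CHT (TmH)
open Pool.REX (Vz)
open Pool.OWN72 (HasA HasB RepX ClA NrD RecExa img hrc)
open Pool.JVE (cI)

variable {m n₀ : ℕ} {Θ : Type*}

/-- **The numbers at a place** of a box: `ξ = 4 xr msh`, `η = ka msh / 4`. -/
theorem box_numY {Kt : KitP m Θ n₀} {S : PCl m} {L : Finset (Fin m) → Fin m → ℝ → ℝ → ℝ}
    (hL : LamW S L) {N M : ℕ} {θ : ℝ} {p : Θ} {Dn : ℕ → ℕ → ℝ} {be co K₁ K₀ δ E ka xr : ℝ}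
    (hz : NumZ Kt N M θ p Dn) (hbe : 0 < be) (hbe1 : be ≤ 1)
    (hka : 0 < ka) (hka1 : ka ≤ 1) (hxr : xr = be * ka / (64 * (n₀ + 1))) (hK₀ : 0 < K₀)
    (hK₁ : 4 * K₀ + 4 ≤ K₁) (hδ0 : 0 ≤ δ) (hδ1 : δ ≤ be * ka / (32 * (n₀ + 1)))
    (hδ2 : K₀ * δ ≤ ka / 4) (hX : Kt.X p ≤ co / 16)
    (hact : ∀ w : ℝ, 0 ≤ w → w < 1 → L ∅ (Kt.cs p 0) w 0 ≤ w)
    (hB : BoxY Kt S L N M p Dn be co K₁ δ E) {i j : ℕ} (hi : i ≤ M) (hj : j ≤ M) :
    ∃ (Wd : Set ℝ) (g R d : ℝ) (Dg sl : ℕ → ℝ) (σ : ℝ),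
      NrD S L (Kt.cs p) n₀ Wd g R d be co Dg sl ∧ 0 ≤ d ∧
      g + ka * msh (Kt.X p) N M / 4 ≤ (Kt.y p).1 + j * msh (Kt.X p) N M ∧
      (Kt.y p).1 + j * msh (Kt.X p) N M + 4 * (xr * msh (Kt.X p) N M) +
        K₀ * (((Kt.y p).2 + i * msh (Kt.X p) N M - j * msh (Kt.X p) N M +
          8 * (xr * msh (Kt.X p) N M)) + ka * msh (Kt.X p) N M / 4) ≤ g + R ∧
      K₀ * d ≤ ka * msh (Kt.X p) N M / 4 ∧
      (∀ w : ℝ, (Kt.y p).1 + j * msh (Kt.X p) N M < w →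
        w < (Kt.y p).1 + j * msh (Kt.X p) N M + 4 * (xr * msh (Kt.X p) N M) → ∀ l < n₀,
          L ((range l).image (Kt.cs p)) (Kt.cs p l) w 0 ≤ Dn j l + σ) ∧
      n₀ * (σ + 8 * (xr * msh (Kt.X p) N M)) + ka * msh (Kt.X p) N M / 4 +
        ka * msh (Kt.X p) N M / 4 ≤ ka * msh (Kt.X p) N M ∧
      4 * (xr * msh (Kt.X p) N M) ≤ co / 4 ∧
      (Kt.y p).2 + i * msh (Kt.X p) N M - j * msh (Kt.X p) N M +
          8 * (xr * msh (Kt.X p) N M) + ka * msh (Kt.X p) N M / 4 ≤ 4 * Kt.X p ∧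
      0 ≤ (Kt.y p).2 + i * msh (Kt.X p) N M - j * msh (Kt.X p) N M +
          8 * (xr * msh (Kt.X p) N M) ∧
      (Kt.y p).1 + j * msh (Kt.X p) N M + 4 * (xr * msh (Kt.X p) N M) ≤ 1 := by
  have hN1 := hz.N1
  have hNr : (1 : ℝ) ≤ N := by exact_mod_cast hN1
  have hM0 : (0 : ℝ) ≤ M := Nat.cast_nonneg M
  have hn0 : (0 : ℝ) ≤ n₀ := Nat.cast_nonneg n₀
  obtain ⟨ζ, hζ⟩ : ∃ ζ, ζ = msh (Kt.X p) N M := ⟨_, rfl⟩
  have hζ0 : 0 < ζ := by rw [hζ]; exact hz.msh_pos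
  have hXζ : (N : ℝ) * ((M + 4) * ζ) = Kt.X p := by rw [hζ]; exact msh_mul hN1
  have hX4 : (M + 4) * ζ ≤ Kt.X p := by
    have : 1 * ((M + 4) * ζ) ≤ N * ((M + 4) * ζ) :=
      mul_le_mul_of_nonneg_right hNr (by positivity)
    linarith
  have hMζ : 0 ≤ (M : ℝ) * ζ := by positivity
  have hζX : M * ζ + 4 * ζ ≤ Kt.X p := by linarith
  have hmul : ∀ j : ℕ, j ≤ M → (j : ℝ) * ζ ≤ M * ζ := fun j hj =>
    mul_le_mul_of_nonneg_right (by exact_mod_cast hj) hζ0.le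
  have hmul0 : ∀ j : ℕ, 0 ≤ (j : ℝ) * ζ := fun j => by positivity
  have hi1 := hmul i hi
  have hj1 := hmul j hj
  have hi0 := hmul0 i
  have hj0 := hmul0 j
  have hg0 := hB.g0
  have hE0 := hB.E0
  have hy2' := hB.y2
  have hsM := hB.siz M le_rfl 0 (by omega)
  rw [hB.fst M le_rfl, ← hζ] at hsM
  obtain ⟨Wd, g, R, d, Dg, sl, hN, hd0, hd1, hg1, hg2, hDn⟩ := hB.nrd
  rw [← hζ] at hd1
  -- the small numbers
  have hxr0 : 0 < xr := by rw [hxr]; positivity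
  have hxe : xr * (64 * (n₀ + 1)) = be * ka := by
    rw [hxr]
    field_simp
  have hbk : be * ka ≤ ka := by
    have : be * ka ≤ 1 * ka := mul_le_mul_of_nonneg_right hbe1 hka.le
    linarith
  have hxr64 : 64 * xr ≤ be * ka := by
    have : 0 ≤ xr * (64 * n₀) := by positivity
    linarith
  have hxζ : 64 * (xr * ζ) ≤ be * ka * ζ := by
    have := mul_le_mul_of_nonneg_right hxr64 hζ0.le
    linarith
  have hxζ0 : 0 < xr * ζ := by positivity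
  have hbkζ : be * ka * ζ ≤ ka * ζ := mul_le_mul_of_nonneg_right hbk hζ0.le
  have hkaζ : ka * ζ ≤ ζ := by
    have : ka * ζ ≤ 1 * ζ := mul_le_mul_of_nonneg_right hka1 hζ0.le
    linarith
  have hkaζ0 : 0 < ka * ζ := by positivity
  have hδe : δ * (32 * (n₀ + 1)) ≤ be * ka := by
    rwa [le_div_iff₀ (by positivity)] at hδ1
  have hδζ : 32 * (δ * ζ) ≤ be * ka * ζ := by
    have h1 : 0 ≤ δ * (32 * n₀) := by positivity
    have h2 : 32 * δ ≤ be * ka := by linarith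
    have := mul_le_mul_of_nonneg_right h2 hζ0.le
    linarith
  obtain ⟨σ, hσ⟩ : ∃ σ, σ = (2 * (4 * (xr * ζ)) + 2 * d) / be + 2 * d := ⟨_, rfl⟩
  refine ⟨Wd, g, R, d, Dg, sl, σ, hN, hd0, ?_, ?_, ?_, ?_, ?_, ?_, ?_, ?_, ?_⟩
  · rw [← hζ]
    linarith
  · rw [← hζ]
    have h1 : (Kt.y p).2 + i * ζ - j * ζ + 8 * (xr * ζ) + ka * ζ / 4 ≤ 4 * Kt.X p := by
      linarith
    have h2 := mul_le_mul_of_nonneg_left h1 hK₀.le
    have h3 : (4 * K₀ + 4) * Kt.X p ≤ K₁ * Kt.X p :=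
      mul_le_mul_of_nonneg_right hK₁ hz.X0.le
    have h4 : (4 * K₀ + 4) * Kt.X p = K₀ * (4 * Kt.X p) + 4 * Kt.X p := by ring
    linarith
  · rw [← hζ]
    have h1 : K₀ * d ≤ K₀ * (δ * ζ) := mul_le_mul_of_nonneg_left hd1 hK₀.le
    have h2 : K₀ * δ * ζ ≤ ka / 4 * ζ := mul_le_mul_of_nonneg_right hδ2 hζ0.le
    have h3 : K₀ * (δ * ζ) = K₀ * δ * ζ := by ring
    linarith
  · intro w hw hw' l hl
    rw [← hζ] at hw hw'
    rw [hσ]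
    refine lev_nrd hL hN hbe hbe1 hd0 hact (w₁ := (Kt.y p).1 + j * ζ) (ξ := 4 * (xr * ζ))
      (by linarith [hz.X0]) ?_ (by rw [hB.fst j hj, ← hζ]) (fun l h1 h2 => by
        have := hDn j hj l h1 h2
        rwa [← hζ] at this) hw hw' (by linarith) hl
    have h3 : (4 * K₀ + 4) * Kt.X p ≤ K₁ * Kt.X p :=
      mul_le_mul_of_nonneg_right hK₁ hz.X0.le
    have h4 : (4 * K₀ + 4) * Kt.X p = K₀ * (4 * Kt.X p) + 4 * Kt.X p := by ring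
    have h5 : 0 ≤ K₀ * (4 * Kt.X p) := mul_nonneg hK₀.le (by linarith [hz.X0])
    linarith
  · rw [← hζ]
    -- `n₀ σ`
    have hdb : d ≤ d / be := by
      rw [le_div_iff₀ hbe]
      have : d * be ≤ d * 1 := mul_le_mul_of_nonneg_left hbe1 hd0
      linarith
    have hxb : xr * ζ ≤ xr * ζ / be := by
      rw [le_div_iff₀ hbe]
      have : xr * ζ * be ≤ xr * ζ * 1 := mul_le_mul_of_nonneg_left hbe1 hxζ0.le
      linarith
    have h1 : σ + 8 * (xr * ζ) ≤ (16 * (xr * ζ) + 4 * d) / be := by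
      rw [hσ]
      have e1 : (2 * (4 * (xr * ζ)) + 2 * d) / be = 8 * (xr * ζ / be) + 2 * (d / be) := by ring
      have e2 : (16 * (xr * ζ) + 4 * d) / be = 16 * (xr * ζ / be) + 4 * (d / be) := by ring
      rw [e1, e2]
      linarith
    have h2 := mul_le_mul_of_nonneg_left h1 hn0
    have h3 : n₀ * ((16 * (xr * ζ) + 4 * d) / be) ≤ 3 / 8 * (ka * ζ) := by
      rw [mul_div_assoc', div_le_iff₀ hbe]
      have e1 : (n₀ : ℝ) * (16 * (xr * ζ)) ≤ be * ka * ζ / 4 := by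
        have a1 : 0 ≤ xr * ζ := hxζ0.le
        have a2 : xr * (64 * (n₀ + 1)) * ζ = be * ka * ζ := by rw [hxe]
        have a3 : xr * (64 * (n₀ + 1)) * ζ = 64 * n₀ * (xr * ζ) + 64 * (xr * ζ) := by ring
        have a4 : (n₀ : ℝ) * (16 * (xr * ζ)) = 64 * n₀ * (xr * ζ) / 4 := by ring
        linarith
      have e2 : (n₀ : ℝ) * (4 * d) ≤ be * ka * ζ / 8 := by
        have a1 := mul_le_mul_of_nonneg_left hd1 (show (0 : ℝ) ≤ 32 * (n₀ + 1) by positivity)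
        have a2 := mul_le_mul_of_nonneg_right hδe hζ0.le
        have a3 : 32 * ((n₀ : ℝ) + 1) * (δ * ζ) = δ * (32 * (n₀ + 1)) * ζ := by ring
        have a4 : 32 * ((n₀ : ℝ) + 1) * d = 8 * (n₀ * (4 * d)) + 32 * d := by ring
        linarith
      have e3 : (n₀ : ℝ) * (16 * (xr * ζ) + 4 * d) = n₀ * (16 * (xr * ζ)) + n₀ * (4 * d) := by
        ring
      have e4 : 3 / 8 * (ka * ζ) * be = be * ka * ζ / 4 + be * ka * ζ / 8 := by ring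
      rw [e3, e4]
      linarith
    linarith
  · rw [← hζ]
    linarith
  · rw [← hζ]
    linarith
  · rw [← hζ]
    linarith
  · rw [← hζ]
    linarith

/-- **`ZmC` at a box**, from the exactness behind records without bits. -/
theorem zmc_boxY (m n₀ K K' s₁ : ℕ) (sh : ℕ → ℕ) (hn1 : 1 ≤ n₀) (hK1 : 1 ≤ K) (hK' : 1 ≤ K')
    (hR : RecExa m n₀) {al : ℝ} {g₀ : ℝ → ℝ} (hal : 0 < al) (hg₀ : ∀ e, 0 < e → 0 < g₀ e)
    {be co : ℝ} (hbe : 0 < be) (hbe1 : be ≤ 1) (hco : 0 < co) (N M : ℕ) (hN : 1 ≤ N) {ka : ℝ}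
    (hka : 0 < ka) :
    ∃ K₁ δ θ₀ X₀ : ℝ, 0 < K₁ ∧ 0 < δ ∧ 0 < θ₀ ∧ 0 < X₀ ∧
    ∀ {Θ : Type*} {Kt : KitP m Θ n₀} {S : PCl m} {C₀ : ℝ}
    {L : Finset (Fin m) → Fin m → ℝ → ℝ → ℝ} {Na : ℚ → ℚ → ℝ} {θ : ℝ} {p : Θ}
    {Dn : ℕ → ℕ → ℝ} {E : ℝ}, Kt.K = K → TmH S → 0 ≤ C₀ → TmC S C₀ → LamW S L →
    (∀ k ≤ n₀, FZX k) → ActM Na al g₀ → ActB Na S (Kt.cs p 0) →
    (∀ w : ℝ, 0 ≤ w → w < 1 → L ∅ (Kt.cs p 0) w 0 ≤ w) →
    NumZ Kt N M θ p Dn → BoxY Kt S L N M p Dn be co K₁ δ E → 0 ≤ θ → θ ≤ θ₀ → Kt.X p ≤ X₀ →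
    ZmC Kt S K' s₁ sh N M θ p ka := by
  obtain ⟨k, hk⟩ : ∃ k, k = min ka 1 := ⟨_, rfl⟩
  have hk0 : 0 < k := by rw [hk]; exact lt_min hka one_pos
  have hk1 : k ≤ 1 := by rw [hk]; exact min_le_right _ _
  have hkk : k ≤ ka := by rw [hk]; exact min_le_left _ _
  have hn0 : (0 : ℝ) ≤ n₀ := Nat.cast_nonneg n₀
  have hM0 : (0 : ℝ) ≤ M := Nat.cast_nonneg M
  have hNr : (1 : ℝ) ≤ N := by exact_mod_cast hN
  have hl2 : 0 < Real.log 2 := Real.log_pos one_lt_two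
  obtain ⟨C, hC, hplace⟩ := zmc_place n₀ K K' s₁ sh hK1 hK'
  obtain ⟨θR, hθR⟩ : ∃ θR : ℝ, θR = k / (16 * (N * (M + 4))) := ⟨_, rfl⟩
  have hNM : 0 < (N : ℝ) * (M + 4) := by positivity
  have hθR0 : 0 < θR := by rw [hθR]; positivity
  obtain ⟨K₀, r₀, hK₀, hr₀, hrex⟩ := rexZ_of hR hal hg₀ hbe hco hθR0
  obtain ⟨xr, hxr⟩ : ∃ xr : ℝ, xr = be * k / (64 * (n₀ + 1)) := ⟨_, rfl⟩
  have hxr0 : 0 < xr := by rw [hxr]; positivity
  have hbk : be * k ≤ 1 := by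
    have : be * k ≤ 1 * 1 := mul_le_mul hbe1 hk1 hk0.le one_pos.le
    linarith
  have hxr1 : xr ≤ 1 / 16 := by
    rw [hxr, div_le_div_iff₀ (by positivity) (by norm_num)]
    linarith
  obtain ⟨ε, hε, hpre⟩ := box_preY n₀ K K' s₁ sh hn1 hC
    (show 0 < k * Real.log 2 / 4 by positivity) hxr0 hxr1 hco M
  obtain ⟨κ₀, hκ₀, hκ₀1, hpl⟩ := hplace ε hε
  obtain ⟨κ, δ₁, θ₀, y, hκ0, hκκ, hδ₁, hθ₀, hbox⟩ := hpre κ₀ hκ₀
  obtain ⟨δ, hδ⟩ : ∃ δ, δ = min δ₁ (min (be * k / (32 * (n₀ + 1))) (k / (4 * K₀))) := ⟨_, rfl⟩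
  have hδ0 : 0 < δ := by
    rw [hδ]
    exact lt_min hδ₁ (lt_min (by positivity) (by positivity))
  have hδ1 : δ ≤ δ₁ := by rw [hδ]; exact min_le_left _ _
  have hδ2 : δ ≤ be * k / (32 * (n₀ + 1)) := by
    rw [hδ]
    exact (min_le_right _ _).trans (min_le_left _ _)
  have hδ3 : K₀ * δ ≤ k / 4 := by
    have h1 : δ ≤ k / (4 * K₀) := by
      rw [hδ]
      exact (min_le_right _ _).trans (min_le_right _ _)
    rw [le_div_iff₀ (by positivity)] at h1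
    linarith
  refine ⟨4 * K₀ + 4, δ, θ₀, min (min (co / 16) (1 / 16)) (r₀ / 4), by positivity, hδ0, hθ₀,
    lt_min (lt_min (by linarith) (by norm_num)) (by linarith), ?_⟩
  intro Θ Kt S C₀ L Na θ p Dn E hKK htmh hC₀ htmc hL hF hM hBq hact hz hB hθ0 hθθ hX
  have hX1 : Kt.X p ≤ co / 16 := hX.trans ((min_le_left _ _).trans (min_le_left _ _))
  have hX2 : Kt.X p ≤ 1 / 16 := hX.trans ((min_le_left _ _).trans (min_le_right _ _))
  have hX3 : 4 * Kt.X p ≤ r₀ := by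
    have := hX.trans (min_le_right _ _)
    linarith
  have hζ0 := hz.msh_pos
  have hXζ : (N : ℝ) * ((M + 4) * msh (Kt.X p) N M) = Kt.X p := msh_mul hN
  have hactF : Pool.MIC6.ActF S (Kt.cs p 0) := by
    obtain ⟨Wd, g, R, d, Dg, sl, hN, -⟩ := hB.nrd
    exact hN.aff.act
  obtain ⟨hP, hh, hH⟩ := hbox hKK htmh htmc hactF hz hB hδ0.le hδ1 hθ0 hθθ hX1 hX2
  refine ZmC.mono (ka := k) ?_ hkk hζ0.le
  rw [zmC_iff]
  intro b e hnear i hi j hj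
  obtain ⟨Wd, g, R, d, Dg, sl, σ, hN, hd0, a1, a2, a3, a4, a5, a6, a7, a8, a9⟩ :=
    box_numY hL hz hbe hbe1 hk0 hk1 hxr hK₀ le_rfl hδ0.le hδ2 hδ3 hX1 hact hB hi hj
  have hη0 : 0 < k * msh (Kt.X p) N M / 4 := by positivity
  have hrz := hrex hC₀ htmc htmh.1 hL hF hM hBq hd0 hN (b₀ := (Kt.y p).1 + j * msh (Kt.X p) N M)
    (b₁ := (Kt.y p).1 + j * msh (Kt.X p) N M + 4 * (xr * msh (Kt.X p) N M))
    (P₀ := (Kt.y p).2 + i * msh (Kt.X p) N M - j * msh (Kt.X p) N M +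
      8 * (xr * msh (Kt.X p) N M)) (η := k * msh (Kt.X p) N M / 4) a1 a2 a8 hη0 (a7.trans hX3) (by
      have h1 := mul_le_mul_of_nonneg_left a7 hθR0.le
      have e0 : θR * (16 * (N * (M + 4))) = k := by
        rw [hθR]
        exact div_mul_cancel₀ k (by positivity)
      have e1 : 4 * Kt.X p = 4 * (N * ((M + 4) * msh (Kt.X p) N M)) := by rw [hXζ]
      have e2 : θR * (4 * (N * ((M + 4) * msh (Kt.X p) N M))) =
        θR * (16 * (N * (M + 4))) * msh (Kt.X p) N M / 4 := by ring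
      have h2 : θR * (4 * Kt.X p) = k * msh (Kt.X p) N M / 4 := by
        rw [e1, e2, e0]
      linarith) a3
  have e1 : k * Real.log 2 / 4 * msh (Kt.X p) N M / Real.log 2 = k * msh (Kt.X p) N M / 4 := by
    field_simp
  exact hpl κ hκ0 hκκ hKK hP hnear hi hj hh (by positivity) a6 (by
    rw [e1]
    have e2 : (Kt.y p).2 + i * msh (Kt.X p) N M - j * msh (Kt.X p) N M +
      8 * (xr * msh (Kt.X p) N M) - ((Kt.y p).2 + i * msh (Kt.X p) N M -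
        j * msh (Kt.X p) N M) = 8 * (xr * msh (Kt.X p) N M) := by ring
    rw [e2]
    exact a5) (hH b e i hi j hj) hrz a4

end Pool.EXC33
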