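import Pool.Agent.H33.EXC.Zrh
import Pool.Agent.H72.KE.Nrt
import Pool.Agent.H72.OWN.Rxb
import Pool.Agent.H21.PRV.Prv3

/-!
# The fields of a box from the numbers of a chain near a window

`box_ed`: labels of the base and of the target at the windows of a grid, own velocities, and the
numbers of the chain, from helper72's `BxE` near the window.
-/

set_option autoImplicit false

namespace Pool.EXC33

open Finset
open Pool.Agent.H49.Ent Pool.Agent.H32.Dense Pool.STK Pool.KS3 Pool.STAT Pool.STAT.CLO Pool.MIC6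
open Pool.KA Pool.KSAT Pool.PB Pool.GEN Pool.K2S Pool.S6C
open Pool.OWN72 (HasA HasB RepX ClA NrD NrR NrT BxE img AfE GrF gre_of own_xF)
open Pool.PRV (hasA_low hasB_low)

variable {m : ℕ}

/-- A window with labels just before a given window. -/
theorem win_bef {S : PCl m} {L : Finset (Fin m) → Fin m → ℝ → ℝ → ℝ} {c : ℕ → Fin m} {n₀ : ℕ}
    {Wd : Set ℝ} {g R d be co : ℝ} {Dg sl : ℕ → ℝ} (h : NrD S L c n₀ Wd g R d be co Dg sl)
    (hd : 0 < d) {w : ℝ} (h1 : g + 2 * d ≤ w) (h2 : w ≤ g + R) :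
    ∃ W ∈ Wd, g ≤ W ∧ w - 2 * d < W ∧ W < w := by
  obtain ⟨W, hW, h3, h4⟩ := h.den (w - 2 * d) w (by linarith) (by linarith) h2
  exact ⟨W, hW, by linarith, h3, h4⟩

/-- A window with labels just after a given window. -/
theorem win_aft {S : PCl m} {L : Finset (Fin m) → Fin m → ℝ → ℝ → ℝ} {c : ℕ → Fin m} {n₀ : ℕ}
    {Wd : Set ℝ} {g R d be co : ℝ} {Dg sl : ℕ → ℝ} (h : NrD S L c n₀ Wd g R d be co Dg sl)
    (hd : 0 < d) {w : ℝ} (h1 : g ≤ w) (h2 : w + 2 * d ≤ g + R) :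
    ∃ W ∈ Wd, w < W ∧ W < w + 2 * d := by
  obtain ⟨W, hW, h3, h4⟩ := h.den w (w + 2 * d) h1 (by linarith) h2
  exact ⟨W, hW, h3, h4⟩

/-- The precision of a label at an earlier window. -/
theorem prec_bef {D s w W g d be δ x Dn : ℝ} (hbe : 0 < be) (hs1 : 1 ≤ s) (hs : s ≤ 1 / be)
    (hW : w - 2 * d < W) (hW' : W < w) (hD : |Dn - (D + s * (w - g))| ≤ d)
    (hd : 0 < d) (hδ : 2 * d / be + 2 * d ≤ δ * x) :
    Dn - δ * x - w ≤ (D + s * (W - g) - d) - W := by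
  have h1 := (abs_le.1 hD).2
  have h2 : (s - 1) * (w - W) ≤ s * (w - W) :=
    mul_le_mul_of_nonneg_right (by linarith) (by linarith)
  have h3 : s * (w - W) ≤ s * (2 * d) := mul_le_mul_of_nonneg_left (by linarith) (by linarith)
  have h4 : s * (2 * d) ≤ 1 / be * (2 * d) := mul_le_mul_of_nonneg_right hs (by linarith)
  have e1 : 1 / be * (2 * d) = 2 * d / be := by ring
  have e2 : (s - 1) * (w - W) = s * (w - g) - s * (W - g) - (w - W) := by ring
  linarith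

/-- The growth of a number. -/
theorem prec_aft {D s w a g d be P Dn : ℝ} (hs : 1 + be ≤ s) (hwa : w ≤ a)
    (hD : |Dn - (D + s * (w - g))| ≤ d) (hP : P + 2 * d < be * (a - w)) :
    Dn - w + P < (D + s * (a - g) - d) - a := by
  have h1 := (abs_le.1 hD).2
  have h2 : be * (a - w) ≤ (s - 1) * (a - w) :=
    mul_le_mul_of_nonneg_right (by linarith) (by linarith)
  have e2 : (s - 1) * (a - w) = s * (a - g) - s * (w - g) - (a - w) := by ring
  linarith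

/-- **The fields of a box.** -/
theorem box_ed (n₀ M : ℕ) (hn : 1 ≤ n₀) (K₁ : ℝ) {be co δ : ℝ} (hbe : 0 < be) (hco : 0 < co)
    (hδ : 0 < δ) :
    ∃ K₂ δ₂ x₀ : ℝ, 0 < K₂ ∧ 0 < δ₂ ∧ 0 < x₀ ∧ ∀ {m : ℕ} {S : PCl m} {C₀ : ℝ}
    {L : Finset (Fin m) → Fin m → ℝ → ℝ → ℝ} {c : ℕ → Fin m} {N : ℕ} {Wd : Set ℝ}
    {g R d DT sT E : ℝ} {Dg sl : ℕ → ℝ} {ϖ X : ℝ} {Dn : ℕ → ℕ → ℝ}, TmC S C₀ → LamW S L →
    1 ≤ N → 0 < X → X ≤ x₀ →
    BxE S L c n₀ Wd g R d be co DT sT E Dg sl M ϖ (msh X N M) Dn → 0 ≤ d →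
    d ≤ δ₂ * msh X N M → g + X ≤ ϖ → ϖ + K₂ * X ≤ g + R →
    (∀ j ≤ M, ∀ l, 1 ≤ l → l < n₀ → HasA S (img c l) (c l) (ϖ + j * msh X N M)
      (Dn j l - δ * msh X N M)) ∧
    (∀ j ≤ M, ∀ E', E ≤ E' → HasB S (img c n₀) (c n₀) (ϖ + j * msh X N M)
      (Dn j n₀ - δ * msh X N M) E') ∧
    (∀ i ≤ M, ∀ j ≤ M, ∀ j' ≤ j, ∀ l, 1 ≤ l → l < n₀ + 1 →
      RepX S (c 0) (img c l) (c l) (ϖ + j' * msh X N M) (ϖ + j * msh X N M + msh X N M)
        (Dn j' l) (X + i * msh X N M - j * msh X N M) (msh X N M)) ∧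
    ∃ (Wd : Set ℝ) (g R d : ℝ) (Dg sl : ℕ → ℝ), NrD S L c n₀ Wd g R d be co Dg sl ∧
      0 ≤ d ∧ d ≤ δ * msh X N M ∧ g + X ≤ ϖ ∧ ϖ + K₁ * X ≤ g + R ∧ ∀ j ≤ M, ∀ l, 1 ≤ l →
        l < n₀ → Dg l + sl l * (ϖ + j * msh X N M - g) - d ≤ Dn j l := by
  obtain ⟨bb, hbb⟩ : ∃ bb, bb = min be 1 := ⟨_, rfl⟩
  have hbb0 : 0 < bb := by rw [hbb]; exact lt_min hbe one_pos
  have hbb1 : bb ≤ 1 := by rw [hbb]; exact min_le_right _ _
  have hnr : (0 : ℝ) ≤ n₀ := Nat.cast_nonneg _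
  obtain ⟨δ₂, hδ₂⟩ : ∃ δ₂, δ₂ = min δ 1 * (bb / 64) := ⟨_, rfl⟩
  have hm0 : 0 < min δ 1 := lt_min hδ one_pos
  have hδ₂0 : 0 < δ₂ := by rw [hδ₂]; positivity
  have hδ₂1 : δ₂ ≤ bb / 64 := by
    rw [hδ₂]
    have : min δ 1 * (bb / 64) ≤ 1 * (bb / 64) :=
      mul_le_mul_of_nonneg_right (min_le_right _ _) (by positivity)
    linarith
  have hδ₂2 : δ₂ ≤ δ * (bb / 64) := by
    rw [hδ₂]
    exact mul_le_mul_of_nonneg_right (min_le_left _ _) (by positivity)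
  refine ⟨|K₁| + 2 + 8 / bb + 2 * (n₀ + 1) * (n₀ + 8) / bb, δ₂, min be co / 16, by positivity,
    hδ₂0, by have := lt_min hbe hco; positivity, ?_⟩
  intro m S C₀ L c N Wd g R d' DT sT E Dg sl ϖ X Dn htm hL hN hX hX0 hB hd'0 hd'1 hgX hgR
  obtain ⟨ζ, hζ⟩ : ∃ ζ, ζ = msh X N M := ⟨_, rfl⟩
  have hζ0 : 0 < ζ := by rw [hζ]; exact msh_pos hX hN
  have hXζ : (N : ℝ) * ((M + 4) * ζ) = X := by rw [hζ]; exact msh_mul hN
  have hNr : (1 : ℝ) ≤ N := by exact_mod_cast hN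
  have hM0 : (0 : ℝ) ≤ M := Nat.cast_nonneg M
  have hX4 : (M + 4) * ζ ≤ X := by
    have : 1 * ((M + 4) * ζ) ≤ N * ((M + 4) * ζ) :=
      mul_le_mul_of_nonneg_right hNr (by positivity)
    linarith
  have hζX : M * ζ + 4 * ζ ≤ X := by linarith
  rw [← hζ] at hB hd'1 ⊢
  have hmul : ∀ j : ℕ, j ≤ M → (j : ℝ) * ζ ≤ M * ζ := fun j hj =>
    mul_le_mul_of_nonneg_right (by exact_mod_cast hj) hζ0.le
  have hmul0 : ∀ j : ℕ, 0 ≤ (j : ℝ) * ζ := fun j => by positivity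
  have hMζ : 0 ≤ (M : ℝ) * ζ := by positivity
  -- the slopes
  have hsT := hB.nrt.slo
  have hbe1 : be ≤ 1 := by
    by_contra hc
    push Not at hc
    have h1 : 1 / be ≤ 1 := by
      rw [div_le_one hbe]
      exact hc.le
    linarith [hsT.1, hsT.2]
  have hbbe : bb = be := by rw [hbb]; exact min_eq_left hbe1
  rw [hbbe] at hδ₂1 hδ₂2 hgR
  -- a positive error
  obtain ⟨d, hd⟩ : ∃ d, d = δ₂ * ζ := ⟨_, rfl⟩
  have hd0 : 0 < d := by rw [hd]; positivity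
  have hd'd : d' ≤ d := by rw [hd]; exact hd'1
  have hD : NrD S L c n₀ Wd g R d be co Dg sl := hB.nrd.d_le hd'd
  have hdζ : d ≤ be / 64 * ζ := by rw [hd]; exact mul_le_mul_of_nonneg_right hδ₂1 hζ0.le
  have hdζ2 : d ≤ δ * (be / 64) * ζ := by rw [hd]; exact mul_le_mul_of_nonneg_right hδ₂2 hζ0.le
  have hdb : d / be ≤ ζ / 64 := by
    rw [div_le_iff₀ hbe]
    linarith
  have hdb2 : d / be ≤ δ * ζ / 64 := by
    rw [div_le_iff₀ hbe]
    linarith
  have hd1 : d ≤ d / be := by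
    rw [le_div_iff₀ hbe]
    have : d * be ≤ d * 1 := mul_le_mul_of_nonneg_left hbe1 hd0.le
    linarith
  have hprec : 2 * d / be + 2 * d ≤ δ * ζ := by
    have e1 : 2 * d / be = 2 * (d / be) := by ring
    have : 0 < δ * ζ := by positivity
    rw [e1]
    linarith
  have hg1 := hD.g1
  have hg0 := hD.g0
  have hKX : 0 ≤ |K₁| * X := by positivity
  have hq0 : 0 ≤ 8 / be * X := by positivity
  have hq1 : 0 ≤ 2 * (n₀ + 1) * (n₀ + 8) / be * X := by positivity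
  have hR1 : ϖ + (|K₁| * X + 2 * X + 8 / be * X + 2 * (n₀ + 1) * (n₀ + 8) / be * X) ≤ g + R := by
    have e1 : (|K₁| + 2 + 8 / be + 2 * (n₀ + 1) * (n₀ + 8) / be) * X =
      |K₁| * X + 2 * X + 8 / be * X + 2 * (n₀ + 1) * (n₀ + 8) / be * X := by ring
    rw [← e1]
    exact hgR
  have hX0b : X ≤ be / 16 := hX0.trans (by
    have := min_le_left be co
    linarith)
  have hX0c : X ≤ co / 16 := hX0.trans (by
    have := min_le_right be co
    linarith)
  have hwj : ∀ j ≤ M, g + 2 * d ≤ ϖ + j * ζ ∧ ϖ + j * ζ ≤ g + R := by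
    intro j hj
    have h1 := hmul j hj
    have h2 := hmul0 j
    constructor <;> linarith
  have hnum : ∀ j ≤ M, ∀ l, 1 ≤ l → l < n₀ → |Dn j l - (Dg l + sl l * (ϖ + j * ζ - g))| ≤ d :=
    fun j hj l h1 h2 => (hB.num j hj l h1 h2).trans hd'd
  have htgt : ∀ j ≤ M, |Dn j n₀ - (DT + sT * (ϖ + j * ζ - g))| ≤ d :=
    fun j hj => (hB.tgt j hj).trans hd'd
  refine ⟨?_, ?_, ?_, ?_⟩
  · intro j hj l hl1 hl2
    obtain ⟨W, hW, h1, h2, h3⟩ := win_bef hD hd0 (hwj j hj).1 (hwj j hj).2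
    refine hasA_low (by linarith [(hwj j hj).2]) fun ε hε => ⟨W, _, h3.le, ?_,
      hD.aff.lab W hW l hl1 hl2⟩
    have h4 := (abs_le.1 (hD.lin l hl1 hl2 W hW h1 (h3.le.trans (hwj j hj).2))).1
    have hs := hD.slo l hl1 hl2
    have h5 := prec_bef (δ := δ) (x := ζ) hbe (by linarith [hs.1]) hs.2 h2 h3
      (hnum j hj l hl1 hl2) hd0 hprec
    linarith
  · intro j hj E' hE'
    obtain ⟨W, hW, h1, h2, h3⟩ := win_bef hD hd0 (hwj j hj).1 (hwj j hj).2
    refine hasB_low (by linarith [(hwj j hj).2]) fun ε hε => ⟨W, _, E, h3.le, ?_, by linarith,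
      hB.nrt.lab W hW h1 (h3.le.trans (hwj j hj).2)⟩
    have h5 := prec_bef (δ := δ) (x := ζ) hbe (by linarith [hsT.1]) hsT.2 h2 h3 (htgt j hj) hd0
      hprec
    linarith
  · intro i hi j hj j' hj' l hl1 hl2
    have hR' := hD.real hL hd0 hbe hbe1
    have h8 : 8 * d / be = 8 * (d / be) := by ring
    obtain ⟨Δ, hΔ⟩ : ∃ Δ, Δ = (n₀ + 8) / be * X := ⟨_, rfl⟩
    have hΔ0 : 0 < Δ := by rw [hΔ]; positivity
    have hbΔ : be * Δ = (n₀ + 8) * X := by
      rw [hΔ]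
      field_simp
    have hnX : 0 ≤ (n₀ : ℝ) * X := by positivity
    have hΔX : X ≤ Δ := by
      have h1 : be * Δ ≤ 1 * Δ := mul_le_mul_of_nonneg_right hbe1 hΔ0.le
      have e1 : ((n₀ : ℝ) + 8) * X = n₀ * X + 8 * X := by ring
      rw [hbΔ, e1] at h1
      linarith
    have hG : GrF L c n₀ Wd ϖ (|K₁| * X + X + 8 / be * X + 2 * (n₀ + 1) * (n₀ + 8) / be * X)
        ((n₀ + 5) * X) Δ := by
      refine gre_of hR' hbe hbe1 (by positivity) ?_ (by linarith) ?_ ?_ (by positivity)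
      · rw [h8]
        linarith
      · linarith
      · rw [hbΔ, h8]
        have e1 : ((n₀ : ℝ) + 8) * X = (n₀ + 5) * X + 3 * X := by ring
        rw [e1]
        linarith
    obtain ⟨a, ha, ha1, ha2⟩ := win_aft hD hd0 (w := ϖ + X + 4 / be * X) (by
      have : 0 ≤ 4 / be * X := by positivity
      linarith) (by
      have e1 : 8 / be * X = 2 * (4 / be * X) := by ring
      have : 0 ≤ 4 / be * X := by positivity
      linarith)
    have h4b : 0 ≤ 4 / be * X := by positivity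
    have e4 : 8 / be * X = 2 * (4 / be * X) := by ring
    have hj'M := hj'.trans hj
    have hm1 := hmul j' hj'M
    have hm2 := hmul0 j'
    have hm3 := hmul j hj
    have hm4 := hmul0 j
    have hm5 := hmul i hi
    have hm6 := hmul0 i
    have hjj : (j' : ℝ) * ζ ≤ j * ζ :=
      mul_le_mul_of_nonneg_right (by exact_mod_cast hj') hζ0.le
    have hwa : ϖ + j' * ζ ≤ a := by linarith
    have hgrow : 4 * X ≤ be * (a - (ϖ + j' * ζ)) := by
      have h1 : 4 / be * X ≤ a - (ϖ + j' * ζ) := by linarith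
      have h2 : be * (4 / be * X) ≤ be * (a - (ϖ + j' * ζ)) := mul_le_mul_of_nonneg_left h1 hbe.le
      have e1 : be * (4 / be * X) = 4 * X := by field_simp
      linarith
    have hP2 : X + i * ζ - j * ζ + 2 * d < be * (a - (ϖ + j' * ζ)) := by linarith
    have hkey : ∀ NT E : ℝ, HasB S (img c l) (c l) a NT E →
        Dn j' l - (ϖ + j' * ζ) + (X + i * ζ - j * ζ) < NT - a → 2 * ζ ≤ Dn j' l - (ϖ + j' * ζ) →
        RepX S (c 0) (img c l) (c l) (ϖ + j' * ζ) (ϖ + j * ζ + ζ) (Dn j' l)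
          (X + i * ζ - j * ζ) ζ := by
      intro NT E hT hN1 hN2
      refine own_xF htm hL hD.aff (κ := X) hX hG hΔ0 hl1 (by omega) ha hT (by linarith) hwa ?_
        (by linarith) (by linarith) hζ0 hN2 ?_ hN1
      · have hl : (l : ℝ) ≤ n₀ := by exact_mod_cast (show l ≤ n₀ by omega)
        have h1 : (l : ℝ) * Δ ≤ n₀ * Δ := mul_le_mul_of_nonneg_right hl hΔ0.le
        have e1 : 2 * ((n₀ : ℝ) + 1) * (n₀ + 8) / be * X = 2 * (n₀ * Δ) + 2 * Δ := by
          rw [hΔ]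
          ring
        rw [e1, e4]
        have : 0 ≤ (n₀ : ℝ) * Δ := by positivity
        linarith
      · have hl : (l : ℝ) ≤ n₀ := by exact_mod_cast (show l ≤ n₀ by omega)
        have h1 : (l : ℝ) * X ≤ n₀ * X := mul_le_mul_of_nonneg_right hl hX.le
        have e1 : ((n₀ : ℝ) + 5) * X = n₀ * X + 5 * X := by ring
        rw [e1]
        linarith
    have haR : a ≤ g + R := by linarith
    have hga : g ≤ a := by linarith
    rcases Nat.lt_or_ge l n₀ with h | h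
    · have hs := hD.slo l hl1 h
      have h4 := (abs_le.1 (hD.lin l hl1 h a ha hga haR)).1
      have h5 := prec_aft hs.1 hwa (hnum j' hj'M l hl1 h) hP2
      refine hkey _ 0 (hD.aff.lab a ha l hl1 h).hasB (by linarith) ?_
      have h6 := (abs_le.1 (hnum j' hj'M l hl1 h)).1
      have h7 := hD.dlo l hl1 h
      have h8 : 1 * (ϖ + j' * ζ - g) ≤ sl l * (ϖ + j' * ζ - g) :=
        mul_le_mul_of_nonneg_right (by linarith [hs.1]) (by linarith)
      linarith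
    · have hl : l = n₀ := by omega
      subst hl
      have h5 := prec_aft hsT.1 hwa (htgt j' hj'M) hP2
      refine hkey _ E (hB.nrt.lab a ha hga haR) (by linarith) ?_
      have h6 := (abs_le.1 (htgt j' hj'M)).1
      have h7 := hB.nrt.low
      have h8 : 1 * (ϖ + j' * ζ - g) ≤ sT * (ϖ + j' * ζ - g) :=
        mul_le_mul_of_nonneg_right (by linarith [hsT.1]) (by linarith)
      linarith
  · refine ⟨Wd, g, R, d, Dg, sl, hD, hd0.le, ?_, hgX, ?_, fun j hj l h1 h2 => ?_⟩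
    · have : d ≤ d / be := hd1
      have h2 : 0 < δ * ζ := by positivity
      linarith
    · have : K₁ * X ≤ |K₁| * X := mul_le_mul_of_nonneg_right (le_abs_self _) hX.le
      linarith
    · have := (abs_le.1 (hnum j hj l h1 h2)).1
      linarith

end Pool.EXC33
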