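import Pool.Agent.H33.EXC.Yrh
import Pool.Agent.H33.EXC.Zre

/-!
# The facts of the small boxes from chains with a target near a window

`SupE`: in subclasses of the class, at the small boxes, there is a chain with a target near the
window (helper72's `BxE`) and the sizes of the numbers. `ExwB`: the exactness on the own windows.
`supY_of_supE`: these two give `SupY`.
-/

set_option autoImplicit false

namespace Pool.EXC33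

open Finset MvPolynomial
open Pool.Agent.H49.Ent Pool.Agent.H32.Dense Pool.STK Pool.KS3 Pool.STAT Pool.STAT.CLO Pool.MIC6
open Pool.KA Pool.KSAT Pool.PB Pool.GEN Pool.K2S Pool.S6C
open Pool.CHT Pool.STA Pool.PKG
open Pool.TOP (TopS)
open Pool.STR (NumI Rle)
open Pool.RTS (iso)
open Pool.OWN72 (HasA HasB RepX ClA NrD RecExa RecExh BxE img)

variable {n : ℕ} {hn : 2 ≤ n} {S : PCl n} {P : ℝ → ℝ → ℝ} {rr : ℝ → ℝ}
  {P' : ℕ → List (Fin n) × Fin n → ℝ → ℝ → ℝ} {Λ : Finset (Fin n) → Fin n → ℝ → ℝ → ℝ}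
  {PB : ℕ → List (Fin n) × Fin n → ℝ → ℝ → ℝ}
  (H : PkT hn S P rr P' Λ PB) {hTop : TopS n} {hF : FZX (n - 1)}
  {ρ' : ℝ → ℝ} {hρ : Rle rr ρ'}

/-- **The sizes of the numbers of a box**: `E` is the natural exponent of the charts, `E'` the
exponent of the labels of the target. -/
structure SizE (Dn : ℕ → ℕ → ℝ) (n₀ M : ℕ) (g ζ co E E' : ℝ) : Prop where
  E0 : 0 ≤ E
  g0 : co ≤ g
  fst : ∀ j ≤ M, Dn j 0 = g + j * ζ
  low : ∀ j ≤ M, ∀ l, 1 ≤ l → l < n₀ + 1 → g + j * ζ + co ≤ Dn j l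
  mon : ∀ j ≤ M, ∀ k l, k < l → l < n₀ → Dn j k ≤ Dn j l
  siz : ∀ j ≤ M, ∀ l < n₀ + 1, Dn j l + E + co ≤ 1
  gap : ∀ j ≤ M, E' ≤ E + max 0 (Dn j (n₀ - 1) - Dn j n₀)

/-- **Chains with a target at the small boxes** of a family, in subclasses. -/
def SupE (p : ((H.nk hTop hF).chg hρ H.up).Par) (I : ℝ → BS p.cell → Prop) (al : ℝ)
    (g₀ : ℝ → ℝ) (be co : ℝ) : Prop :=
  ∀ K₂ δ₂ : ℝ, 0 < K₂ → 0 < δ₂ → ∀ N M : ℕ, 1 ≤ N → EvP I fun q =>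
    ∀ S' : PCl n, S'.Ne →
      (∀ (τ : ℝ) (J : ℕ) (F : Fam n J) (A : F.Ω → Prop), S'.St τ J F A → S.St τ J F A) →
    ∃ (S₁ : PCl n) (C₀ : ℝ) (L : Finset (Fin n) → Fin n → ℝ → ℝ → ℝ) (Na : ℚ → ℚ → ℝ)
      (E E' : ℝ) (Wd : Set ℝ) (g R d DT sT : ℝ) (Dg sl : ℕ → ℝ),
      S₁.Ne ∧ (∀ (τ : ℝ) (J : ℕ) (F : Fam n J) (A : F.Ω → Prop), S₁.St τ J F A → S'.St τ J F A) ∧
      0 ≤ C₀ ∧ TmC S₁ C₀ ∧ LamW S₁ L ∧ ActM Na al g₀ ∧
      ActB Na S₁ ((kitN H p 1).kit.cs q 0) ∧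
      (∀ w : ℝ, 0 ≤ w → w < 1 → L ∅ ((kitN H p 1).kit.cs q 0) w 0 ≤ w) ∧
      BxE S₁ L ((kitN H p 1).kit.cs q) (n - 1) Wd g R d be co DT sT E' Dg sl M q.g
        (msh q.r N M) (dnN H p N M q) ∧ 0 ≤ d ∧ d ≤ δ₂ * msh q.r N M ∧ g + q.r ≤ q.g ∧
      q.g + K₂ * q.r ≤ g + R ∧
      SizE (dnN H p N M q) (n - 1) M q.g (msh q.r N M) co E E'

/-- **Exactness on the own windows** of the small boxes of a family. -/
def ExwB (p : ((H.nk hTop hF).chg hρ H.up).Par) (I : ℝ → BS p.cell → Prop) : Prop :=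
  ∀ δ : ℝ, 0 < δ → ∀ N M : ℕ, 1 ≤ N → EvP I fun q => ∀ j ≤ M, Bas S fun J F A =>
    ExW F A (fun l : Fin (n - 1) => (kitN H p 1).kit.cs q l)
      (up q.g J + j * up (msh q.r N M) J)
      ((∑ l ∈ range (n - 1), ((J : ℝ) - (⌊dnN H p N M q j l * J⌋₊ : ℕ))) * Real.log 2 -
        δ * up (msh q.r N M) J)

/-- **The facts of the small boxes**, from the chains. -/
theorem supY_of_supE {p : ((H.nk hTop hF).chg hρ H.up).Par} {I : ℝ → BS p.cell → Prop}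
    (hI : MonoI I) {c β h' Mr : ℝ} (hbs : ∀ ε q, I ε q → IsBS p.cell c β h' Mr ε q) {al : ℝ}
    {g₀ : ℝ → ℝ} {be co : ℝ} (hbe : 0 < be) (hco : 0 < co) (hE : SupE H p I al g₀ be co)
    (hX : ExwB H p I) : SupY H p I al g₀ be co := by
  intro K₁ δ hK₁ hδ N M hN
  obtain ⟨K₂, δ₂, x₀, hK₂, hδ₂, hx₀, hbox⟩ := box_ed (n - 1) M (by omega) K₁ hbe hco hδ
  have key := ((hE K₂ δ₂ hK₂ hδ₂ N M hN).and hI (hX δ hδ N M hN)).and hI
    (EvP.self I hx₀)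
  refine key.mono ?_
  rintro q ⟨⟨h1, h2⟩, h3⟩ S' hne hsub
  have hq := hbs _ _ h3
  have hr := hq.r0
  obtain ⟨S₁, C₀, L, Na, E, E', Wd, g, R, d, DT, sT, Dg, sl, a1, a2, a3, a4, a5, a6, a7, a8, a9,
    b1, b2, b3, b4, b5⟩ := h1 S' hne hsub
  obtain ⟨c1, c2, c3, c4⟩ := hbox (m := n) a4 a5 hN hr hq.rε a9 b1 b2 b3 b4
  refine ⟨S₁, C₀, L, Na, E, a1, a2, a3, a4, a5, a6, a7, a8, ?_⟩
  exact ⟨b5.E0, rfl, b5.g0, b5.fst, b5.low, b5.mon, b5.siz,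
    fun j hj => (h2 j hj).sub fun τ J F A hA => hsub τ J F A (a2 τ J F A hA), c1,
    fun j hj => c2 j hj _ (b5.gap j hj), c3, c4⟩

/-- **`ZmIp` from the chains at the boxes**, at most four coordinates. -/
theorem zmIp_supE (hn4 : n ≤ 4) {p : ((H.nk hTop hF).chg hρ H.up).Par}
    {I : ℝ → BS p.cell → Prop} (hI : MonoI I) {c β h' Mr : ℝ}
    (hbs : ∀ ε q, I ε q → IsBS p.cell c β h' Mr ε q) (hFk : ∀ k ≤ n - 1, FZX k) {al : ℝ}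
    {g₀ : ℝ → ℝ} (hal : 0 < al) (hg₀ : ∀ e, 0 < e → 0 < g₀ e) {be co : ℝ} (hbe : 0 < be)
    (hbe1 : be ≤ 1) (hco : 0 < co) (hE : SupE H p I al g₀ be co) (hX : ExwB H p I) :
    ZmIp H p I :=
  zmIp_supY H hn4 hI hbs hFk hal hg₀ hbe hbe1 hco (supY_of_supE H hI hbs hbe hco hE hX)

/-- **`ZmI` from the chains at the boxes**, at most four coordinates. -/
theorem zmI_supE (hn4 : n ≤ 4) {p : ((H.nk hTop hF).chg hρ H.up).Par}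
    {I : ℝ → BS p.cell → Prop} (hI : MonoI I) {c β h' Mr : ℝ}
    (hbs : ∀ ε q, I ε q → IsBS p.cell c β h' Mr ε q) (hFk : ∀ k ≤ n - 1, FZX k) {al : ℝ}
    {g₀ : ℝ → ℝ} (hal : 0 < al) (hg₀ : ∀ e, 0 < e → 0 < g₀ e) {be co : ℝ} (hbe : 0 < be)
    (hbe1 : be ≤ 1) (hco : 0 < co) (hE : SupE H p I al g₀ be co) (hX : ExwB H p I) :
    ZmI H p I :=
  zmI_supY H hn4 hI hbs hFk hal hg₀ hbe hbe1 hco (supY_of_supE H hI hbs hbe hco hE hX)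

end Pool.EXC33
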