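import Pool.Agent.H33.EXC.Zrk
import Pool.Agent.H72.OWN.Rxh

/-!
# `ZmCp` at a box and `ZmIp`

`rexS_of`: `RexS` from `RecExh`. `zmp_box`: `ZmCe` (all places, explicit bound) from `BoxZ` and
`RecExh`. `zmIe_of_sup`: the class form; `zmIp_of_sup`: `ZmIp`.
-/

set_option autoImplicit false

namespace Pool.EXC33

open Finset MvPolynomial
open Pool.Agent.H49.Ent Pool.Agent.H32.Dense Pool.STK Pool.KS3 Pool.STAT Pool.STAT.CLO Pool.MIC6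
open Pool.KA Pool.KSAT Pool.PB Pool.GEN Pool.K2S Pool.S6C
open Pool.CHT Pool.STA Pool.PKG
open Pool.TOP (TopS)
open Pool.STR (NumI Rle)
open Pool.RTS (iso)
open Pool.REX (Vz)
open Pool.OWN72 (HasA HasB RepX ClA NrD RecExh img hrc)
open Pool.JVE (cI)

section box

variable {m n₀ : ℕ} {Θ : Type*}

/-- **`RexS` from `RecExh`.** -/
theorem rexS_of (hR : RecExh m n₀) {al : ℝ} {g₀ : ℝ → ℝ} (hal : 0 < al)
    (hg₀ : ∀ e, 0 < e → 0 < g₀ e) {be co θ : ℝ} (hbe : 0 < be) (hco : 0 < co) (hθ : 0 < θ) :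
    ∃ K r₀ : ℝ, 0 < K ∧ 0 < r₀ ∧
    ∀ {S : PCl m} {C₀ : ℝ} {L : Finset (Fin m) → Fin m → ℝ → ℝ → ℝ} {Na : ℚ → ℚ → ℝ}
      {c : ℕ → Fin m} {Wd : Set ℝ} {g R d : ℝ} {Dg sl : ℕ → ℝ}, 0 ≤ C₀ → TmC S C₀ →
      (∀ (τ : ℝ) (J : ℕ) (F : Fam m J) (A : F.Ω → Prop), S.St τ J F A → 0 < Pe F.p A) →
      LamW S L → (∀ k ≤ n₀, FZX k) → ActM Na al g₀ → ActB Na S (c 0) → 0 ≤ d →
      NrD S L c n₀ Wd g R d be co Dg sl →
    ∀ {b₀ b₁ P₀ η h : ℝ}, g + η ≤ b₀ → b₁ + K * (P₀ + η) ≤ g + R → 0 ≤ P₀ → 0 < η →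
      P₀ + η ≤ r₀ → θ * (P₀ + η) ≤ η → K * d ≤ η → K * h ≤ η → RexS S L c n₀ b₀ b₁ P₀ η h := by
  obtain ⟨K, r₀, hK, hr₀, key⟩ := hR al g₀ hal hg₀ be co θ hbe hco hθ
  refine ⟨K, r₀, hK, hr₀, ?_⟩
  intro S C₀ L Na c Wd g R d Dg sl hC₀ htm hpos hL hF hM hB hd hN b₀ b₁ P₀ η h h1 h2 h3 h4 h5 h6
    h7 h8 S₁ hne₁ hsub₁ v hv hv' hbits
  obtain ⟨S₂, hne₂, hsub₂, hex⟩ := key S₁ C₀ L Na c Wd g R d Dg sl hne₁ hC₀
    (fun τ J F A hτ h => htm τ J F A hτ (hsub₁ τ J F A h))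
    (fun τ J F A h => hpos τ J F A (hsub₁ τ J F A h)) (hL.sub hsub₁) hF hM
    (fun q q' a1 a2 a3 h hh => (hB q q' a1 a2 a3 h hh).sub hsub₁) hd (hN.subc hsub₁) Unit
    (fun _ => v) (fun _ => P₀) (fun _ => η) (fun _ => h)
    (fun _ => ⟨by linarith, h3, h4, by linarith, h5, h6, h7⟩) (fun _ => h8) (fun _ => hbits)
  refine ⟨S₂, hne₂, hsub₂, fun ρ hρ => Bas.mono 0 (hex () ρ hρ) ?_⟩
  intro J _ F A h9
  rw [Fin.sum_univ_eq_sum_range (fun l => 1 - L (img c l) (c l) v.b 0 - P₀) n₀] at h9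
  exact h9

theorem ZmCe.mono {Kt : KitP m Θ n₀} {S : PCl m} {K' s₁ : ℕ} {sh : ℕ → ℕ} {N M : ℕ} {θ : ℝ}
    {p : Θ} {ka ka' ξ : ℝ} (h : ZmCe Kt S K' s₁ sh N M θ p ka ξ) (hk : ka ≤ ka')
    (hX : 0 ≤ msh (Kt.X p) N M) : ZmCe Kt S K' s₁ sh N M θ p ka' ξ := by
  intro b e hb i hi j hj S' hne hsub d hd wp h1 h2 q h3 h4 V z z' hz
  obtain ⟨S'', k1, k2, k3⟩ := h b e hb i hi j hj S' hne hsub d hd wp h1 h2 q h3 h4 V z z' hz
  refine ⟨S'', k1, k2, fun ρ hρ => Bas.mono 0 (k3 ρ hρ) fun J _ F A h4 => le_trans ?_ h4⟩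
  have h5 : ka * msh (Kt.X p) N M ≤ ka' * msh (Kt.X p) N M := mul_le_mul_of_nonneg_right hk hX
  have h6 : 0 ≤ Real.log 2 := (Real.log_pos one_lt_two).le
  refine mul_le_mul_of_nonneg_right (mul_le_mul_of_nonneg_right ?_ h6) (Nat.cast_nonneg J)
  linarith

/-- **`ZmCp` at a box**, with an explicit bound, from the exactness behind records. -/
theorem zmp_box (m n₀ K K' s₁ : ℕ) (sh : ℕ → ℕ) (hn1 : 1 ≤ n₀) (hK1 : 1 ≤ K) (hK' : 1 ≤ K')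
    (hR : RecExh m n₀) {al : ℝ} {g₀ : ℝ → ℝ} (hal : 0 < al) (hg₀ : ∀ e, 0 < e → 0 < g₀ e)
    {be co : ℝ} (hbe : 0 < be) (hbe1 : be ≤ 1) (hco : 0 < co) (N M : ℕ) (hN : 1 ≤ N) {ka : ℝ}
    (hka : 0 < ka) :
    ∃ K₁ δ θ₀ X₀ : ℝ, 0 < K₁ ∧ 0 < δ ∧ 0 < θ₀ ∧ 0 < X₀ ∧
    ∀ {Θ : Type*} {Kt : KitP m Θ n₀} {S : PCl m} {C₀ : ℝ}
    {L : Finset (Fin m) → Fin m → ℝ → ℝ → ℝ} {Na : ℚ → ℚ → ℝ} {θ : ℝ} {p : Θ}
    {Dn : ℕ → ℕ → ℝ} {E : ℝ}, Kt.K = K → TmH S → 0 ≤ C₀ → TmC S C₀ → LamW S L →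
    (∀ k ≤ n₀, FZX k) → ActM Na al g₀ → ActB Na S (Kt.cs p 0) →
    (∀ w : ℝ, 0 ≤ w → w < 1 → L ∅ (Kt.cs p 0) w 0 ≤ w) →
    NumZ Kt N M θ p Dn → BoxZ Kt S L N M p Dn be co K₁ δ E → 0 ≤ θ → θ ≤ θ₀ → Kt.X p ≤ X₀ →
    ZmCe Kt S K' s₁ sh N M θ p ka (be * min ka 1 / (16 * (n₀ + 1)) * msh (Kt.X p) N M) := by
  obtain ⟨k, hk⟩ : ∃ k, k = min ka 1 := ⟨_, rfl⟩
  have hk0 : 0 < k := by rw [hk]; exact lt_min hka one_pos
  have hk1 : k ≤ 1 := by rw [hk]; exact min_le_right _ _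
  have hkk : k ≤ ka := by rw [hk]; exact min_le_left _ _
  have hn0 : (0 : ℝ) ≤ n₀ := Nat.cast_nonneg n₀
  have hM0 : (0 : ℝ) ≤ M := Nat.cast_nonneg M
  have hNr : (1 : ℝ) ≤ N := by exact_mod_cast hN
  have hl2 : 0 < Real.log 2 := Real.log_pos one_lt_two
  obtain ⟨C, hC, hplace⟩ := zmq_place n₀ K K' s₁ sh hK1 hK'
  obtain ⟨θR, hθR⟩ : ∃ θR : ℝ, θR = k / (16 * (N * (M + 4))) := ⟨_, rfl⟩
  have hNM : 0 < (N : ℝ) * (M + 4) := by positivity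
  have hθR0 : 0 < θR := by rw [hθR]; positivity
  obtain ⟨K₀, r₀, hK₀, hr₀, hrex⟩ := rexS_of hR hal hg₀ hbe hco hθR0
  obtain ⟨xr, hxr⟩ : ∃ xr : ℝ, xr = be * k / (64 * (n₀ + 1)) := ⟨_, rfl⟩
  have hxr0 : 0 < xr := by rw [hxr]; positivity
  have hbk : be * k ≤ 1 := by
    have : be * k ≤ 1 * 1 := mul_le_mul hbe1 hk1 hk0.le one_pos.le
    linarith
  have hxr1 : xr ≤ 1 / 16 := by
    rw [hxr, div_le_div_iff₀ (by positivity) (by norm_num)]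
    linarith
  obtain ⟨hr, hhr⟩ : ∃ hr : ℝ, hr = min (k * Real.log 2 / 4) (k / (4 * K₀)) := ⟨_, rfl⟩
  have hhr0 : 0 < hr := by rw [hhr]; exact lt_min (by positivity) (by positivity)
  have hhr1 : hr ≤ k * Real.log 2 / 4 := by rw [hhr]; exact min_le_left _ _
  have hhr2 : K₀ * hr ≤ k / 4 := by
    have h1 : hr ≤ k / (4 * K₀) := by rw [hhr]; exact min_le_right _ _
    rw [le_div_iff₀ (by positivity)] at h1
    linarith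
  obtain ⟨ε, hε, hpre⟩ := box_pre n₀ K K' s₁ sh hn1 hC hhr0 hxr0 hxr1 hco M
  obtain ⟨κ₀, hκ₀, hκ₀1, hpl⟩ := hplace ε hε
  obtain ⟨κ, δ₁, θ₀, y, hκ0, hκκ, hδ₁, hθ₀, hbox⟩ := hpre κ₀ hκ₀
  obtain ⟨δ, hδ⟩ : ∃ δ, δ = min δ₁ (min (be * k / (32 * (n₀ + 1))) (k / (4 * K₀))) := ⟨_, rfl⟩
  have hδ0 : 0 < δ := by
    rw [hδ]
    exact lt_min hδ₁ (lt_min (by positivity) (by positivity))
  have hδ1 : δ ≤ δ₁ := by rw [hδ]; exact min_le_left _ _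
  have hδ2 : δ ≤ be * k / (32 * (n₀ + 1)) := by
    rw [hδ]
    exact (min_le_right _ _).trans (min_le_left _ _)
  have hδ3 : K₀ * δ ≤ k / 4 := by
    have h1 : δ ≤ k / (4 * K₀) := by
      rw [hδ]
      exact (min_le_right _ _).trans (min_le_right _ _)
    rw [le_div_iff₀ (by positivity)] at h1
    linarith
  refine ⟨4 * K₀ + 4, δ, θ₀, min (min (co / 16) (1 / 16)) (r₀ / 4), by positivity, hδ0, hθ₀,
    lt_min (lt_min (by linarith) (by norm_num)) (by linarith), ?_⟩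
  intro Θ Kt S C₀ L Na θ p Dn E hKK htmh hC₀ htmc hL hF hM hBq hact hz hB hθ0 hθθ hX
  have hX1 : Kt.X p ≤ co / 16 := hX.trans ((min_le_left _ _).trans (min_le_left _ _))
  have hX2 : Kt.X p ≤ 1 / 16 := hX.trans ((min_le_left _ _).trans (min_le_right _ _))
  have hX3 : 4 * Kt.X p ≤ r₀ := by
    have := hX.trans (min_le_right _ _)
    linarith
  have hζ0 := hz.msh_pos
  have hXζ : (N : ℝ) * ((M + 4) * msh (Kt.X p) N M) = Kt.X p := msh_mul hN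
  have hactF : Pool.MIC6.ActF S (Kt.cs p 0) := by
    obtain ⟨Wd, g, R, d, Dg, sl, hN, -⟩ := hB.nrd
    exact hN.aff.act
  obtain ⟨hP, hh, hH⟩ := hbox hKK htmh htmc hactF hz hB hδ0.le hδ1 hθ0 hθθ hX1 hX2
  have hξe : be * min ka 1 / (16 * (n₀ + 1)) * msh (Kt.X p) N M =
      4 * (xr * msh (Kt.X p) N M) := by
    rw [hxr, ← hk]
    field_simp
    ring
  rw [hξe]
  refine ZmCe.mono (ka := k) ?_ hkk hζ0.le
  intro b e hnear i hi j hj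
  obtain ⟨Wd, g, R, d, Dg, sl, σ, hN, hd0, a1, a2, a3, a4, a5, a6, a7, a8, a9⟩ :=
    box_num hL hz hbe hbe1 hk0 hk1 hxr hK₀ le_rfl hδ0.le hδ2 hδ3 hX1 hact hB hi hj
  have hη0 : 0 < k * msh (Kt.X p) N M / 4 := by positivity
  have hrz := hrex hC₀ htmc htmh.1 hL hF hM hBq hd0 hN (b₀ := (Kt.y p).1 + j * msh (Kt.X p) N M)
    (b₁ := (Kt.y p).1 + j * msh (Kt.X p) N M + 4 * (xr * msh (Kt.X p) N M))
    (P₀ := (Kt.y p).2 + i * msh (Kt.X p) N M - j * msh (Kt.X p) N M +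
      8 * (xr * msh (Kt.X p) N M)) (η := k * msh (Kt.X p) N M / 4)
    (h := hr * msh (Kt.X p) N M) a1 a2 a8 hη0 (a7.trans hX3) (by
      have h1 := mul_le_mul_of_nonneg_left a7 hθR0.le
      have e0 : θR * (16 * (N * (M + 4))) = k := by
        rw [hθR]
        exact div_mul_cancel₀ k (by positivity)
      have e1 : 4 * Kt.X p = 4 * (N * ((M + 4) * msh (Kt.X p) N M)) := by rw [hXζ]
      have e2 : θR * (4 * (N * ((M + 4) * msh (Kt.X p) N M))) =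
        θR * (16 * (N * (M + 4))) * msh (Kt.X p) N M / 4 := by ring
      have h2 : θR * (4 * Kt.X p) = k * msh (Kt.X p) N M / 4 := by
        rw [e1, e2, e0]
      linarith) a3 (by
      have h1 := mul_le_mul_of_nonneg_right hhr2 hζ0.le
      have e1 : K₀ * (hr * msh (Kt.X p) N M) = K₀ * hr * msh (Kt.X p) N M := by ring
      rw [e1]
      linarith)
  have e1 : hr * msh (Kt.X p) N M / Real.log 2 ≤ k * msh (Kt.X p) N M / 4 := by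
    rw [div_le_iff₀ hl2]
    have := mul_le_mul_of_nonneg_right hhr1 hζ0.le
    linarith
  exact hpl κ hκ0 hκκ hKK hP hnear hi hj hh (by linarith [mul_pos hxr0 hζ0]) a6 (by
    have e2 : (Kt.y p).2 + i * msh (Kt.X p) N M - j * msh (Kt.X p) N M +
      8 * (xr * msh (Kt.X p) N M) - ((Kt.y p).2 + i * msh (Kt.X p) N M -
        j * msh (Kt.X p) N M) = 8 * (xr * msh (Kt.X p) N M) := by ring
    rw [e2]
    linarith) (hH b e i hi j hj) hrz a4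

end box

section cls

variable {n : ℕ} {hn : 2 ≤ n} {S : PCl n} {P : ℝ → ℝ → ℝ} {rr : ℝ → ℝ}
  {P' : ℕ → List (Fin n) × Fin n → ℝ → ℝ → ℝ} {Λ : Finset (Fin n) → Fin n → ℝ → ℝ → ℝ}
  {PB : ℕ → List (Fin n) × Fin n → ℝ → ℝ → ℝ}
  (H : PkT hn S P rr P' Λ PB) {hTop : TopS n} {hF : FZX (n - 1)}
  {ρ' : ℝ → ℝ} {hρ : Rle rr ρ'}

/-- **`ZmCe` on the small boxes**, from the facts of the boxes. -/
theorem zmIe_of_sup {p : ((H.nk hTop hF).chg hρ H.up).Par} {I : ℝ → BS p.cell → Prop}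
    (hI : MonoI I) {c β h' Mr : ℝ} (hbs : ∀ ε q, I ε q → IsBS p.cell c β h' Mr ε q)
    (hR : RecExh n (n - 1)) (hFk : ∀ k ≤ n - 1, FZX k) {al : ℝ} {g₀ : ℝ → ℝ} (hal : 0 < al)
    (hg₀ : ∀ e, 0 < e → 0 < g₀ e) {be co : ℝ} (hbe : 0 < be) (hbe1 : be ≤ 1) (hco : 0 < co)
    (hs : SupZ H p I al g₀ be co) (K K' s₁ : ℕ) (sh : ℕ → ℕ) (hK : 1 ≤ K) (hK' : 1 ≤ K')
    {ka : ℝ} (hka : 0 < ka) (M : ℕ) :
    EvQ I fun N θ q => ZmCe (kitN H p K).kit S K' s₁ sh N M θ q ka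
      (be * min ka 1 / (16 * ((n - 1 : ℕ) + 1)) * msh q.r N M) := by
  refine ⟨1, fun N hN => ?_⟩
  obtain ⟨K₁, δ, θ₀, X₀, hK₁, hδ, hθ₀, hX₀, hbox⟩ := zmp_box n (n - 1) K K' s₁ sh (by omega) hK
    hK' hR hal hg₀ hbe hbe1 hco N M hN hka
  refine ⟨θ₀, hθ₀, fun θ hθ hθθ => ?_⟩
  have key := (hs K₁ δ hK₁ hδ N M hN).and hI
    (EvP.self I (show 0 < min X₀ (co / 2) from lt_min hX₀ (by linarith)))
  refine key.mono ?_
  rintro q ⟨h1, h2⟩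
  have hq := hbs _ _ h2
  have hr1 : q.r ≤ X₀ := hq.rε.trans (min_le_left _ _)
  have hr2 : q.r ≤ co / 2 := hq.rε.trans (min_le_right _ _)
  refine zmCe_of_sub fun S' hne hsub => ?_
  obtain ⟨S₁, C₀, L, Na, E, a1, a2, a3, a4, a5, a6, a7, a8, a9⟩ := h1 S' hne hsub
  refine ⟨S₁, a1, a2, ?_⟩
  have hE0 := a9.E0
  exact hbox (Kt := (kitN H p K).kit) rfl
    (H.tmh.sub fun τ J F A hA => hsub τ J F A (a2 τ J F A hA)) a3 a4 a5 hFk a6 a7 a8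
    (numZ_kitN H hq K hN fun j hj l hl => by
      have := a9.siz j hj l hl
      linarith) (boxZ_kitN H K a9) hθ.le hθθ hr1

/-- **`ZmIp` from the facts of the boxes.** -/
theorem zmIp_of_sup {p : ((H.nk hTop hF).chg hρ H.up).Par} {I : ℝ → BS p.cell → Prop}
    (hI : MonoI I) {c β h' Mr : ℝ} (hbs : ∀ ε q, I ε q → IsBS p.cell c β h' Mr ε q)
    (hR : RecExh n (n - 1)) (hFk : ∀ k ≤ n - 1, FZX k) {al : ℝ} {g₀ : ℝ → ℝ} (hal : 0 < al)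
    (hg₀ : ∀ e, 0 < e → 0 < g₀ e) {be co : ℝ} (hbe : 0 < be) (hbe1 : be ≤ 1) (hco : 0 < co)
    (hs : SupZ H p I al g₀ be co) : ZmIp H p I := by
  intro K K' s₁ sh hK hK' ka hka M
  have key := (zmIe_of_sup H hI hbs hR hFk hal hg₀ hbe hbe1 hco hs K K' s₁ sh hK hK' hka M).and hI
    (EvQ.self I 1 (θ₀ := 1) one_pos (ε := fun N _ => 1) (fun N _ _ => one_pos))
  refine key.mono ?_
  rintro N θ q ⟨h1, hN, -, -, h2⟩
  refine h1.zmcp ?_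
  have hr := (hbs _ _ h2).r0
  have hNr : (1 : ℝ) ≤ N := by exact_mod_cast hN
  have hm : 0 < msh q.r N M := by
    unfold msh
    positivity
  have hk : 0 < min ka 1 := lt_min hka one_pos
  positivity

/-- **`ZmIp` from the facts of the boxes**, at most four coordinates. -/
theorem zmIp_sup (hn4 : n ≤ 4) {p : ((H.nk hTop hF).chg hρ H.up).Par}
    {I : ℝ → BS p.cell → Prop} (hI : MonoI I) {c β h' Mr : ℝ}
    (hbs : ∀ ε q, I ε q → IsBS p.cell c β h' Mr ε q) (hFk : ∀ k ≤ n - 1, FZX k) {al : ℝ}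
    {g₀ : ℝ → ℝ} (hal : 0 < al) (hg₀ : ∀ e, 0 < e → 0 < g₀ e) {be co : ℝ} (hbe : 0 < be)
    (hbe1 : be ≤ 1) (hco : 0 < co) (hs : SupZ H p I al g₀ be co) : ZmIp H p I :=
  zmIp_of_sup H hI hbs (Pool.OWN72.rec_exh n (n - 1) (by omega) (by omega)) hFk hal hg₀ hbe hbe1
    hco hs

/-- **`ZmI` from the facts of the boxes**, at most four coordinates. -/
theorem zmI_sup (hn4 : n ≤ 4) {p : ((H.nk hTop hF).chg hρ H.up).Par}
    {I : ℝ → BS p.cell → Prop} (hI : MonoI I) {c β h' Mr : ℝ}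
    (hbs : ∀ ε q, I ε q → IsBS p.cell c β h' Mr ε q) (hFk : ∀ k ≤ n - 1, FZX k) {al : ℝ}
    {g₀ : ℝ → ℝ} (hal : 0 < al) (hg₀ : ∀ e, 0 < e → 0 < g₀ e) {be co : ℝ} (hbe : 0 < be)
    (hbe1 : be ≤ 1) (hco : 0 < co) (hs : SupZ H p I al g₀ be co) : ZmI H p I :=
  zmI_of_sup H hI hbs (Pool.OWN72.rec_exa n (n - 1) (by omega) (by omega)) hFk hal hg₀ hbe hbe1
    hco hs

end cls

end Pool.EXC33
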