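import Pool.Agent.H33.EXC.Zrd

/-!
# `ZmI` from the facts of the boxes

`zmC_of_sub`: `ZmC` from the subclasses. `numZ_kitN`: the numbers of the kit of a class. `SupZ`:
the facts of the small boxes of a family, in subclasses. `zmI_of_sup`: `ZmI` from `SupZ` and
`RecExa`.
-/

set_option autoImplicit false

namespace Pool.EXC33

open Finset MvPolynomial
open Pool.Agent.H49.Ent Pool.Agent.H32.Dense Pool.STK Pool.KS3 Pool.STAT Pool.STAT.CLO Pool.MIC6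
open Pool.KA Pool.KSAT Pool.PB Pool.GEN Pool.K2S Pool.S6C
open Pool.CHT Pool.STA Pool.PKG
open Pool.TOP (TopS)
open Pool.STR (NumI Rle)
open Pool.RTS (iso)
open Pool.REX (Vz)
open Pool.OWN72 (HasA HasB RepX ClA NrD RecExa img hrc)
open Pool.JVE (cI)

section sub

variable {m n₀ : ℕ} {Θ : Type*}

/-- **`ZmC` from the subclasses.** -/
theorem zmC_of_sub {Kt : KitP m Θ n₀} {S : PCl m} {K' s₁ : ℕ} {sh : ℕ → ℕ} {N M : ℕ} {θ : ℝ}
    {p : Θ} {ka : ℝ} (h : ∀ S' : PCl m, S'.Ne →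
      (∀ (τ : ℝ) (J : ℕ) (F : Fam m J) (A : F.Ω → Prop), S'.St τ J F A → S.St τ J F A) →
      ∃ S₁ : PCl m, S₁.Ne ∧
        (∀ (τ : ℝ) (J : ℕ) (F : Fam m J) (A : F.Ω → Prop), S₁.St τ J F A → S'.St τ J F A) ∧
        ZmC Kt S₁ K' s₁ sh N M θ p ka) : ZmC Kt S K' s₁ sh N M θ p ka := by
  intro b e hb i hi j hj S' hne hsub d hd
  obtain ⟨S₁, hne₁, hsub₁, hz⟩ := h S' hne hsub
  obtain ⟨S'', h1, h2, h3⟩ := hz b e hb i hi j hj S₁ hne₁ (fun _ _ _ _ h => h) d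
    fun τ J F A hA => hd τ J F A (hsub₁ τ J F A hA)
  exact ⟨S'', h1, fun τ J F A hA => hsub₁ τ J F A (h2 τ J F A hA), h3⟩

/-- **`ZmCe` from the subclasses.** -/
theorem zmCe_of_sub {Kt : KitP m Θ n₀} {S : PCl m} {K' s₁ : ℕ} {sh : ℕ → ℕ} {N M : ℕ} {θ : ℝ}
    {p : Θ} {ka ξ : ℝ} (h : ∀ S' : PCl m, S'.Ne →
      (∀ (τ : ℝ) (J : ℕ) (F : Fam m J) (A : F.Ω → Prop), S'.St τ J F A → S.St τ J F A) →
      ∃ S₁ : PCl m, S₁.Ne ∧
        (∀ (τ : ℝ) (J : ℕ) (F : Fam m J) (A : F.Ω → Prop), S₁.St τ J F A → S'.St τ J F A) ∧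
        ZmCe Kt S₁ K' s₁ sh N M θ p ka ξ) : ZmCe Kt S K' s₁ sh N M θ p ka ξ := by
  intro b e hb i hi j hj S' hne hsub d hd wp h1 h2 q h3 h4 V z z' hz
  obtain ⟨S₁, hne₁, hsub₁, hzm⟩ := h S' hne hsub
  obtain ⟨S'', k1, k2, k3⟩ := hzm b e hb i hi j hj S₁ hne₁ (fun _ _ _ _ h => h) d
    (fun τ J F A hA => hd τ J F A (hsub₁ τ J F A hA)) wp h1 h2 q h3 h4 V z z'
    fun τ J F A hA => hz τ J F A (hsub₁ τ J F A hA)
  exact ⟨S'', k1, fun τ J F A hA => hsub₁ τ J F A (k2 τ J F A hA), k3⟩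

/-- Labels with a smaller precision. -/
theorem hasA_le {S : PCl m} {I : Finset (Fin m)} {v : Fin m} {w N N' : ℝ} (h : HasA S I v w N)
    (hN : N' ≤ N) : HasA S I v w N' := by
  intro x hx
  refine Bas.mono 0 (h x hx) fun J _ F A => ?_
  rintro ⟨a, c, h3⟩
  refine ⟨a, c, fun ω hω => ?_, h3.ca, h3.cc⟩
  obtain ⟨a1, a2, a3⟩ := h3.dp ω hω
  refine ⟨a1, a2, a3.trans ?_⟩
  refine one_div_le_one_div_of_le (by positivity) (pow_le_pow_right₀ one_le_two ?_)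
  exact Nat.floor_le_floor (mul_le_mul_of_nonneg_right (by linarith) (Nat.cast_nonneg J))

theorem hasB_le {S : PCl m} {I : Finset (Fin m)} {v : Fin m} {w N N' E : ℝ}
    (h : HasB S I v w N E) (hN : N' ≤ N) : HasB S I v w N' E := by
  intro x hx
  refine Bas.mono 0 (h x hx) fun J _ F A => ?_
  rintro ⟨a, c, h3⟩
  refine ⟨a, c, fun ω hω => ?_, h3.ca, h3.cc⟩
  obtain ⟨a1, a2, a3⟩ := h3.dp ω hω
  refine ⟨a1, a2, a3.trans ?_⟩
  refine one_div_le_one_div_of_le (by positivity) (pow_le_pow_right₀ one_le_two ?_)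
  exact Nat.floor_le_floor (mul_le_mul_of_nonneg_right (by linarith) (Nat.cast_nonneg J))

end sub

section cls

variable {n : ℕ} {hn : 2 ≤ n} {S : PCl n} {P : ℝ → ℝ → ℝ} {rr : ℝ → ℝ}
  {P' : ℕ → List (Fin n) × Fin n → ℝ → ℝ → ℝ} {Λ : Finset (Fin n) → Fin n → ℝ → ℝ → ℝ}
  {PB : ℕ → List (Fin n) × Fin n → ℝ → ℝ → ℝ}
  (H : PkT hn S P rr P' Λ PB) {hTop : TopS n} {hF : FZX (n - 1)}
  {ρ' : ℝ → ℝ} {hρ : Rle rr ρ'}

/-- The levels of the diagonals at the windows of the grid. -/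
noncomputable def dnN (p : ((H.nk hTop hF).chg hρ H.up).Par) (N M : ℕ) (q : BS p.cell)
    (j l : ℕ) : ℝ :=
  (kitN H p 1).Dg q l (q.g + j * msh q.r N M)

/-- **The numbers of the kit of a class.** -/
theorem numZ_kitN {p : ((H.nk hTop hF).chg hρ H.up).Par} {c β h' Mr ε : ℝ} {q : BS p.cell}
    (hq : IsBS p.cell c β h' Mr ε q) (K : ℕ) {N M : ℕ} (hN : 1 ≤ N) {θ : ℝ}
    (hs : ∀ j ≤ M, ∀ l < n - 1 + 1, dnN H p N M q j l + 2 * q.r ≤ 1) :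
    NumZ (kitN H p K).kit N M θ q (dnN H p N M q) := by
  have hr := hq.r0
  have hNr : (1 : ℝ) ≤ N := by exact_mod_cast hN
  have hM0 : (0 : ℝ) ≤ M := Nat.cast_nonneg M
  obtain ⟨ζ, hζ⟩ : ∃ ζ, ζ = msh q.r N M := ⟨_, rfl⟩
  have hXζ : (N : ℝ) * ((M + 4) * ζ) = q.r := by rw [hζ]; exact msh_mul hN
  have hζ0 : 0 < ζ := by
    by_contra hc
    push Not at hc
    have h3 : (N : ℝ) * ((M + 4) * ζ) ≤ 0 :=
      mul_nonpos_of_nonneg_of_nonpos (Nat.cast_nonneg N)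
        (mul_nonpos_of_nonneg_of_nonpos (by positivity) hc)
    linarith
  have hX4 : (M + 4) * ζ ≤ q.r := by
    have : 1 * ((M + 4) * ζ) ≤ N * ((M + 4) * ζ) :=
      mul_le_mul_of_nonneg_right hNr (by positivity)
    linarith
  have hMζ : 0 ≤ (M : ℝ) * ζ := by positivity
  have hg0 := hq.g0
  have hg1 := hq.g1
  refine ⟨?_, hr, le_rfl, hN, ?_, kit_inj H p K q.k, ?_, ?_, ?_⟩
  · show 0 ≤ q.g
    linarith
  · show q.g + M * msh q.r N M < 1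
    rw [← hζ]
    linarith
  · intro i hi j hj l hl
    show min 1 ((kitN H p K).Dg q l (q.g + j * msh q.r N M) +
      (q.g + q.r + i * msh q.r N M - (q.g + j * msh q.r N M))) = dnN H p N M q j l +
        (q.r + i * msh q.r N M - j * msh q.r N M)
    have h1 := hs j hj l hl
    have h2 : (kitN H p K).Dg q l (q.g + j * msh q.r N M) = dnN H p N M q j l := rfl
    rw [h2, ← hζ]
    have h3 : (i : ℝ) * ζ ≤ M * ζ := mul_le_mul_of_nonneg_right (by exact_mod_cast hi) hζ0.le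
    have h4 : 0 ≤ (j : ℝ) * ζ := by positivity
    rw [min_eq_right (by linarith)]
    ring
  · intro J F D A hW
    exact hW
  · intro J F D i j
    exact inferInstanceAs (Subsingleton Unit)

/-- **The facts of the small boxes** of a family, in subclasses; `al`, `g₀` are the numbers of the
active coordinate of the class, `be`, `co` the numbers of the kind. -/
def SupZ (p : ((H.nk hTop hF).chg hρ H.up).Par) (I : ℝ → BS p.cell → Prop) (al : ℝ)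
    (g₀ : ℝ → ℝ) (be co : ℝ) : Prop :=
  ∀ K₁ δ : ℝ, 0 < K₁ → 0 < δ → ∀ N M : ℕ, 1 ≤ N → EvP I fun q =>
    ∀ S' : PCl n, S'.Ne →
      (∀ (τ : ℝ) (J : ℕ) (F : Fam n J) (A : F.Ω → Prop), S'.St τ J F A → S.St τ J F A) →
    ∃ (S₁ : PCl n) (C₀ : ℝ) (L : Finset (Fin n) → Fin n → ℝ → ℝ → ℝ) (Na : ℚ → ℚ → ℝ) (E : ℝ),
      S₁.Ne ∧ (∀ (τ : ℝ) (J : ℕ) (F : Fam n J) (A : F.Ω → Prop), S₁.St τ J F A → S'.St τ J F A) ∧
      0 ≤ C₀ ∧ TmC S₁ C₀ ∧ LamW S₁ L ∧ ActM Na al g₀ ∧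
      ActB Na S₁ ((kitN H p 1).kit.cs q 0) ∧
      (∀ w : ℝ, 0 ≤ w → w < 1 → L ∅ ((kitN H p 1).kit.cs q 0) w 0 ≤ w) ∧
      BoxZ (kitN H p 1).kit S₁ L N M q (dnN H p N M q) be co K₁ δ E

/-- The facts of a box do not depend on the class of the chains. -/
theorem boxZ_kitN {p : ((H.nk hTop hF).chg hρ H.up).Par} {S₁ : PCl n}
    {L : Finset (Fin n) → Fin n → ℝ → ℝ → ℝ} {N M : ℕ} {q : BS p.cell} {Dn : ℕ → ℕ → ℝ}
    {be co K₁ δ E : ℝ} (K : ℕ)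
    (h : BoxZ (kitN H p 1).kit S₁ L N M q Dn be co K₁ δ E) :
    BoxZ (kitN H p K).kit S₁ L N M q Dn be co K₁ δ E :=
  ⟨h.E0, h.y2, h.g0, h.fst, h.low, h.mon, h.siz, h.exw, h.hA, h.hB, h.rep, h.nrd⟩

/-- **`ZmI` from the facts of the boxes.** -/
theorem zmI_of_sup {p : ((H.nk hTop hF).chg hρ H.up).Par} {I : ℝ → BS p.cell → Prop}
    (hI : MonoI I) {c β h' Mr : ℝ} (hbs : ∀ ε q, I ε q → IsBS p.cell c β h' Mr ε q)
    (hR : RecExa n (n - 1)) (hFk : ∀ k ≤ n - 1, FZX k) {al : ℝ} {g₀ : ℝ → ℝ} (hal : 0 < al)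
    (hg₀ : ∀ e, 0 < e → 0 < g₀ e) {be co : ℝ} (hbe : 0 < be) (hbe1 : be ≤ 1) (hco : 0 < co)
    (hs : SupZ H p I al g₀ be co) : ZmI H p I := by
  intro K K' s₁ sh hK hK' ka hka M
  refine ⟨1, fun N hN => ?_⟩
  obtain ⟨K₁, δ, θ₀, X₀, hK₁, hδ, hθ₀, hX₀, hbox⟩ := zmc_box n (n - 1) K K' s₁ sh (by omega) hK
    hK' hR hal hg₀ hbe hbe1 hco N M hN hka
  refine ⟨θ₀, hθ₀, fun θ hθ hθθ => ?_⟩
  have key := (hs K₁ δ hK₁ hδ N M hN).and hI
    (EvP.self I (show 0 < min X₀ (co / 2) from lt_min hX₀ (by linarith)))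
  refine key.mono ?_
  rintro q ⟨h1, h2⟩
  have hq := hbs _ _ h2
  have hr1 : q.r ≤ X₀ := hq.rε.trans (min_le_left _ _)
  have hr2 : q.r ≤ co / 2 := hq.rε.trans (min_le_right _ _)
  refine zmC_of_sub fun S' hne hsub => ?_
  obtain ⟨S₁, C₀, L, Na, E, a1, a2, a3, a4, a5, a6, a7, a8, a9⟩ := h1 S' hne hsub
  refine ⟨S₁, a1, a2, ?_⟩
  have hE0 := a9.E0
  exact hbox (Kt := (kitN H p K).kit) rfl
    (H.tmh.sub fun τ J F A hA => hsub τ J F A (a2 τ J F A hA)) a3 a4 a5 hFk a6 a7 a8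
    (numZ_kitN H hq K hN fun j hj l hl => by
      have := a9.siz j hj l hl
      linarith) (boxZ_kitN H K a9) hθ.le hθθ hr1

end cls

end Pool.EXC33
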