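import Pool.Agent.H33.EXC.Yrd
import Pool.Agent.H33.EXC.Zrk

/-!
# `ZmI` from the facts of the boxes, for targets which are not the last coordinate

`SupY`: the facts of the small boxes of a family, in subclasses. `zmN_of_supY`: `ZmC` for all
numbers of meshes. `zmI_of_supY`: `ZmI` from `SupY` and `RecExa`.
-/

set_option autoImplicit false

namespace Pool.EXC33

open Finset MvPolynomial
open Pool.Agent.H49.Ent Pool.Agent.H32.Dense Pool.STK Pool.KS3 Pool.STAT Pool.STAT.CLO Pool.MIC6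
open Pool.KA Pool.KSAT Pool.PB Pool.GEN Pool.K2S Pool.S6C
open Pool.CHT Pool.STA Pool.PKG
open Pool.TOP (TopS)
open Pool.STR (NumI Rle)
open Pool.RTS (iso)
open Pool.REX (Vz)
open Pool.OWN72 (HasA HasB RepX ClA NrD RecExa img hrc)
open Pool.JVE (cI)

section cls

variable {n : ℕ} {hn : 2 ≤ n} {S : PCl n} {P : ℝ → ℝ → ℝ} {rr : ℝ → ℝ}
  {P' : ℕ → List (Fin n) × Fin n → ℝ → ℝ → ℝ} {Λ : Finset (Fin n) → Fin n → ℝ → ℝ → ℝ}
  {PB : ℕ → List (Fin n) × Fin n → ℝ → ℝ → ℝ}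
  (H : PkT hn S P rr P' Λ PB) {hTop : TopS n} {hF : FZX (n - 1)}
  {ρ' : ℝ → ℝ} {hρ : Rle rr ρ'}

/-- **The facts of the small boxes** of a family, in subclasses; `al`, `g₀` are the numbers of the
active coordinate of the class, `be`, `co` the numbers of the kind. -/
def SupY (p : ((H.nk hTop hF).chg hρ H.up).Par) (I : ℝ → BS p.cell → Prop) (al : ℝ)
    (g₀ : ℝ → ℝ) (be co : ℝ) : Prop :=
  ∀ K₁ δ : ℝ, 0 < K₁ → 0 < δ → ∀ N M : ℕ, 1 ≤ N → EvP I fun q =>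
    ∀ S' : PCl n, S'.Ne →
      (∀ (τ : ℝ) (J : ℕ) (F : Fam n J) (A : F.Ω → Prop), S'.St τ J F A → S.St τ J F A) →
    ∃ (S₁ : PCl n) (C₀ : ℝ) (L : Finset (Fin n) → Fin n → ℝ → ℝ → ℝ) (Na : ℚ → ℚ → ℝ) (E : ℝ),
      S₁.Ne ∧ (∀ (τ : ℝ) (J : ℕ) (F : Fam n J) (A : F.Ω → Prop), S₁.St τ J F A → S'.St τ J F A) ∧
      0 ≤ C₀ ∧ TmC S₁ C₀ ∧ LamW S₁ L ∧ ActM Na al g₀ ∧
      ActB Na S₁ ((kitN H p 1).kit.cs q 0) ∧
      (∀ w : ℝ, 0 ≤ w → w < 1 → L ∅ ((kitN H p 1).kit.cs q 0) w 0 ≤ w) ∧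
      BoxY (kitN H p 1).kit S₁ L N M q (dnN H p N M q) be co K₁ δ E

/-- The facts of a box do not depend on the class of the chains. -/
theorem boxY_kitN {p : ((H.nk hTop hF).chg hρ H.up).Par} {S₁ : PCl n}
    {L : Finset (Fin n) → Fin n → ℝ → ℝ → ℝ} {N M : ℕ} {q : BS p.cell} {Dn : ℕ → ℕ → ℝ}
    {be co K₁ δ E : ℝ} (K : ℕ)
    (h : BoxY (kitN H p 1).kit S₁ L N M q Dn be co K₁ δ E) :
    BoxY (kitN H p K).kit S₁ L N M q Dn be co K₁ δ E :=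
  ⟨h.E0, h.y2, h.g0, h.fst, h.low, h.mon, h.siz, h.exw, h.hA, h.hB, h.rep, h.nrd⟩

/-- **`ZmC` from the facts of the boxes**, for all `N ≥ 1` (the number of meshes does not depend
on the loss). -/
theorem zmN_of_supY {p : ((H.nk hTop hF).chg hρ H.up).Par} {I : ℝ → BS p.cell → Prop}
    (hI : MonoI I) {c β h' Mr : ℝ} (hbs : ∀ ε q, I ε q → IsBS p.cell c β h' Mr ε q)
    (hR : RecExa n (n - 1)) (hFk : ∀ k ≤ n - 1, FZX k) {al : ℝ} {g₀ : ℝ → ℝ} (hal : 0 < al)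
    (hg₀ : ∀ e, 0 < e → 0 < g₀ e) {be co : ℝ} (hbe : 0 < be) (hbe1 : be ≤ 1) (hco : 0 < co)
    (hs : SupY H p I al g₀ be co) (K K' s₁ : ℕ) (sh : ℕ → ℕ) (hK : 1 ≤ K) (hK' : 1 ≤ K')
    (M N : ℕ) (hN : 1 ≤ N) {ka : ℝ} (hka : 0 < ka) :
    ∃ θ₀ : ℝ, 0 < θ₀ ∧ ∀ θ : ℝ, 0 < θ → θ ≤ θ₀ → EvP I fun q =>
      ZmC (kitN H p K).kit S K' s₁ sh N M θ q ka := by
  obtain ⟨K₁, δ, θ₀, X₀, hK₁, hδ, hθ₀, hX₀, hbox⟩ := zmc_boxY n (n - 1) K K' s₁ sh (by omega) hK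
    hK' hR hal hg₀ hbe hbe1 hco N M hN hka
  refine ⟨θ₀, hθ₀, fun θ hθ hθθ => ?_⟩
  have key := (hs K₁ δ hK₁ hδ N M hN).and hI
    (EvP.self I (show 0 < min X₀ (co / 2) from lt_min hX₀ (by linarith)))
  refine key.mono ?_
  rintro q ⟨h1, h2⟩
  have hq := hbs _ _ h2
  have hr1 : q.r ≤ X₀ := hq.rε.trans (min_le_left _ _)
  have hr2 : q.r ≤ co / 2 := hq.rε.trans (min_le_right _ _)
  refine zmC_of_sub fun S' hne hsub => ?_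
  obtain ⟨S₁, C₀, L, Na, E, a1, a2, a3, a4, a5, a6, a7, a8, a9⟩ := h1 S' hne hsub
  refine ⟨S₁, a1, a2, ?_⟩
  have hE0 := a9.E0
  exact hbox (Kt := (kitN H p K).kit) rfl
    (H.tmh.sub fun τ J F A hA => hsub τ J F A (a2 τ J F A hA)) a3 a4 a5 hFk a6 a7 a8
    (numZ_kitN H hq K hN fun j hj l hl => by
      have := a9.siz j hj l hl
      linarith) (boxY_kitN H K a9) hθ.le hθθ hr1

/-- **`ZmI` from the facts of the boxes.** -/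
theorem zmI_of_supY {p : ((H.nk hTop hF).chg hρ H.up).Par} {I : ℝ → BS p.cell → Prop}
    (hI : MonoI I) {c β h' Mr : ℝ} (hbs : ∀ ε q, I ε q → IsBS p.cell c β h' Mr ε q)
    (hR : RecExa n (n - 1)) (hFk : ∀ k ≤ n - 1, FZX k) {al : ℝ} {g₀ : ℝ → ℝ} (hal : 0 < al)
    (hg₀ : ∀ e, 0 < e → 0 < g₀ e) {be co : ℝ} (hbe : 0 < be) (hbe1 : be ≤ 1) (hco : 0 < co)
    (hs : SupY H p I al g₀ be co) : ZmI H p I := by
  intro K K' s₁ sh hK hK' ka hka M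
  exact ⟨1, fun N hN => zmN_of_supY H hI hbs hR hFk hal hg₀ hbe hbe1 hco hs K K' s₁ sh hK hK' M N
    hN hka⟩

end cls

end Pool.EXC33
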