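import Pool.Agent.H33.EXC.Zro
import Pool.Agent.H21.HRC.Hrt
import Pool.Agent.H98.OWN.ChoC
import Pool.Agent.H21.PRV.Prv3

/-!
# The inputs of the places, for targets which are not the last coordinate of the order

`hrcP_ofT`: `HrcP` from `hrcT`. `choW_ofG`: `ChoW` from `cho_gridC`. The number of the target may be
smaller than the numbers of the base.
-/

set_option autoImplicit false

namespace Pool.EXC33

open Finset MvPolynomial
open Pool.Agent.H49.Ent Pool.Agent.H32.Dense Pool.STK Pool.KS3 Pool.STAT Pool.STAT.CLO Pool.MIC6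
open Pool.KA Pool.KSAT Pool.PB Pool.GEN Pool.K2S Pool.S6C
open Pool.STAT.OKI (RefC hts ohg tw)
open Pool.CHT (TmH)
open Pool.OWN72 (HasA HasB RepX ClA img hrcT)
open Pool.JVE (cI)

variable {m : ℕ}

/-- Larger slopes. -/
theorem hasB_exp {S : PCl m} {I : Finset (Fin m)} {v : Fin m} {w N E E' : ℝ}
    (h : HasB S I v w N E) (hE : E ≤ E') (hw : w ≤ 1) : HasB S I v w N E' :=
  Pool.PRV.hasB_low hw fun ε hε => ⟨w, N, E, le_rfl, by linarith, by linarith, h⟩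

/-! ### The code and the heights -/

/-- **`HrcP` from `hrcT`.** -/
theorem hrcP_ofT (n₀ K : ℕ) : ∃ C : ℝ, 1 ≤ C ∧
    ∀ {m : ℕ} {Θ : Type*} {Kt : KitP m Θ n₀} {S : PCl m} {C₀ : ℝ} {K' s₁ : ℕ} {sh : ℕ → ℕ}
    {N M : ℕ} {θ : ℝ} {p : Θ} {b : ℕ → ℕ → ℕ → ℝ} {e : ℕ → ℕ → ℝ} {Dn : ℕ → ℕ → ℝ}
    {y κ ε γ γ₁ E x P₀ : ℝ} {i j : ℕ}, Kt.K = K → TmC S C₀ → NumZ Kt N M θ p Dn →
    Pool.MIC6.ActF S (Kt.cs p 0) → 0 ≤ θ → θ ≤ κ → 0 < ε → 0 < κ → 0 < γ → 0 < γ₁ → 0 < x →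
    0 < y → 0 ≤ E → C * (ε + κ) * msh (Kt.X p) N M ≤ x → C * (ε + κ) * msh (Kt.X p) N M ≤ γ →
    C * y ≤ γ → (Kt.y p).2 + i * msh (Kt.X p) N M - j * msh (Kt.X p) N M + 8 * x ≤ P₀ → P₀ ≤ 1 →
    j ≤ M → (Kt.y p).1 + (j + 1) * msh (Kt.X p) N M + γ₁ ≤ 1 →
    (∀ j' ≤ j, ∀ l, 1 ≤ l → l < n₀ + 1 →
      (Kt.y p).1 + j' * msh (Kt.X p) N M + 2 * x ≤ Dn j' l) →
    (∀ j' ≤ j, Dn j' 0 = (Kt.y p).1 + j' * msh (Kt.X p) N M) →
    (∀ j' ≤ j, ∀ k l, k < l → l < n₀ → Dn j' k ≤ Dn j' l) →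
    (∀ j' ≤ j, ∀ l < n₀ + 1, Dn j' l +
      ((Kt.y p).2 + i * msh (Kt.X p) N M - j * msh (Kt.X p) N M) + E + γ ≤ 1) →
    (∀ j' ≤ j, ∀ l, 1 ≤ l → l < n₀ + 1 →
      RepX S (Kt.cs p 0) (img (Kt.cs p) l) (Kt.cs p l) ((Kt.y p).1 + j' * msh (Kt.X p) N M)
        ((Kt.y p).1 + j * msh (Kt.X p) N M + γ₁) (Dn j' l)
        ((Kt.y p).2 + i * msh (Kt.X p) N M - j * msh (Kt.X p) N M) x) →
    HrcP Kt S K' s₁ sh N M θ p b e Dn (fun _ => E + y) y κ ε i j P₀ := by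
  obtain ⟨C, hC, key⟩ := hrcT (n₀ + 1) K (by omega)
  refine ⟨C, hC, ?_⟩
  intro m Θ Kt S C₀ K' s₁ sh N M θ p b e Dn y κ ε γ γ₁ E x P₀ i j hKK htm hz hact hθ hθκ hε hκ hγ
    hγ₁ hx hy hE hCx hCγ hCy hPP hP₀ hj hwin hlow h0b hmono hsz hrep S₁ hne₁ hsub₁ d R hok h hh
  subst hKK
  have hm := hz.msh_pos
  have hP := hz.tub i hj
  have hP0 : 0 ≤ (Kt.y p).2 + i * msh (Kt.X p) N M - j * msh (Kt.X p) N M := by linarith
  have k1 := key (m := m) (S := S) (C₀ := C₀) (c := Kt.cs p) (ϖ := (Kt.y p).1)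
    (ζ := msh (Kt.X p) N M) (ε := ε) (κ := κ) (x := x) (y := y) (γ := γ) (γ₁ := γ₁)
    (P := (Kt.y p).2 + i * msh (Kt.X p) N M - j * msh (Kt.X p) N M) (P₀ := P₀) (E := E)
    (b := Dn) (j₀ := j) htm hz.inj hact hz.y0 hm hε hκ hγ hγ₁ hP0 hx hy hE hCx hCγ hCy hPP hP₀
    hwin hlow (fun j' hj' => by
      rw [h0b j' hj', sub_self, abs_zero]
      exact hx.le) (fun j' hj' k l h1 h2 => hmono j' hj' k l h1 (by omega)) hsz hrep h hh
  have k2 : Bas S₁ (fun J F A => (Kt.grid K' s₁ sh p N M θ b e).Ok F (d J F) A ∧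
      RokP Kt N M θ p Dn (fun _ => E + y) y κ ε j (d J F) (R J F) A) :=
    ⟨1, one_pos, 0, fun J _ F A hA => hok 1 J F A hA⟩
  refine Bas.mono 0 ((Bas.sub hsub₁ k1).and k2) ?_
  rintro J - F A ⟨a1, ⟨a2, -⟩, a3⟩
  unfold RokP at a3
  have hJ0 : (0 : ℝ) ≤ J := Nat.cast_nonneg J
  exact a1 (d J F) K' s₁ sh (up ((Kt.y p).1 + (Kt.y p).2) J) M (fun i j => ⌊e i j * J⌋₊)
    (fun i j l => ⌊b i j l * J⌋₊) _ _ (R J F).e₀ (R J F).e' (R J F).e'' (R J F).g₀ (R J F).g'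
    (R J F).G₀ (R J F).G' (R J F).H₀ (R J F).H' (R J F).W (R J F).cp (R J F).cs (R J F).Rf hj a2
    a3.bal a3.cho a3.chb (fun j' hj' l hl => by
      obtain ⟨b1, b2⟩ := a3.bal.sd j' (hj'.trans hj) l hl
      have e1 : θ * msh (Kt.X p) N M * J ≤ κ * (msh (Kt.X p) N M * J) := by
        have := mul_le_mul_of_nonneg_right hθκ (mul_nonneg hm.le hJ0)
        linarith
      have e2 : (Dn j' l - θ * msh (Kt.X p) N M) * J =
        Dn j' l * J - θ * msh (Kt.X p) N M * J := by ring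
      have e3 : 0 ≤ κ * (msh (Kt.X p) N M * J) := by positivity
      rw [abs_le]
      constructor <;> linarith) (fun j' hj' l hl => by
      have := a3.num j' hj' l hl
      rwa [mul_assoc] at this) a3.siz a3.sib a3.ref

/-! ### The charts of degree one -/

/-- **`ChoW` from `cho_gridC`**; the numbers have an error `δ`. -/
theorem choW_ofG {S : PCl m} {c : ℕ → Fin m} {n M : ℕ} {ϖ ζ δ δ' E x y : ℝ} {b : ℕ → ℕ → ℝ}
    (hn : 2 ≤ n) (hϖ : 0 ≤ ϖ) (hζ : 0 < ζ) (hwin : ϖ + (M + 1) * ζ ≤ 1) (hδ : 0 ≤ δ)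
    (hδ' : 0 < δ') (hE : 0 ≤ E)
    (hA : ∀ j ≤ M, ∀ l, 1 ≤ l → l + 1 < n → HasA S (img c l) (c l) (ϖ + j * ζ) (b j l - δ))
    (hB : ∀ j ≤ M, HasB S (img c (n - 1)) (c (n - 1)) (ϖ + j * ζ) (b j (n - 1) - δ)
      (E + max 0 (b j (n - 2) - b j (n - 1))))
    (hb0 : ∀ j ≤ M, b j 0 = ϖ + j * ζ)
    (hbw : ∀ j ≤ M, ∀ l, 1 ≤ l → l < n → ϖ + j * ζ + δ + δ' ≤ b j l)
    (hbE : ∀ j ≤ M, ∀ l < n, b j l + E + δ' ≤ 1) (hx : δ < x) (hy : 0 < y) :
    ChoW S c n M ϖ ζ b (fun _ => E + y) y x ((cI m ^ n) ^ (M + 1)) := by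
  obtain ⟨x', hx'⟩ : ∃ x', x' = min (x - δ) y := ⟨_, rfl⟩
  have hx'0 : 0 < x' := by rw [hx']; exact lt_min (by linarith) hy
  have hx'1 : x' ≤ x - δ := by rw [hx']; exact min_le_left _ _
  have hx'2 : x' ≤ y := by rw [hx']; exact min_le_right _ _
  obtain ⟨b', hb'⟩ : ∃ b' : ℕ → ℕ → ℝ, b' = fun j l => if l = 0 then b j l else b j l - δ :=
    ⟨_, rfl⟩
  have b'0 : ∀ j, b' j 0 = b j 0 := fun j => by rw [hb']; exact if_pos rfl
  have b'1 : ∀ j l, 1 ≤ l → b' j l = b j l - δ := fun j l hl => by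
    rw [hb']
    exact if_neg (by omega)
  have hζM : ∀ j : ℕ, 0 ≤ (j : ℝ) * ζ := fun j => by positivity
  have key := Pool.OWN98.cho_gridC (S := S) (c := c) (n := n) (M := M) (ϖ := ϖ) (ζ := ζ)
    (δ := δ') (E := E) (b := b') hn hϖ hζ hwin hδ' hE (fun j hj l h1 h2 => by
      rw [b'1 j l h1]
      exact hA j hj l h1 h2) (fun j hj => by
      rw [b'1 j (n - 1) (by omega)]
      refine hasB_exp (hB j hj) ?_ (by
        have := hζM j
        have h1 : (j : ℝ) * ζ ≤ M * ζ :=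
          mul_le_mul_of_nonneg_right (by exact_mod_cast hj) hζ.le
        linarith)
      refine add_le_add le_rfl (max_le_max le_rfl ?_)
      rcases Nat.eq_zero_or_pos (n - 2) with h0 | h0
      · rw [h0, b'0]
        linarith
      · rw [b'1 j (n - 2) h0]
        linarith) (fun j hj => (b'0 j).trans (hb0 j hj)) (fun j hj l h1 h2 => by
      rw [b'1 j l h1]
      have := hbw j hj l h1 h2
      have := hζM j
      linarith) (fun j hj l h1 h2 => by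
      rw [b'1 j l h1]
      have := hbw j hj l h1 h2
      linarith) (fun j hj l h1 h2 => by
      rw [b'1 j l h1]
      have := hbE j hj l h2
      linarith) (fun j hj => by
      rw [b'1 j (n - 1) (by omega)]
      have h1 := hbE j hj (n - 1) (by omega)
      have h2 := hbE j hj (n - 2) (by omega)
      have h3 : b' j (n - 2) ≤ b j (n - 2) := by
        rcases Nat.eq_zero_or_pos (n - 2) with h0 | h0
        · rw [h0, b'0]
        · rw [b'1 j (n - 2) h0]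
          linarith
      have h4 : max (b' j (n - 2)) (b j (n - 1) - δ) ≤ 1 - E - δ' :=
        max_le (by linarith) (by linarith)
      linarith) hx'0
  refine Bas.mono 0 key ?_
  rintro J - F A ⟨B, g', G', H', h1, h2, h3, h4, h5⟩
  have hJ0 : (0 : ℝ) ≤ J := Nat.cast_nonneg J
  refine ⟨B, fun _ => ⌊(E + x') * J⌋₊, fun _ => ⌊x' * J⌋₊, g', G', H', h1, h2, h3, h4,
    fun j _ => ?_, fun j _ => ?_, fun j hj l hl => ?_⟩
  · refine (Nat.floor_le (by positivity)).trans (mul_le_mul_of_nonneg_right ?_ hJ0)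
    linarith
  · exact (Nat.floor_le (by positivity)).trans (mul_le_mul_of_nonneg_right hx'2 hJ0)
  · have e1 := h5 j hj l hl
    have e2 : |b' j l * J - b j l * J| ≤ δ * J := by
      rcases Nat.eq_zero_or_pos l with h0 | h0
      · rw [h0, b'0, sub_self, abs_zero]
        positivity
      · rw [b'1 j l h0]
        have : (b j l - δ) * J - b j l * J = -(δ * J) := by ring
        rw [this, abs_neg, abs_of_nonneg (by positivity)]
    have e3 := abs_sub_le (g' j l : ℝ) (b' j l * J) (b j l * J)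
    have e4 : x' * J ≤ (x - δ) * J := mul_le_mul_of_nonneg_right hx'1 hJ0
    have e5 : (x - δ) * J = x * J - δ * J := by ring
    linarith

end Pool.EXC33
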