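import Pool.Agent.H78.MIC.GenT
import Pool.Agent.H40.ISO.Exn
import Pool.Agent.H72.OWN.Low

/-!
# Exactness of the base of the cells of a kit, from the subclasses with one datum

`ZmC`: in every nonempty subclass with one datum of the grid there is a nonempty subclass in which
the base is full given the relations of the cell and the time, up to `ka` meshes.
`exc_zoom`: then the base is exact (`ExC`) for all labels of the grid (by `bas_low` of helper72).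
`exn_zoom`, `exs_zoom`: the near digits (`ExN`), the base given the labels at the point (`ExS`).
-/

set_option autoImplicit false

namespace Pool.EXC33

open Finset MvPolynomial
open Pool.Agent.H49.Ent Pool.Agent.H32.Dense Pool.STK Pool.KS3 Pool.STAT Pool.STAT.CLO Pool.MIC6
open Pool.KA Pool.KSAT Pool.PB Pool.GEN Pool.K2S Pool.S6C

variable {Θ : Type*} {I : ℝ → Θ → Prop} {m n₀ : ℕ}

/-- **The base is full in the subclasses with one datum**: in every nonempty subclass with one datum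
of the grid there is a nonempty subclass in which the base is full given the relations of the cell
`(i, j)` and the time, up to `ka` meshes. -/
def ZmC (Kt : KitP m Θ n₀) (S : PCl m) (K' s₁ : ℕ) (sh : ℕ → ℕ) (N M : ℕ) (θ : ℝ) (p : Θ)
    (ka : ℝ) : Prop :=
  ∀ (b : ℕ → ℕ → ℕ → ℝ) (e : ℕ → ℕ → ℝ), Kt.Near p N M θ b e →
    ∀ i ≤ M, ∀ j ≤ M, ∀ S' : PCl m, S'.Ne →
    (∀ (τ : ℝ) (J : ℕ) (F : Fam m J) (A : F.Ω → Prop), S'.St τ J F A → S.St τ J F A) →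
    ∀ d : ∀ (J : ℕ) (F : Fam m J), GDat F,
    (∀ (τ : ℝ) (J : ℕ) (F : Fam m J) (A : F.Ω → Prop), S'.St τ J F A →
      (Kt.grid K' s₁ sh p N M θ b e).Ok F (d J F) A) →
    ∃ S'' : PCl m, S''.Ne ∧ (∀ (τ : ℝ) (J : ℕ) (F : Fam m J) (A : F.Ω → Prop),
      S''.St τ J F A → S'.St τ J F A) ∧ ∀ ρ : ℝ, 0 < ρ → Bas S'' (fun J F A =>
        ((∑ l ∈ range n₀, (1 - Kt.L p l ((Kt.y p).1 + (Kt.y p).2 + i * msh (Kt.X p) N M)
          ((Kt.y p).1 + j * msh (Kt.X p) N M))) - ka * msh (Kt.X p) N M - ρ) *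
            Real.log 2 * J ≤
          CH (Pool.Agent.H49.Ent.cond F.p A True) (fun ω (l : Fin n₀) => F.X J ω (Kt.cs p l))
            (fun ω => (((d J F).cd (n₀ + 1) (Kt.rc p N M θ J F (d J F))).lab2
              (up (Kt.y p).1 J) (up (msh (Kt.X p) N M) J) i j ω, F.T ω)))

theorem ZmC.mono {Kt : KitP m Θ n₀} {S : PCl m} {K' s₁ : ℕ} {sh : ℕ → ℕ} {N M : ℕ} {θ : ℝ}
    {p : Θ} {ka ka' : ℝ} (h : ZmC Kt S K' s₁ sh N M θ p ka) (hk : ka ≤ ka')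
    (hX : 0 ≤ msh (Kt.X p) N M) : ZmC Kt S K' s₁ sh N M θ p ka' := by
  intro b e hb i hi j hj S' hne hsub d hd
  obtain ⟨S'', h1, h2, h3⟩ := h b e hb i hi j hj S' hne hsub d hd
  refine ⟨S'', h1, h2, fun ρ hρ => Bas.mono 0 (h3 ρ hρ) fun J _ F A h4 => le_trans ?_ h4⟩
  have h5 : ka * msh (Kt.X p) N M ≤ ka' * msh (Kt.X p) N M := mul_le_mul_of_nonneg_right hk hX
  have h6 : 0 ≤ Real.log 2 := (Real.log_pos one_lt_two).le
  refine mul_le_mul_of_nonneg_right (mul_le_mul_of_nonneg_right ?_ h6) (Nat.cast_nonneg J)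
  linarith

/-- The data of a grid are a nonempty type. -/
theorem gdat_ne {J : ℕ} (F : Fam m J) : Nonempty (GDat F) :=
  ⟨{ G := fun _ _ _ _ => 0
     H := fun _ _ _ _ => 0
     zL := fun _ _ _ => (0, fun _ _ => 0)
     PL := fun _ _ _ _ => 0
     zS := fun _ _ _ => (0, fun _ _ => 0)
     zS' := fun _ _ _ _ => (0, fun _ _ => 0)
     PS := fun _ _ _ _ => 0 }⟩

/-- **The base at one place, for all data.** -/
theorem exc_place {S : PCl m}
    (hpos : ∀ (τ : ℝ) (J : ℕ) (F : Fam m J) (A : F.Ω → Prop), S.St τ J F A → 0 < Pe F.p A)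
    {Kt : KitP m Θ n₀} {K' s₁ : ℕ} {sh : ℕ → ℕ} {N M : ℕ} {θ : ℝ} {p : Θ} {ka : ℝ}
    (hz : ZmC Kt S K' s₁ sh N M θ p ka) {b : ℕ → ℕ → ℕ → ℝ} {e : ℕ → ℕ → ℝ}
    (hb : Kt.Near p N M θ b e) {i j : ℕ} (hi : i ≤ M) (hj : j ≤ M) {δ : ℝ} (hδ : 0 < δ) :
    Bas S (fun J F A => ∀ D : GDat F, (Kt.grid K' s₁ sh p N M θ b e).Ok F D A →
      ((∑ l ∈ range n₀, (1 - Kt.L p l ((Kt.y p).1 + (Kt.y p).2 + i * msh (Kt.X p) N M)
        ((Kt.y p).1 + j * msh (Kt.X p) N M))) - ka * msh (Kt.X p) N M - δ) *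
          Real.log 2 * J ≤
        CH (Pool.Agent.H49.Ent.cond F.p A True) (fun ω (l : Fin n₀) => F.X J ω (Kt.cs p l))
          (fun ω => ((D.cd (n₀ + 1) (Kt.rc p N M θ J F D)).lab2
            (up (Kt.y p).1 J) (up (msh (Kt.X p) N M) J) i j ω, F.T ω))) := by
  have hl2 : 0 < Real.log 2 := Real.log_pos one_lt_two
  obtain ⟨E, hE⟩ : ∃ E : ℝ, E = (∑ l ∈ range n₀, (1 - Kt.L p l
    ((Kt.y p).1 + (Kt.y p).2 + i * msh (Kt.X p) N M) ((Kt.y p).1 + j * msh (Kt.X p) N M))) -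
      ka * msh (Kt.X p) N M := ⟨_, rfl⟩
  rw [← hE]
  have hlow := Pool.OWN72.bas_low (S := S) hpos (Δ := fun J F => GDat F)
    (hΔ := fun J F => gdat_ne F)
    (fun J F D A => (Kt.grid K' s₁ sh p N M θ b e).Ok F D A)
    (fun J F D A B h hB => RW.Ok.sub h hB)
    (β := fun _ _ _ => Fin n₀ → ℤ)
    (γ := fun J F D => (((i' j' : ℕ) → Option ((D.cd (n₀ + 1) (Kt.rc p N M θ J F D)).V i' j')) ×
      ℕ) × ℕ)
    (fun J F D ω (l : Fin n₀) => F.X J ω (Kt.cs p l))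
    (fun J F D ω => ((D.cd (n₀ + 1) (Kt.rc p N M θ J F D)).lab2
            (up (Kt.y p).1 J) (up (msh (Kt.X p) N M) J) i j ω, F.T ω))
    (fun J _ _ => E * Real.log 2 * J)
    (C := |E * Real.log 2|) (δ := δ * Real.log 2)
    (fun J F d => mul_le_mul_of_nonneg_right (le_abs_self _) (Nat.cast_nonneg J))
    (mul_pos hδ hl2) ?_
  · refine Bas.mono 0 hlow fun J _ F A h D hD => ?_
    refine le_trans (le_of_eq ?_) (h D hD)
    ring
  · intro S' hne hsub d hd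
    obtain ⟨S'', hne'', hsub'', hZ⟩ := hz b e hb i hi j hj S' hne hsub d hd
    refine ⟨S'', hne'', hsub'', ?_⟩
    refine Bas.mono 0 (hZ (δ / 4) (by positivity)) fun J _ F A hA => ?_
    refine le_trans (le_of_eq ?_) hA
    rw [← hE]
    ring

/-- The digits behind a side, from the level. -/
theorem side_le {J s : ℕ} {b L x : ℝ} (h : L - x ≤ b) :
    (J : ℝ) - (⌊b * J⌋₊ - s : ℕ) ≤ (1 - L) * J + x * J + 1 + s := by
  have h1 : (⌊b * J⌋₊ : ℝ) ≤ (⌊b * J⌋₊ - s : ℕ) + s := by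
    have : ⌊b * J⌋₊ ≤ (⌊b * J⌋₊ - s) + s := by omega
    exact_mod_cast this
  have h2 : b * J < ⌊b * J⌋₊ + 1 := Nat.lt_floor_add_one _
  have h3 : (L - x) * J ≤ b * J := mul_le_mul_of_nonneg_right h (Nat.cast_nonneg J)
  have e1 : (L - x) * J = L * J - x * J := by ring
  have e2 : (1 - L) * J = J - L * J := by ring
  rw [e1] at h3
  rw [e2]
  linarith

/-- **The exactness of the base** for all labels of the grid, given the relations of the cells. -/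
theorem exc_zoom (hI : MonoI I) {S : PCl m}
    (hpos : ∀ (τ : ℝ) (J : ℕ) (F : Fam m J) (A : F.Ω → Prop), S.St τ J F A → 0 < Pe F.p A)
    (Kt : KitP m Θ n₀) (hX : EvP I fun p => 0 < Kt.X p) {K' s₁ : ℕ} {sh : ℕ → ℕ}
    (hz : ∀ ka : ℝ, 0 < ka → ∀ M : ℕ, EvQ I fun N θ p => ZmC Kt S K' s₁ sh N M θ p ka)
    {k : ℝ} (hk : 0 < k) (M : ℕ) :
    EvQ I fun N θ p => Kt.FldN S K' s₁ sh M N θ p fun G J F D q =>
      ExC D G.c G.n G.sh (Kt.rc p N M θ J F D) (up G.ϖ J) (up G.ζ J) G.M (G.gn J)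
        (k * up G.ζ J) q := by
  have hn1 : (0 : ℝ) < n₀ + 1 := by positivity
  have key := ((EvQ.of_evP (I := I) (Ψ := fun _ p => 0 < Kt.X p) fun _ => hX).and hI
    (hz (k / 4) (by positivity) M)).and hI
    (EvQ.self I 1 (θ₀ := k / (4 * (n₀ + 1))) (by positivity)
      (ε := fun N _ => 1) (fun N _ _ => one_pos))
  refine key.mono ?_
  rintro N θ p ⟨⟨hXp, hzp⟩, hN, hθ, hθ1, -⟩ b e hb
  obtain ⟨ζ, hζ⟩ : ∃ ζ : ℝ, ζ = msh (Kt.X p) N M := ⟨_, rfl⟩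
  have hζ0 : 0 < ζ := by rw [hζ]; exact msh_pos hXp hN
  have hl2 : 0 < Real.log 2 := Real.log_pos one_lt_two
  have hl21 : Real.log 2 ≤ 1 := by
    have := Real.log_two_lt_d9
    linarith
  -- all places
  have hall : Bas S (fun J F A => ∀ a : Fin (M + 1) × Fin (M + 1), ∀ D : GDat F,
      (Kt.grid K' s₁ sh p N M θ b e).Ok F D A →
      ((∑ l ∈ range n₀, (1 - Kt.L p l ((Kt.y p).1 + (Kt.y p).2 + (a.1 : ℕ) * ζ)
        ((Kt.y p).1 + (a.2 : ℕ) * ζ))) - k / 4 * ζ - k / 8 * ζ) * Real.log 2 * J ≤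
        CH (Pool.Agent.H49.Ent.cond F.p A True) (fun ω (l : Fin n₀) => F.X J ω (Kt.cs p l))
          (fun ω => ((D.cd (n₀ + 1) (Kt.rc p N M θ J F D)).lab2
            (up (Kt.y p).1 J) (up ζ J) a.1 a.2 ω, F.T ω))) := by
    refine Bas.fin fun a => ?_
    have h1 := exc_place hpos hzp hb (i := a.1) (j := a.2) (by omega) (by omega)
      (δ := k / 8 * ζ) (by positivity)
    rw [← hζ] at h1
    exact h1
  -- the constant
  obtain ⟨Cs, hCs⟩ : ∃ Cs : ℝ, Cs = n₀ + ∑ l ∈ range n₀, (sh (l + 1) : ℝ) := ⟨_, rfl⟩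
  have hCs0 : 0 ≤ Cs := by rw [hCs]; positivity
  obtain ⟨J₁, hJ₁⟩ := exists_nat_ge (Cs / (k / 8 * ζ))
  refine Bas.mono J₁ hall fun J hJ F A h D hD i hi j hj => ?_
  have h1 := h (⟨i, Nat.lt_succ_of_le hi⟩, ⟨j, Nat.lt_succ_of_le hj⟩) D hD
  have hJr : (J₁ : ℝ) ≤ J := by exact_mod_cast hJ
  have hJ0 : (0 : ℝ) ≤ J := Nat.cast_nonneg J
  have hcst : Cs ≤ k / 8 * ζ * J := by
    have h2 := hJ₁.trans hJr
    rw [div_le_iff₀ (by positivity)] at h2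
    linarith
  have hup : ζ * J ≤ up ζ J := up_ge ζ J
  have hkup : k * (ζ * J) ≤ k * up ζ J := mul_le_mul_of_nonneg_left hup hk.le
  show (∑ l ∈ range n₀, ((J : ℝ) - (⌊b i j l * J⌋₊ - sh (l + 1) : ℕ))) * Real.log 2 -
      k * up (msh (Kt.X p) N M) J ≤
    CH (Pool.Agent.H49.Ent.cond F.p A True) (fun ω (l : Fin n₀) => F.X J ω (Kt.cs p l))
      (fun ω => ((D.cd (n₀ + 1) (Kt.rc p N M θ J F D)).lab2
        (up (Kt.y p).1 J) (up (msh (Kt.X p) N M) J) i j ω, F.T ω))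
  rw [← hζ]
  refine le_trans ?_ h1
  -- numbers
  obtain ⟨Lv, hLv⟩ : ∃ Lv : ℕ → ℝ, Lv = fun l => Kt.L p l
    ((Kt.y p).1 + (Kt.y p).2 + i * ζ) ((Kt.y p).1 + j * ζ) := ⟨_, rfl⟩
  have h3 : ∑ l ∈ range n₀, ((J : ℝ) - (⌊b i j l * J⌋₊ - sh (l + 1) : ℕ)) ≤
      ∑ l ∈ range n₀, ((1 - Lv l) * J + θ * ζ * J + 1 + sh (l + 1)) := by
    refine Finset.sum_le_sum fun l hl => side_le ?_
    have h4 := hb.lo i hi j hj l (by have := mem_range.1 hl; omega)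
    rw [← hζ] at h4
    rw [hLv]
    exact h4
  have h5 : ∑ l ∈ range n₀, ((1 - Lv l) * J + θ * ζ * J + 1 + sh (l + 1)) =
      (∑ l ∈ range n₀, (1 - Lv l)) * J + n₀ * (θ * ζ * J) + Cs := by
    rw [hCs]
    simp only [Finset.sum_add_distrib, ← Finset.sum_mul, Finset.sum_const, Finset.card_range,
      nsmul_eq_mul]
    ring
  rw [h5] at h3
  have h6 : (n₀ : ℝ) * (θ * ζ * J) ≤ k / 4 * (ζ * J) := by
    have h7 : (n₀ : ℝ) * θ ≤ k / 4 := by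
      calc (n₀ : ℝ) * θ ≤ (n₀ + 1) * (k / (4 * (n₀ + 1))) :=
            mul_le_mul (by linarith) hθ1 hθ.le hn1.le
        _ = k / 4 := by field_simp
    have h8 : (n₀ : ℝ) * (θ * ζ * J) = (n₀ * θ) * (ζ * J) := by ring
    rw [h8]
    exact mul_le_mul_of_nonneg_right h7 (by positivity)
  obtain ⟨E, hE⟩ : ∃ E : ℝ, E = (∑ l ∈ range n₀, (1 - Lv l)) * J := ⟨_, rfl⟩
  rw [← hE] at h3
  have h9 : (∑ l ∈ range n₀, ((J : ℝ) - (⌊b i j l * J⌋₊ - sh (l + 1) : ℕ))) * Real.log 2 ≤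
      (E + 3 / 8 * k * (ζ * J)) * Real.log 2 := by
    refine mul_le_mul_of_nonneg_right ?_ hl2.le
    linarith
  have e1 : ((∑ l ∈ range n₀, (1 - Kt.L p l ((Kt.y p).1 + (Kt.y p).2 + i * ζ)
        ((Kt.y p).1 + j * ζ))) - k / 4 * ζ - k / 8 * ζ) * Real.log 2 * J =
      E * Real.log 2 - 3 / 8 * k * (ζ * J) * Real.log 2 := by
    rw [hE, hLv]
    ring
  show _ ≤ ((∑ l ∈ range n₀, (1 - Kt.L p l ((Kt.y p).1 + (Kt.y p).2 + i * ζ)
        ((Kt.y p).1 + j * ζ))) - k / 4 * ζ - k / 8 * ζ) * Real.log 2 * J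
  rw [e1]
  have h10 : 0 ≤ k * (ζ * J) := by positivity
  have h11 : k * (ζ * J) * Real.log 2 ≤ k * (ζ * J) * 1 := mul_le_mul_of_nonneg_left hl21 h10
  have e2 : (E + 3 / 8 * k * (ζ * J)) * Real.log 2 =
      E * Real.log 2 + 3 / 8 * (k * (ζ * J) * Real.log 2) := by ring
  have e3 : 3 / 8 * k * (ζ * J) * Real.log 2 = 3 / 8 * (k * (ζ * J) * Real.log 2) := by ring
  rw [e2] at h9
  rw [e3]
  linarith

/-- **The near digits of the base** for all labels of the grid, given the relations of the cells. -/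
theorem exn_zoom (hI : MonoI I) {S : PCl m}
    (hpos : ∀ (τ : ℝ) (J : ℕ) (F : Fam m J) (A : F.Ω → Prop), S.St τ J F A → 0 < Pe F.p A)
    (Kt : KitP m Θ n₀) (hinj : ∀ p, Inj (Kt.cs p) (n₀ + 1)) {T' : ℝ}
    (fcel : ∀ ε' : ℝ, 0 < ε' → EvP I fun p =>
      CellL (n₀ + 1) (Kt.L p) ε' T' (Kt.y p) (Kt.X p) (Kt.la p) (Kt.ml p))
    {K' s₁ : ℕ} {sh : ℕ → ℕ} (hK' : 1 ≤ K')
    (hz : ∀ ka : ℝ, 0 < ka → ∀ M : ℕ, EvQ I fun N θ p => ZmC Kt S K' s₁ sh N M θ p ka)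
    {k : ℝ} (hk : 0 < k) (M : ℕ) :
    EvQ I fun N θ p => Kt.FldN S K' s₁ sh M N θ p fun G J F D q =>
      OKI.ExN D G.c G.n G.sh (Kt.rc p N M θ J F D) (up G.ϖ J) (up G.ζ J) G.M (G.gn J)
        (k * up G.ζ J) q := by
  obtain ⟨L, s₂, hL0, hexn⟩ := OKI.exn (n₀ + 1) Kt.K K' s₁ sh hK'
  obtain ⟨N₁, hN₁⟩ := exists_nat_ge (4 * (T' + 2))
  have hX : EvP I fun p => 0 < Kt.X p := (fcel 1 one_pos).mono fun p h => h.pos
  have key := (((KitP.cel_evQ fcel M).and hI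
    (exc_zoom hI hpos Kt hX hz (k := k / 2) (by positivity) M))).and hI
    (EvQ.self I (max N₁ 2) (θ₀ := 1 / 16) (by norm_num)
      (ε := fun N _ => 1) (fun N _ _ => one_pos))
  refine key.mono ?_
  rintro N θ p ⟨⟨hL, hx⟩, hN, hθ, hθ1, -⟩ b e hnear
  obtain ⟨ε, hε⟩ : ∃ ε : ℝ, ε = 1 / (64 * (N * (M + 4)) + 1) := ⟨_, rfl⟩
  rw [← hε] at hL
  have hNN : N₁ ≤ N := (le_max_left _ _).trans hN
  have hN2 : 2 ≤ N := (le_max_right _ _).trans hN
  have hN1 : 1 ≤ N := by omega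
  have hNT : 4 * (T' + 2) ≤ N := hN₁.trans (by exact_mod_cast hNN)
  have hε0 : 0 < ε := by rw [hε]; positivity
  have hεN : ε * (64 * (N * (M + 4))) ≤ 1 := by
    rw [hε, one_div, inv_mul_le_iff₀ (by positivity)]
    linarith
  have hs := hL.sideE (B := 1) (by omega : 1 ≤ n₀ + 1) hN1 hNT hN2 le_rfl hε0.le hεN hθ hθ1 hnear
  obtain ⟨J₁, hgrid⟩ := grid_ev hs.win hs.ζ0 hs.thin hs.top
  obtain ⟨J₂, hflo⟩ := flo_ev hs.pos sh
  obtain ⟨J₃, hsi⟩ := siz_ev (n := n₀ + 1) (M := M) hs.ζ0 hnear.e0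
    (fun i hi j hj l hl => hs.pos i hi j hj l (by omega))
    (fun i hi j hj l hl => by
      have h1 := hs.siz i hi j hj l (by omega)
      rw [Nat.cast_one, one_mul] at h1
      exact h1) s₂
  obtain ⟨J₄, hJ₄⟩ := kz_ev (k := k / 2) (by positivity) hs.ζ0 L
  have hP : Bas S (fun _ F A => 0 < Pe F.p A) := ⟨1, one_pos, 0, fun J _ F A hA => hpos 1 J F A hA⟩
  refine Bas.mono (max (max J₁ J₂) (max J₃ J₄)) (Bas.and hP (hx b e hnear))
    fun J hJ F A hA D hD => ?_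
  obtain ⟨f1, f2⟩ := hA
  have f3 := f2 D hD
  have j1 : J₁ ≤ J := ((le_max_left _ _).trans (le_max_left _ _)).trans hJ
  have j2 : J₂ ≤ J := ((le_max_right _ _).trans (le_max_left _ _)).trans hJ
  have j3 : J₃ ≤ J := ((le_max_left _ _).trans (le_max_right _ _)).trans hJ
  have j4 : J₄ ≤ J := ((le_max_right _ _).trans (le_max_right _ _)).trans hJ
  obtain ⟨g1, g2, g3⟩ := hgrid J j1
  have h4 := hexn hD.1 (hinj p) (by
      have h5 : M * up (msh (Kt.X p) N M) J ≤ (M + 1) * up (msh (Kt.X p) N M) J :=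
        Nat.mul_le_mul_right _ (Nat.le_succ M)
      show up ((Kt.y p).1 + (Kt.y p).2) J + M * up (msh (Kt.X p) N M) J ≤ J
      omega) (fun i hi j hj l hl => hflo J j2 i hi j hj l hl) (hsi J j3)
    (isLaw_cond F.isLaw f1) (fun ω hω => Pool.PB.End.of_cond_pos hω) f3
  refine OKI.ExN.mono h4 ?_
  show k / 2 * up (msh (Kt.X p) N M) J + L ≤ k * up (msh (Kt.X p) N M) J
  have h6 := hJ₄ J j4
  linarith

/-- **The base given the labels at the point**, for all labels of the grid. -/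
theorem exs_zoom (hI : MonoI I) {S : PCl m}
    (hpos : ∀ (τ : ℝ) (J : ℕ) (F : Fam m J) (A : F.Ω → Prop), S.St τ J F A → 0 < Pe F.p A)
    (Kt : KitP m Θ n₀) (hX : EvP I fun p => 0 < Kt.X p) {K' s₁ : ℕ} {sh : ℕ → ℕ}
    (hz : ∀ ka : ℝ, 0 < ka → ∀ M : ℕ, EvQ I fun N θ p => ZmC Kt S K' s₁ sh N M θ p ka)
    {k : ℝ} (hk : 0 < k) (M : ℕ) :
    EvQ I fun N θ p => Kt.FldN S K' s₁ sh M N θ p fun G J _ D q =>
      ExS D G.c G.n G.sh G.M (G.gn J) (k * up G.ζ J) q := by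
  refine (exc_zoom hI hpos Kt hX hz hk M).mono ?_
  intro N θ p hx b e hnear
  have hP : Bas S (fun _ F A => 0 < Pe F.p A) := ⟨1, one_pos, 0, fun J _ F A hA => hpos 1 J F A hA⟩
  refine Bas.mono 0 (Bas.and hP (hx b e hnear)) fun J _ F A hA D hD => ?_
  obtain ⟨f1, f2⟩ := hA
  exact OKI.exs hD.1 (isLaw_cond F.isLaw f1) (fun ω hω => Pool.PB.End.of_cond_pos hω) (f2 D hD)

end Pool.EXC33
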