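import Pool.Agent.H33.EXC.ExI

/-!
# Exactness of the base given a further closed value

`ZmCp`: as `ZmC`, with a further value which is closed in a little shorter window (`w₊`), given the
exact point, the relations of the cell and the first `q J` digits of the direction, `q` a little
more than the tube of the place: the base is full given the relations, these digits, the value and
the time, up to `ka` meshes. `ZmCp.zmc`: `ZmC`. `ZmIp.zmI`: for the class.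
-/

set_option autoImplicit false

namespace Pool.EXC33

open Finset MvPolynomial
open Pool.Agent.H49.Ent Pool.Agent.H32.Dense Pool.STK Pool.KS3 Pool.STAT Pool.STAT.CLO Pool.MIC6
open Pool.KA Pool.KSAT Pool.PB Pool.GEN Pool.K2S Pool.S6C
open Pool.CHT Pool.STA Pool.PKG
open Pool.TOP (TopS)
open Pool.STR (NumI Rle)

variable {Θ : Type*} {I : ℝ → Θ → Prop} {m n₀ : ℕ}

/-- **The base is full given a further closed value**, in the subclasses with one datum. -/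
def ZmCp (Kt : KitP m Θ n₀) (S : PCl m) (K' s₁ : ℕ) (sh : ℕ → ℕ) (N M : ℕ) (θ : ℝ) (p : Θ)
    (ka : ℝ) : Prop :=
  ∀ (b : ℕ → ℕ → ℕ → ℝ) (e : ℕ → ℕ → ℝ), Kt.Near p N M θ b e →
    ∀ i ≤ M, ∀ j ≤ M, ∃ ξ : ℝ, 0 < ξ ∧ ∀ S' : PCl m, S'.Ne →
    (∀ (τ : ℝ) (J : ℕ) (F : Fam m J) (A : F.Ω → Prop), S'.St τ J F A → S.St τ J F A) →
    ∀ d : ∀ (J : ℕ) (F : Fam m J), GDat F,
    (∀ (τ : ℝ) (J : ℕ) (F : Fam m J) (A : F.Ω → Prop), S'.St τ J F A →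
      (Kt.grid K' s₁ sh p N M θ b e).Ok F (d J F) A) →
    ∀ wp : ℝ, (Kt.y p).1 + j * msh (Kt.X p) N M < wp →
      wp < (Kt.y p).1 + j * msh (Kt.X p) N M + ξ →
    ∀ q : ℝ, 0 < q → q < (Kt.y p).2 + i * msh (Kt.X p) N M - j * msh (Kt.X p) N M + ξ →
    ∀ (V : ∀ (J : ℕ), Fam m J → Type) (z : ∀ (J : ℕ) (F : Fam m J), PtT F →
      (((i' j' : ℕ) → Option (((d J F).cd (n₀ + 1) (Kt.rc p N M θ J F (d J F))).V i' j')) × ℕ) →
        (Fin m → ℤ) → V J F) (z' : ∀ (J : ℕ) (F : Fam m J), LnT F → V J F),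
    (∀ (τ : ℝ) (J : ℕ) (F : Fam m J) (A : F.Ω → Prop), S'.St τ J F A → ∀ ω, A ω →
      z J F (ptr F J ω) (((d J F).cd (n₀ + 1) (Kt.rc p N M θ J F (d J F))).lab2
        (up (Kt.y p).1 J) (up (msh (Kt.X p) N M) J) i j ω) (F.D ⌊q * J⌋₊ ω) =
        z' J F (slam F ⌊wp * J⌋₊ ω)) →
    ∃ S'' : PCl m, S''.Ne ∧ (∀ (τ : ℝ) (J : ℕ) (F : Fam m J) (A : F.Ω → Prop),
      S''.St τ J F A → S'.St τ J F A) ∧ ∀ ρ : ℝ, 0 < ρ → Bas S'' (fun J F A =>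
        ((∑ l ∈ range n₀, (1 - Kt.L p l ((Kt.y p).1 + (Kt.y p).2 + i * msh (Kt.X p) N M)
          ((Kt.y p).1 + j * msh (Kt.X p) N M))) - ka * msh (Kt.X p) N M - ρ) *
            Real.log 2 * J ≤
          CH (Pool.Agent.H49.Ent.cond F.p A True) (fun ω (l : Fin n₀) => F.X J ω (Kt.cs p l))
            (fun ω => (((d J F).cd (n₀ + 1) (Kt.rc p N M θ J F (d J F))).lab2
              (up (Kt.y p).1 J) (up (msh (Kt.X p) N M) J) i j ω,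
              (F.D ⌊q * J⌋₊ ω, (z' J F (slam F ⌊wp * J⌋₊ ω), F.T ω)))))

/-- The tubes of the places are positive. -/
theorem tub_pos {y : ℝ × ℝ} {X : ℝ} {N M : ℕ} (hX : 0 < X) (hy : X ≤ y.2) (hN : 1 ≤ N) (i : ℕ)
    {j : ℕ} (hj : j ≤ M) : 0 < y.2 + i * msh X N M - j * msh X N M := by
  have h1 : (N : ℝ) * ((M + 4) * msh X N M) = X := msh_mul hN
  have hN0 : (1 : ℝ) ≤ N := by exact_mod_cast hN
  have hM0 : (0 : ℝ) ≤ M := Nat.cast_nonneg M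
  have hm : 0 < msh X N M := by
    unfold msh
    positivity
  have h2 : 1 * ((M + 4) * msh X N M) ≤ N * ((M + 4) * msh X N M) :=
    mul_le_mul_of_nonneg_right hN0 (by positivity)
  have h3 : (j : ℝ) * msh X N M ≤ M * msh X N M :=
    mul_le_mul_of_nonneg_right (by exact_mod_cast hj) hm.le
  have h4 : 0 ≤ (i : ℝ) * msh X N M := by positivity
  linarith

/-- **`ZmC` from `ZmCp`.** -/
theorem ZmCp.zmc {Kt : KitP m Θ n₀} {S : PCl m}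
    (hpos : ∀ (τ : ℝ) (J : ℕ) (F : Fam m J) (A : F.Ω → Prop), S.St τ J F A → 0 < Pe F.p A)
    {K' s₁ : ℕ} {sh : ℕ → ℕ} {N M : ℕ} {θ : ℝ} {p : Θ} {ka : ℝ} (hN : 1 ≤ N)
    (hX : 0 < Kt.X p) (hy : Kt.X p ≤ (Kt.y p).2)
    (h : ZmCp Kt S K' s₁ sh N M θ p ka) : ZmC Kt S K' s₁ sh N M θ p ka := by
  intro b e hb i hi j hj S' hne hsub d hd
  obtain ⟨ξ, hξ, hz⟩ := h b e hb i hi j hj
  have h1 := tub_pos hX hy hN i hj
  obtain ⟨S'', h2, h3, h4⟩ := hz S' hne hsub d hd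
    ((Kt.y p).1 + j * msh (Kt.X p) N M + ξ / 2) (by linarith) (by linarith)
    ((Kt.y p).2 + i * msh (Kt.X p) N M - j * msh (Kt.X p) N M) h1 (by linarith)
    (fun _ _ => Unit) (fun _ _ _ _ _ => ()) (fun _ _ _ => ()) (fun _ _ _ _ _ _ _ => rfl)
  have hpos'' : Bas S'' (fun _ F A => 0 < Pe F.p A) :=
    ⟨1, one_pos, 0, fun J _ F A hA => hpos 1 J F A (hsub 1 J F A (h3 1 J F A hA))⟩
  refine ⟨S'', h2, h3, fun ρ hρ => Bas.mono 0 (hpos''.and (h4 ρ hρ)) ?_⟩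
  rintro J - F A ⟨h5, h6⟩
  refine h6.trans (CH_mono_cond (isLaw_cond F.isLaw h5).nonneg fun ω ω' _ _ e => ?_)
  have e1 := Prod.ext_iff.1 e
  have e2 := Prod.ext_iff.1 e1.2
  have e3 := Prod.ext_iff.1 e2.2
  exact Prod.ext e1.1 e3.2

/-! ### The class -/

section cls

variable {n : ℕ} {hn : 2 ≤ n} {S : PCl n} {P : ℝ → ℝ → ℝ} {rr : ℝ → ℝ}
  {P' : ℕ → List (Fin n) × Fin n → ℝ → ℝ → ℝ} {Λ : Finset (Fin n) → Fin n → ℝ → ℝ → ℝ}
  {PB : ℕ → List (Fin n) × Fin n → ℝ → ℝ → ℝ}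
  (H : PkT hn S P rr P' Λ PB) {hTop : TopS n} {hF : FZX (n - 1)}
  {ρ' : ℝ → ℝ} {hρ : Rle rr ρ'}

/-- **The base is full given a further closed value**, on a family of boxes. -/
def ZmIp (p : ((H.nk hTop hF).chg hρ H.up).Par) (I : ℝ → BS p.cell → Prop) : Prop :=
  ∀ (K K' s₁ : ℕ) (sh : ℕ → ℕ), 1 ≤ K → 1 ≤ K' → ∀ ka : ℝ, 0 < ka → ∀ M' : ℕ,
    EvQ I fun N θ q => ZmCp (kitN H p K).kit S K' s₁ sh N M' θ q ka

/-- **`ZmI` from `ZmIp`.** -/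
theorem ZmIp.zmI {p : ((H.nk hTop hF).chg hρ H.up).Par} {I : ℝ → BS p.cell → Prop}
    (hI : MonoI I) {T' : ℝ}
    (fcel : ∀ K₀ : ℕ, ∀ ε' : ℝ, 0 < ε' → EvP I fun q =>
      CellL (n - 1 + 1) ((kitN H p K₀).kit.L q) ε' T' ((kitN H p K₀).kit.y q)
        ((kitN H p K₀).kit.X q) ((kitN H p K₀).kit.la q) ((kitN H p K₀).kit.ml q))
    (hz : ZmIp H p I) : ZmI H p I := by
  intro K K' s₁ sh hK hK' ka hka M'
  have key := ((KitP.cel_evQ (fcel K) M').and hI (hz K K' s₁ sh hK hK' ka hka M')).and hI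
    (EvQ.self I 1 (θ₀ := 1) one_pos (ε := fun N _ => 1) (fun N _ _ => one_pos))
  refine key.mono ?_
  rintro N θ q ⟨⟨hL, hzp⟩, hN, -⟩
  exact hzp.zmc H.tmh.1 hN hL.pos hL.dep

/-- **`ZmI` from `ZmIp` on the boxes of a kind.** -/
theorem ZmIp.zmK {p : ((H.nk hTop hF).chg hρ H.up).Par}
    (hpI : ∀ c (k : p.α × Od n) Q g ρ, p.Ad' c k Q g ρ → AdI hn S P P' c k.2 g ρ)
    {ι : Type} {kd : p.cell.α → ι} {c β h' M : ℝ} (hc : 0 < c) (hβ : 0 < β) {x : ι}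
    (hz : ZmIp H p (IsK p.cell kd c β h' M x)) : ZmI H p (IsK p.cell kd c β h' M x) :=
  ZmIp.zmI H (isK_mono p.cell kd c β h' M x) (fun K₀ ε' hε' => kit_cel H hpI hc hβ x K₀ ε' hε') hz

end cls

end Pool.EXC33
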