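import Pool.Agent.H33.EXC.Zro

/-!
# `ZmC` and `ZmCp` at a box

`BoxZ`: the facts of a box (numbers, labels and own velocities at the windows of the grid, `NrD`).
`box_pre`: the hypotheses of the places. `zmc_box`: `ZmC` from `BoxZ` and `RecExa`.
-/

set_option autoImplicit false

namespace Pool.EXC33

open Finset MvPolynomial
open Pool.Agent.H49.Ent Pool.Agent.H32.Dense Pool.STK Pool.KS3 Pool.STAT Pool.STAT.CLO Pool.MIC6
open Pool.KA Pool.KSAT Pool.PB Pool.GEN Pool.K2S Pool.S6C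
open Pool.STAT.OKI (RefC hts ohg tw)
open Pool.CHT (TmH)
open Pool.REX (Vz)
open Pool.OWN72 (HasA HasB RepX ClA NrD RecExa img hrc)
open Pool.JVE (cI)

variable {m n₀ : ℕ} {Θ : Type*}

/-- **The facts of a box**: `E` is the exponent of the labels of the target, `δ` the error. -/
structure BoxZ (Kt : KitP m Θ n₀) (S : PCl m) (L : Finset (Fin m) → Fin m → ℝ → ℝ → ℝ)
    (N M : ℕ) (p : Θ) (Dn : ℕ → ℕ → ℝ) (be co K₁ δ E : ℝ) : Prop where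
  E0 : 0 ≤ E
  y2 : (Kt.y p).2 = Kt.X p
  g0 : co ≤ (Kt.y p).1
  fst : ∀ j ≤ M, Dn j 0 = (Kt.y p).1 + j * msh (Kt.X p) N M
  low : ∀ j ≤ M, ∀ l, 1 ≤ l → l < n₀ + 1 → (Kt.y p).1 + j * msh (Kt.X p) N M + co ≤ Dn j l
  mon : ∀ j ≤ M, ∀ k l, k < l → l < n₀ + 1 → Dn j k ≤ Dn j l
  siz : ∀ j ≤ M, ∀ l < n₀ + 1, Dn j l + E + co ≤ 1
  exw : ∀ j ≤ M, Bas S fun J F A => ExW F A (fun l : Fin n₀ => Kt.cs p l)
    (up (Kt.y p).1 J + j * up (msh (Kt.X p) N M) J)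
    ((∑ l ∈ range n₀, ((J : ℝ) - (⌊Dn j l * J⌋₊ : ℕ))) * Real.log 2 -
      δ * up (msh (Kt.X p) N M) J)
  hA : ∀ j ≤ M, ∀ l, 1 ≤ l → l < n₀ → HasA S (img (Kt.cs p) l) (Kt.cs p l)
    ((Kt.y p).1 + j * msh (Kt.X p) N M) (Dn j l - δ * msh (Kt.X p) N M)
  hB : ∀ j ≤ M, HasB S (img (Kt.cs p) n₀) (Kt.cs p n₀)
    ((Kt.y p).1 + j * msh (Kt.X p) N M) (Dn j n₀ - δ * msh (Kt.X p) N M) E
  rep : ∀ i ≤ M, ∀ j ≤ M, ∀ j' ≤ j, ∀ l, 1 ≤ l → l < n₀ + 1 →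
    RepX S (Kt.cs p 0) (img (Kt.cs p) l) (Kt.cs p l) ((Kt.y p).1 + j' * msh (Kt.X p) N M)
      ((Kt.y p).1 + j * msh (Kt.X p) N M + msh (Kt.X p) N M) (Dn j' l)
      ((Kt.y p).2 + i * msh (Kt.X p) N M - j * msh (Kt.X p) N M) (msh (Kt.X p) N M)
  nrd : ∃ (Wd : Set ℝ) (g R d : ℝ) (Dg sl : ℕ → ℝ), NrD S L (Kt.cs p) n₀ Wd g R d be co Dg sl ∧
    0 ≤ d ∧ d ≤ δ * msh (Kt.X p) N M ∧ g + Kt.X p ≤ (Kt.y p).1 ∧
    (Kt.y p).1 + K₁ * Kt.X p ≤ g + R ∧ ∀ j ≤ M, ∀ l, 1 ≤ l → l < n₀ →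
      Dg l + sl l * ((Kt.y p).1 + j * msh (Kt.X p) N M - g) - d ≤ Dn j l

/-- **The hypotheses of the places** of a box. -/
theorem box_pre (n₀ K K' s₁ : ℕ) (sh : ℕ → ℕ) (hn1 : 1 ≤ n₀) {C hr xr co : ℝ} (hC : 0 ≤ C)
    (hhr : 0 < hr) (hxr : 0 < xr) (hxr1 : xr ≤ 1 / 16) (hco : 0 < co) (M : ℕ) :
    ∃ ε : ℝ, 0 < ε ∧ ∀ κ₀ : ℝ, 0 < κ₀ → ∃ κ δ θ₀ y : ℝ, 0 < κ ∧ κ ≤ κ₀ ∧ 0 < δ ∧ 0 < θ₀ ∧
    ∀ {m : ℕ} {Θ : Type*} {Kt : KitP m Θ n₀} {S : PCl m} {C₀ : ℝ}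
    {L : Finset (Fin m) → Fin m → ℝ → ℝ → ℝ} {N : ℕ} {θ : ℝ} {p : Θ} {Dn : ℕ → ℕ → ℝ}
    {be K₁ δ' E : ℝ}, Kt.K = K → TmH S → TmC S C₀ → Pool.MIC6.ActF S (Kt.cs p 0) →
    NumZ Kt N M θ p Dn → BoxZ Kt S L N M p Dn be co K₁ δ' E → 0 ≤ δ' → δ' ≤ δ → 0 ≤ θ → θ ≤ θ₀ →
    Kt.X p ≤ co / 16 → Kt.X p ≤ 1 / 16 →
    PlcH Kt S N M θ p Dn (fun _ => E + y) y (co / 4) κ ((cI m ^ (n₀ + 1)) ^ (M + 1)) ∧
      ((M : ℝ) + 1) ^ 2 * (C * ((ε + 2 * θ) * msh (Kt.X p) N M)) < hr * msh (Kt.X p) N M ∧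
      ∀ (b : ℕ → ℕ → ℕ → ℝ) (e : ℕ → ℕ → ℝ), ∀ i ≤ M, ∀ j ≤ M,
        HrcP Kt S K' s₁ sh N M θ p b e Dn (fun _ => E + y) y κ ε i j
          ((Kt.y p).2 + i * msh (Kt.X p) N M - j * msh (Kt.X p) N M +
            8 * (xr * msh (Kt.X p) N M)) := by
  obtain ⟨Ch, hCh, hhrc⟩ := hrcP_of n₀ K
  have hCh0 : 0 < Ch := by linarith
  have hM0 : (0 : ℝ) ≤ M := Nat.cast_nonneg M
  obtain ⟨D, hD⟩ : ∃ D, D = ((M : ℝ) + 1) ^ 2 * (C + 1) := ⟨_, rfl⟩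
  have hD0 : 0 < D := by rw [hD]; positivity
  have hDC : ((M : ℝ) + 1) ^ 2 * C ≤ D := by
    rw [hD]
    exact mul_le_mul_of_nonneg_left (by linarith) (by positivity)
  obtain ⟨ε, hε⟩ : ∃ ε, ε = min (xr / (2 * Ch)) (hr / (4 * D)) := ⟨_, rfl⟩
  have hε0 : 0 < ε := by rw [hε]; exact lt_min (by positivity) (by positivity)
  have hε1 : Ch * ε ≤ xr / 2 := by
    have h1 : ε ≤ xr / (2 * Ch) := by rw [hε]; exact min_le_left _ _
    rw [le_div_iff₀ (by positivity)] at h1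
    linarith
  have hε2 : D * ε ≤ hr / 4 := by
    have h1 : ε ≤ hr / (4 * D) := by rw [hε]; exact min_le_right _ _
    rw [le_div_iff₀ (by positivity)] at h1
    linarith
  refine ⟨ε, hε0, fun κ₀ hκ₀ => ?_⟩
  obtain ⟨κ, hκ⟩ : ∃ κ, κ = min κ₀ (xr / (2 * Ch)) := ⟨_, rfl⟩
  have hκ0 : 0 < κ := by rw [hκ]; exact lt_min hκ₀ (by positivity)
  have hκ1 : Ch * κ ≤ xr / 2 := by
    have h1 : κ ≤ xr / (2 * Ch) := by rw [hκ]; exact min_le_right _ _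
    rw [le_div_iff₀ (by positivity)] at h1
    linarith
  obtain ⟨δ, hδ⟩ : ∃ δ, δ = min (κ / 2) (1 / 16) := ⟨_, rfl⟩
  have hδ0 : 0 < δ := by rw [hδ]; exact lt_min (by linarith) (by norm_num)
  have hδ1 : δ ≤ κ / 2 := by rw [hδ]; exact min_le_left _ _
  have hδ2 : δ ≤ 1 / 16 := by rw [hδ]; exact min_le_right _ _
  obtain ⟨θ₀, hθ₀⟩ : ∃ θ₀, θ₀ = min κ (hr / (8 * D)) := ⟨_, rfl⟩
  have hθ₀0 : 0 < θ₀ := by rw [hθ₀]; exact lt_min hκ0 (by positivity)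
  have hθ₀1 : θ₀ ≤ κ := by rw [hθ₀]; exact min_le_left _ _
  have hθ₀2 : D * θ₀ ≤ hr / 8 := by
    have h1 : θ₀ ≤ hr / (8 * D) := by rw [hθ₀]; exact min_le_right _ _
    rw [le_div_iff₀ (by positivity)] at h1
    linarith
  obtain ⟨y, hy⟩ : ∃ y, y = co / (4 * Ch) := ⟨_, rfl⟩
  have hy0 : 0 < y := by rw [hy]; positivity
  have hy1 : Ch * y = co / 4 := by
    rw [hy]
    field_simp
  have hy2 : y ≤ co / 4 := by
    have : 1 * y ≤ Ch * y := mul_le_mul_of_nonneg_right hCh hy0.le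
    linarith
  refine ⟨κ, δ, θ₀, y, hκ0, by rw [hκ]; exact min_le_left _ _, hδ0, hθ₀0, ?_⟩
  intro m Θ Kt S C₀ L N θ p Dn be K₁ δ' E hKK htmh htmc hact hz hB hδ'0 hδδ hθ0 hθθ hX1 hX2
  have hN1 := hz.N1
  have hNr : (1 : ℝ) ≤ N := by exact_mod_cast hN1
  obtain ⟨ζ, hζ⟩ : ∃ ζ, ζ = msh (Kt.X p) N M := ⟨_, rfl⟩
  have hζ0 : 0 < ζ := by rw [hζ]; exact hz.msh_pos
  have hXζ : (N : ℝ) * ((M + 4) * ζ) = Kt.X p := by rw [hζ]; exact msh_mul hN1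
  have hX4 : (M + 4) * ζ ≤ Kt.X p := by
    have : 1 * ((M + 4) * ζ) ≤ N * ((M + 4) * ζ) :=
      mul_le_mul_of_nonneg_right hNr (by positivity)
    linarith
  have hMζ : 0 ≤ (M : ℝ) * ζ := by positivity
  have hζX : M * ζ + 4 * ζ ≤ Kt.X p := by linarith
  have hmul : ∀ j : ℕ, j ≤ M → (j : ℝ) * ζ ≤ M * ζ := fun j hj =>
    mul_le_mul_of_nonneg_right (by exact_mod_cast hj) hζ0.le
  have hmul0 : ∀ j : ℕ, 0 ≤ (j : ℝ) * ζ := fun j => by positivity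
  have hθκ : θ ≤ κ := hθθ.trans hθ₀1
  have hg0 := hB.g0
  have hE0 := hB.E0
  have hy2' := hB.y2
  have hsM := hB.siz M le_rfl 0 (by omega)
  rw [hB.fst M le_rfl, ← hζ] at hsM
  have hXn : Kt.X p ≤ co / 16 := hX1
  -- tubes
  have htub : ∀ i j : ℕ, i ≤ M → j ≤ M → (Kt.y p).2 + i * ζ - j * ζ ≤ 2 * Kt.X p := by
    intro i j hi hj
    have h1 := hmul i hi
    have h2 := hmul0 j
    linarith
  have hδζ : δ' * ζ ≤ ζ := by
    have : δ' * ζ ≤ 1 * ζ := mul_le_mul_of_nonneg_right (by linarith) hζ0.le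
    linarith
  have hxζ : xr * ζ ≤ ζ := by
    have : xr * ζ ≤ 1 * ζ := mul_le_mul_of_nonneg_right (by linarith) hζ0.le
    linarith
  refine ⟨⟨htmh, hz, hθ0, hθκ, by linarith, ?_, ?_, ?_, ?_, ?_⟩, ?_, ?_⟩
  · rw [← hζ]
    linarith
  · intro j hj l hl
    rw [← hζ]
    rcases Nat.eq_zero_or_pos l with h0 | h0
    · rw [h0, hB.fst j hj, ← hζ]
      have := hmul0 j
      linarith
    · have h1 := hB.low j hj l h0 hl
      rw [← hζ] at h1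
      have := hmul0 j
      linarith
  · intro j hj l hl
    rw [← hζ]
    have h1 := hB.siz j hj l hl
    linarith
  · intro j hj
    refine Bas.mono 0 (hB.exw j hj) fun J _ F A h V z z' hzz => le_trans ?_ (h V z z' hzz)
    have h1 : δ' * (up (msh (Kt.X p) N M) J : ℝ) ≤ κ * up (msh (Kt.X p) N M) J :=
      mul_le_mul_of_nonneg_right (by linarith) (Nat.cast_nonneg _)
    linarith
  · have h1 := choW_of (S := S) (c := Kt.cs p) (n := n₀ + 1) (M := M) (ϖ := (Kt.y p).1)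
      (ζ := msh (Kt.X p) N M) (δ := δ' * msh (Kt.X p) N M) (δ' := co / 4) (E := E)
      (x := κ * msh (Kt.X p) N M) (y := y) (b := Dn) (by omega) hz.y0 (by rw [← hζ]; exact hζ0)
      (by rw [← hζ]; linarith) (by rw [← hζ]; positivity) (by linarith) hE0
      (fun j hj l h1 h2 => hB.hA j hj l h1 (by omega)) (fun j hj => hB.hB j hj)
      (fun j hj => hB.fst j hj) (fun j hj l h1 h2 => by
        have h3 := hB.low j hj l h1 h2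
        rw [← hζ] at h3 ⊢
        linarith) (fun j hj l hl => by
        have h3 := hB.siz j hj l hl
        linarith) (by
        rw [← hζ]
        exact mul_lt_mul_of_pos_right (by linarith) hζ0) hy0
    exact h1
  · rw [← hζ]
    have h1 : ((M : ℝ) + 1) ^ 2 * (C * ((ε + 2 * θ) * ζ)) =
      ((M : ℝ) + 1) ^ 2 * C * (ε + 2 * θ) * ζ := by ring
    rw [h1]
    refine mul_lt_mul_of_pos_right ?_ hζ0
    have h2 : ((M : ℝ) + 1) ^ 2 * C * (ε + 2 * θ) ≤ D * (ε + 2 * θ) :=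
      mul_le_mul_of_nonneg_right hDC (by positivity)
    have h3 : D * θ ≤ D * θ₀ := mul_le_mul_of_nonneg_left hθθ hD0.le
    have h4 : D * (ε + 2 * θ) = D * ε + 2 * (D * θ) := by ring
    linarith
  · intro b e i hi j hj
    have hCC : Ch * (ε + κ) * ζ ≤ xr * ζ := by
      refine mul_le_mul_of_nonneg_right ?_ hζ0.le
      have : Ch * (ε + κ) = Ch * ε + Ch * κ := by ring
      linarith
    have h8 : 8 * (xr * ζ) ≤ ζ := by
      have : xr * ζ ≤ 1 / 16 * ζ := mul_le_mul_of_nonneg_right hxr1 hζ0.le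
      linarith
    have ht := htub i j hi hj
    refine hhrc (C₀ := C₀) (γ := co / 4) (γ₁ := msh (Kt.X p) N M) (x := xr * msh (Kt.X p) N M) hKK
      htmc hz hact hθ0 hθκ hε0 hκ0 (by linarith) (by rw [← hζ]; exact hζ0)
      (by rw [← hζ]; positivity) hy0 hE0 (by rw [← hζ]; exact hCC) (by rw [← hζ]; linarith)
      hy1.le le_rfl (by rw [← hζ]; linarith) hj (by
        rw [← hζ]
        have := hmul j hj
        linarith) (fun j' hj' l h1 h2 => by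
        have h3 := hB.low j' (hj'.trans hj) l h1 h2
        rw [← hζ] at h3 ⊢
        linarith) (fun j' hj' => hB.fst j' (hj'.trans hj))
      (fun j' hj' k l h1 h2 => hB.mon j' (hj'.trans hj) k l h1 h2) (fun j' hj' l hl => by
        have h3 := hB.siz j' (hj'.trans hj) l hl
        rw [← hζ]
        linarith) (fun j' hj' l h1 h2 => repX_mono (hB.rep i hi j hj j' hj' l h1 h2) (by
        rw [← hζ]
        exact hxζ))

end Pool.EXC33
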