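import Pool.Agent.H33.EXC.Rfs
import Pool.Agent.H33.EXC.Zmp
import Pool.Agent.H72.OWN.ExaS

/-!
# Exactness of the base given a further closed value, from the exactness behind records

`lnV`: a record which is a function of the line in a window. `RexS`: exactness behind the records
which have few bits given the exact point and the direction, in all subclasses. `HrcP`: the code and
the own heights of a column have few bits. `zmcp_place`: `ZmCp`.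
-/

set_option autoImplicit false

namespace Pool.EXC33

open Finset MvPolynomial
open Pool.Agent.H49.Ent Pool.Agent.H32.Dense Pool.STK Pool.KS3 Pool.STAT Pool.STAT.CLO Pool.MIC6
open Pool.KA Pool.KSAT Pool.PB Pool.GEN Pool.K2S Pool.S6C
open Pool.STAT.OKI (RefC hts ohg tw)
open Pool.CHT (TmH)
open Pool.REX (Vz)

variable {m : ℕ}

/-! ### Records -/

theorem slam_of {J : ℕ} {F : Fam m J} {w w' : ℕ} (hw : w ≤ w') (hw' : w' ≤ J) {ω ω' : F.Ω}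
    (h : slam F w' ω = slam F w' ω') : slam F w ω = slam F w ω' := by
  rw [slam_coarse F hw hw' ω, slam_coarse F hw hw' ω', h]

/-- The own heights are functions of the line in the window and of the code. -/
theorem hts_slam {J : ℕ} {F : Fam m J} {c : ℕ → Fin m} {n K w₀ z j : ℕ} {d : ℕ → ℕ → ℕ}
    {W : Type} {Rf : ℕ → W → ℕ → PN} {code : F.Ω → W} {w : ℕ} (hw : w₀ + j * z ≤ w) (hwJ : w ≤ J)
    {ω ω' : F.Ω} (h : slam F w ω = slam F w ω') (hc : code ω = code ω') :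
    hts F c n K w₀ z j d Rf code ω = hts F c n K w₀ z j d Rf code ω' := by
  funext j' a l
  have hj' : (j' : ℕ) ≤ j := by omega
  have h1 : w₀ + j' * z ≤ w := (Nat.add_le_add_left (Nat.mul_le_mul_right z hj') w₀).trans hw
  have h2 := slam_of h1 hwJ h
  have h3 : F.T1 (w₀ + j' * z) ω = F.T1 (w₀ + j' * z) ω' := congrArg (fun s => s.2.2) h2
  have h4 := slam_of ((Nat.le_add_right w₀ (j' * z)).trans h1) hwJ h
  have h5 : tw F (w₀ + j' * z) ω = tw F (w₀ + j' * z) ω' := by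
    unfold tw
    rw [h3]
  unfold hts ohg
  rw [h5, h4, hc]

open Classical in
/-- **A record** which is a function of the line in a window. -/
noncomputable def lnV (b : ℝ) (b0 : 0 ≤ b) (b1 : b < 1) (κ : ∀ J : ℕ, Fam m J → Type)
    (f : ∀ (J : ℕ) (F : Fam m J), F.Ω → κ J F) : Vz m where
  b := b
  p := 0
  b0 := b0
  b1 := b1
  p0 := le_rfl
  p1 := one_pos
  κ J F := Option (κ J F)
  y J F ω := if ∀ ω ω', slam F ⌊b * J⌋₊ ω = slam F ⌊b * J⌋₊ ω' → f J F ω = f J F ω' then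
    some (f J F ω) else none
  line J F ω ω' h := by
    split_ifs with h1
    · rw [h1 ω ω' h]
    · rfl

theorem lnV_y {b : ℝ} {b0 : 0 ≤ b} {b1 : b < 1} {κ : ∀ J : ℕ, Fam m J → Type}
    {f : ∀ (J : ℕ) (F : Fam m J), F.Ω → κ J F} {J : ℕ} {F : Fam m J}
    (h : ∀ ω ω', slam F ⌊b * J⌋₊ ω = slam F ⌊b * J⌋₊ ω' → f J F ω = f J F ω') :
    (lnV b b0 b1 κ f).y J F = fun ω => some (f J F ω) := by
  funext ω
  exact if_pos h

/-! ### Entropies -/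

section ent

variable {Ω V L Y D Z P W T : Type} [Fintype Ω] {q : Ω → ℝ}

/-- The exchange of the conditions. -/
theorem trade_core (hq : IsLaw q) (X : Ω → V) (lab : Ω → L) (y : Ω → Y) (dq : Ω → D) (zp : Ω → Z)
    (Wf : Ω → W) (t : Ω → T) (hT : ∀ ω ω', Wf ω = Wf ω' → t ω = t ω') {a : ℝ}
    (h1 : CH q lab y ≤ a) :
    CH q X (fun ω => (some (y ω, (dq ω, zp ω)), Wf ω)) - a ≤
      CH q X (fun ω => (lab ω, (dq ω, (zp ω, t ω)))) := by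
  have e1 := Pool.STAT.OKI.ch_trade hq X (fun ω => (lab ω, (dq ω, zp ω)))
    (fun ω => some (y ω, (dq ω, zp ω))) Wf
  have e2 : CH q (fun ω => (lab ω, (dq ω, zp ω))) (fun ω => some (y ω, (dq ω, zp ω))) ≤ a := by
    refine (CH_subadd hq.nonneg _ _ _).trans ?_
    have e3 : CH q (fun ω => (dq ω, zp ω)) (fun ω => some (y ω, (dq ω, zp ω))) = 0 :=
      CH_eq_zero hq.nonneg fun ω ω' _ _ h => by
        simp only [Option.some.injEq, Prod.mk.injEq] at h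
        exact Prod.ext h.2.1 h.2.2
    have e4 : CH q lab (fun ω => some (y ω, (dq ω, zp ω))) ≤ CH q lab y :=
      CH_mono_cond hq.nonneg fun ω ω' _ _ h => by
        simp only [Option.some.injEq, Prod.mk.injEq] at h
        exact h.1
    linarith
  have e5 : CH q X (fun ω => ((lab ω, (dq ω, zp ω)), Wf ω)) ≤
      CH q X (fun ω => (lab ω, (dq ω, (zp ω, t ω)))) :=
    CH_mono_cond hq.nonneg fun ω ω' _ _ h => by
      simp only [Prod.mk.injEq] at h ⊢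
      exact ⟨h.1.1, h.1.2.1, h.1.2.2, hT ω ω' h.2⟩
  linarith

/-- The bits of the record. -/
theorem rec_core (hq : IsLaw q) (lab : Ω → L) (y : Ω → Y) (dq : Ω → D) (zp : Ω → Z) (C : Ω → P)
    {a h : ℝ} (h1 : CH q lab y ≤ a) (h2 : CH q y C ≤ h)
    (h3 : ∀ ω ω', 0 < q ω → 0 < q ω' → C ω = C ω' → dq ω = dq ω')
    (h4 : ∀ ω ω', 0 < q ω → 0 < q ω' → C ω = C ω' → lab ω = lab ω' → zp ω = zp ω') :
    CH q (fun ω => some (y ω, (dq ω, zp ω))) C ≤ h + a := by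
  have e1 : CH q (fun ω => some (y ω, (dq ω, zp ω))) C ≤ CH q (fun ω => (lab ω, y ω)) C :=
    CH_mono_left hq.nonneg fun ω ω' a1 a2 hh => by
      simp only [Prod.mk.injEq] at hh
      simp only [Option.some.injEq, Prod.mk.injEq]
      exact ⟨hh.1.2, h3 ω ω' a1 a2 hh.2, h4 ω ω' a1 a2 hh.2 hh.1.1⟩
  have e2 := CH_chain hq.nonneg lab y C
  have e3 : CH q lab (fun ω => (y ω, C ω)) ≤ CH q lab y :=
    CH_mono_cond hq.nonneg fun ω ω' _ _ hh => (Prod.ext_iff.mp hh).1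
  linarith

end ent

/-! ### The hypotheses -/

/-- **Exactness behind records**, in all subclasses, for the windows in `(b₀, b₁)`. -/
def RexS (S : PCl m) (L : Finset (Fin m) → Fin m → ℝ → ℝ → ℝ) (c : ℕ → Fin m) (n₀ : ℕ)
    (b₀ b₁ P₀ η h : ℝ) : Prop :=
  ∀ S₁ : PCl m, S₁.Ne →
    (∀ (τ : ℝ) (J : ℕ) (F : Fam m J) (A : F.Ω → Prop), S₁.St τ J F A → S.St τ J F A) →
  ∀ v : Vz m, b₀ < v.b → v.b < b₁ →
    Bas S₁ (fun J F A => CH (Pool.Agent.H49.Ent.cond F.p A True) (v.y J F)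
      (fun ω => (F.D ⌊P₀ * J⌋₊ ω, (F.X J ω, F.W ω))) ≤ h * J) →
  ∃ S₂ : PCl m, S₂.Ne ∧
    (∀ (τ : ℝ) (J : ℕ) (F : Fam m J) (A : F.Ω → Prop), S₂.St τ J F A → S₁.St τ J F A) ∧
    ∀ ρ : ℝ, 0 < ρ → Bas S₂ (fun J F A =>
      ((∑ l ∈ range n₀, (1 - L ((range l).image c) (c l) v.b 0 - P₀)) - η - ρ) *
        Real.log 2 * J ≤
        CH (Pool.Agent.H49.Ent.cond F.p A True) (fun ω (l : Fin n₀) => F.X J ω (c l))
          (fun ω => (v.y J F ω, F.W ω)))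

variable {Θ : Type*} {n₀ : ℕ}

/-- The digits of the heights of a column. -/
noncomputable def dgh (Kt : KitP m Θ n₀) (p : Θ) (N M : ℕ) (Dn : ℕ → ℕ → ℝ) (i j J : ℕ)
    (j' l : ℕ) : ℕ :=
  ⌊(Dn j' l + ((Kt.y p).2 + i * msh (Kt.X p) N M - j * msh (Kt.X p) N M)) * J⌋₊

/-- The properties of the reference data of the column `j` of a place. -/
def RokP (Kt : KitP m Θ n₀) (N M : ℕ) (θ : ℝ) (p : Θ) (Dn : ℕ → ℕ → ℝ) (eb : ℕ → ℝ) (y κ ε : ℝ)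
    (j : ℕ) {J : ℕ} {F : Fam m J} (D : GDat F) (R : RfD F) (A : F.Ω → Prop) : Prop :=
  R.Ok D (Kt.cs p) (n₀ + 1) Kt.K (up (Kt.y p).1 J) (up (msh (Kt.X p) N M) J) M j
    (fun j l => (Dn j l - θ * msh (Kt.X p) N M) * J) (fun j l => Dn j l * J)
    (fun j l => Dn j l * J) (fun j => eb j * J) (y * J) (κ * msh (Kt.X p) N M * J)
    (Real.exp (ε * up (msh (Kt.X p) N M) J)) A

/-- The code of the column `j`. -/
noncomputable def cod (Kt : KitP m Θ n₀) (N M : ℕ) (p : Θ) (j : ℕ) {J : ℕ} {F : Fam m J} (R : RfD F) (ω : F.Ω) :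
    R.W :=
  R.cs (slam F (up (Kt.y p).1 J + j * up (msh (Kt.X p) N M) J) ω)

/-- The heights of the columns up to `j`, for the tube of the place `(i, j)`. -/
noncomputable def htz (Kt : KitP m Θ n₀) (N M : ℕ) (p : Θ) (Dn : ℕ → ℕ → ℝ) (i j : ℕ) {J : ℕ}
    {F : Fam m J} (R : RfD F) (ω : F.Ω) : Fin (j + 1) → Fin (Kt.K + 1) → Fin (n₀ + 1) → ℤ :=
  hts F (Kt.cs p) (n₀ + 1) Kt.K (up (Kt.y p).1 J) (up (msh (Kt.X p) N M) J) j
    (dgh Kt p N M Dn i j J) R.Rf (cod Kt N M p j R) ω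

/-- **The code and the own heights of the column `j` have few bits**, for the tube of the place
`(i, j)`. -/
def HrcP (Kt : KitP m Θ n₀) (S : PCl m) (K' s₁ : ℕ) (sh : ℕ → ℕ) (N M : ℕ) (θ : ℝ) (p : Θ)
    (b : ℕ → ℕ → ℕ → ℝ) (e : ℕ → ℕ → ℝ) (Dn : ℕ → ℕ → ℝ) (eb : ℕ → ℝ) (y κ ε : ℝ) (i j : ℕ)
    (P₀ : ℝ) : Prop :=
  ∀ S₁ : PCl m, S₁.Ne →
    (∀ (τ : ℝ) (J : ℕ) (F : Fam m J) (A : F.Ω → Prop), S₁.St τ J F A → S.St τ J F A) →
  ∀ (d : ∀ (J : ℕ) (F : Fam m J), GDat F) (R : ∀ (J : ℕ) (F : Fam m J), RfD F),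
    (∀ (τ : ℝ) (J : ℕ) (F : Fam m J) (A : F.Ω → Prop), S₁.St τ J F A →
      (Kt.grid K' s₁ sh p N M θ b e).Ok F (d J F) A ∧
      RokP Kt N M θ p Dn eb y κ ε j (d J F) (R J F) A) →
  ∀ h : ℝ, 0 < h → Bas S₁ (fun J F A => CH (Pool.Agent.H49.Ent.cond F.p A True)
    (fun ω => (cod Kt N M p j (R J F) ω, htz Kt N M p Dn i j (R J F) ω))
    (fun ω => (F.D ⌊P₀ * J⌋₊ ω, (F.X J ω, F.W ω))) ≤ h * J)

/-- **The numbers of a place**: the levels are `Dn j l` plus the tube; the joint property of the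
labels gives ball charts with these numbers. -/
structure NumZ (Kt : KitP m Θ n₀) (N M : ℕ) (θ : ℝ) (p : Θ) (Dn : ℕ → ℕ → ℝ) : Prop where
  y0 : 0 ≤ (Kt.y p).1
  X0 : 0 < Kt.X p
  yX : Kt.X p ≤ (Kt.y p).2
  N1 : 1 ≤ N
  top : (Kt.y p).1 + M * msh (Kt.X p) N M < 1
  inj : Inj (Kt.cs p) (n₀ + 1)
  lev : ∀ i ≤ M, ∀ j ≤ M, ∀ l < n₀ + 1, Kt.L p l ((Kt.y p).1 + (Kt.y p).2 + i * msh (Kt.X p) N M)
    ((Kt.y p).1 + j * msh (Kt.X p) N M) =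
      Dn j l + ((Kt.y p).2 + i * msh (Kt.X p) N M - j * msh (Kt.X p) N M)
  jnt : ∀ (J : ℕ) (F : Fam m J) (D : GDat F) (A : F.Ω → Prop), Kt.W p N M θ J F D A →
    ∃ (e₀ : ℕ → ℕ) (g₀ : ℕ → ℕ → ℕ) (G₀ : ℕ → PtT F → ℕ → MvPolynomial (Option (Fin m)) ℝ)
      (H₀ : ℕ → LnT F → ℕ → MvPolynomial (Option (Fin m)) ℝ),
      BalG D.G D.H (Kt.cs p) (n₀ + 1) Kt.K M (up (Kt.y p).1 J) (up (msh (Kt.X p) N M) J)
        (fun j l => (Dn j l - θ * msh (Kt.X p) N M) * J) (fun j l => Dn j l * J) e₀ g₀ G₀ H₀ A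
  sub : ∀ (J : ℕ) (F : Fam m J) (D : GDat F) (i j : ℕ), Subsingleton (Kt.RT p N M θ J F D i j)

/-- The meshes of a place. -/
theorem NumZ.msh_pos {Kt : KitP m Θ n₀} {N M : ℕ} {θ : ℝ} {p : Θ} {Dn : ℕ → ℕ → ℝ}
    (h : NumZ Kt N M θ p Dn) : 0 < msh (Kt.X p) N M := by
  have h1 : (N : ℝ) * ((M + 4) * msh (Kt.X p) N M) = Kt.X p := msh_mul h.N1
  have h2 := h.X0
  by_contra hc
  push Not at hc
  have h3 : (N : ℝ) * ((M + 4) * msh (Kt.X p) N M) ≤ 0 :=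
    mul_nonpos_of_nonneg_of_nonpos (Nat.cast_nonneg N)
      (mul_nonpos_of_nonneg_of_nonpos (by positivity) hc)
  linarith

/-- The tubes are at least four meshes. -/
theorem NumZ.tub {Kt : KitP m Θ n₀} {N M : ℕ} {θ : ℝ} {p : Θ} {Dn : ℕ → ℕ → ℝ}
    (h : NumZ Kt N M θ p Dn) (i : ℕ) {j : ℕ} (hj : j ≤ M) :
    4 * msh (Kt.X p) N M ≤ (Kt.y p).2 + i * msh (Kt.X p) N M - j * msh (Kt.X p) N M := by
  have h1 : (N : ℝ) * ((M + 4) * msh (Kt.X p) N M) = Kt.X p := msh_mul h.N1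
  have hm := h.msh_pos
  have hN0 : (1 : ℝ) ≤ N := by exact_mod_cast h.N1
  have hM0 : (0 : ℝ) ≤ M := Nat.cast_nonneg M
  have h2 : 1 * ((M + 4) * msh (Kt.X p) N M) ≤ N * ((M + 4) * msh (Kt.X p) N M) :=
    mul_le_mul_of_nonneg_right hN0 (by positivity)
  have h3 : (j : ℝ) * msh (Kt.X p) N M ≤ M * msh (Kt.X p) N M :=
    mul_le_mul_of_nonneg_right (by exact_mod_cast hj) hm.le
  have h4 : 0 ≤ (i : ℝ) * msh (Kt.X p) N M := by positivity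
  have h5 := h.yX
  linarith

/-- **The context has few bits** given the code and the own heights, for a class. -/
theorem ctx_cls (n₀ K K' s₁ : ℕ) (sh : ℕ → ℕ) (hK' : 1 ≤ K') : ∃ C : ℝ, 0 ≤ C ∧
    ∀ {m : ℕ} {Θ : Type*} {Kt : KitP m Θ n₀} {N M : ℕ} {θ : ℝ} {p : Θ} {Dn : ℕ → ℕ → ℝ}
    {b : ℕ → ℕ → ℕ → ℝ} {e : ℕ → ℕ → ℝ} {eb : ℕ → ℝ} {y κ ε h : ℝ} {i j : ℕ} {S₁ : PCl m}
    {d : ∀ (J : ℕ) (F : Fam m J), GDat F} {R : ∀ (J : ℕ) (F : Fam m J), RfD F}, Kt.K = K → 1 ≤ K →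
    NumZ Kt N M θ p Dn → Kt.Near p N M θ b e → 0 ≤ θ → θ ≤ 1 → 0 ≤ ε → i ≤ M → j ≤ M →
    (∀ (τ : ℝ) (J : ℕ) (F : Fam m J) (A : F.Ω → Prop), S₁.St τ J F A → 0 < Pe F.p A) →
    (∀ (τ : ℝ) (J : ℕ) (F : Fam m J) (A : F.Ω → Prop), S₁.St τ J F A →
      (Kt.grid K' s₁ sh p N M θ b e).Ok F (d J F) A ∧
      RokP Kt N M θ p Dn eb y κ ε j (d J F) (R J F) A) →
    ((M : ℝ) + 1) ^ 2 * (C * ((ε + 2 * θ) * msh (Kt.X p) N M)) < h →
    Bas S₁ (fun J F A => CH (Pool.Agent.H49.Ent.cond F.p A True)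
      (((d J F).cd (n₀ + 1) (Kt.rc p N M θ J F (d J F))).lab2 (up (Kt.y p).1 J)
        (up (msh (Kt.X p) N M) J) i j)
      (fun ω => (cod Kt N M p j (R J F) ω, htz Kt N M p Dn i j (R J F) ω)) ≤ h * J) := by
  obtain ⟨C, hC, hlab⟩ := Pool.STAT.OKI.lab_balC (n₀ + 1) K K' s₁ sh hK'
  refine ⟨C, hC, ?_⟩
  intro m Θ Kt N M θ p Dn b e eb y κ ε h i j S₁ d R hK hKK hz hnear hθ hθ1 hε hi hj hpos hok hh
  subst hK
  obtain ⟨ζ, hζ⟩ : ∃ ζ, ζ = msh (Kt.X p) N M := ⟨_, rfl⟩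
  obtain ⟨ϖ, hϖ⟩ : ∃ ϖ, ϖ = (Kt.y p).1 := ⟨_, rfl⟩
  have hζ0 : 0 < ζ := by rw [hζ]; exact hz.msh_pos
  have hϖ0 : 0 ≤ ϖ := by rw [hϖ]; exact hz.y0
  have hM0 : (0 : ℝ) ≤ M := Nat.cast_nonneg M
  have htop : ϖ + M * ζ < 1 := by rw [hϖ, hζ]; exact hz.top
  rw [← hζ] at hh
  -- large J
  obtain ⟨gap, hgap⟩ : ∃ gap, gap = h - ((M : ℝ) + 1) ^ 2 * (C * ((ε + 2 * θ) * ζ)) := ⟨_, rfl⟩
  have hgap0 : 0 < gap := by rw [hgap]; linarith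
  obtain ⟨J₁, hJ₁⟩ := exists_nat_ge (((M : ℝ) + 1) ^ 2 * (C * (ε + 3)) / gap)
  obtain ⟨J₂, hJ₂⟩ := exists_nat_ge (((M : ℝ) + 1) / (1 - (ϖ + M * ζ)))
  refine ⟨1, one_pos, max J₁ (max J₂ 1), fun J hJ F A hA => ?_⟩
  have hj1 : J₁ ≤ J := (le_max_left _ _).trans hJ
  have hj2 : J₂ ≤ J := ((le_max_left _ _).trans (le_max_right _ _)).trans hJ
  have hj3 : 1 ≤ J := ((le_max_right _ _).trans (le_max_right _ _)).trans hJ
  have hJ0 : (0 : ℝ) ≤ J := Nat.cast_nonneg J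
  obtain ⟨⟨hD, -⟩, hR⟩ := hok 1 J F A hA
  unfold RokP at hR
  rw [← hζ, ← hϖ] at hR
  have hq := isLaw_cond F.isLaw (hpos 1 J F A hA)
  have hA' : ∀ ω, 0 < Pool.Agent.H49.Ent.cond F.p A True ω → A ω := by
    intro ω hω
    by_contra hc
    unfold Pool.Agent.H49.Ent.cond at hω
    simp [hc] at hω
  have hup1 := up_le hϖ0 J
  have hup2 := up_le hζ0.le J
  have hwJ : up ϖ J + j * up ζ J ≤ J := by
    have a1 := hJ₂.trans (show (J₂ : ℝ) ≤ J by exact_mod_cast hj2)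
    rw [div_le_iff₀ (by linarith)] at a1
    have hjr : (j : ℝ) ≤ M := by exact_mod_cast hj
    have a2 : (j : ℝ) * (up ζ J : ℝ) ≤ M * (ζ * J + 1) :=
      mul_le_mul hjr hup2 (Nat.cast_nonneg _) hM0
    have : ((up ϖ J + j * up ζ J : ℕ) : ℝ) ≤ J := by
      push_cast
      linarith
    exact_mod_cast this
  obtain ⟨x, hx⟩ : ∃ x : ℕ, x = ⌈2 * (θ * ζ) * J⌉₊ + 1 := ⟨_, rfl⟩
  have hx1 : 2 * (θ * ζ) * J + 1 ≤ x := by
    rw [hx]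
    push_cast
    have := Nat.le_ceil (2 * (θ * ζ) * (J : ℝ))
    linarith
  have hx2 : (x : ℝ) ≤ 2 * (θ * ζ) * J + 2 := by
    rw [hx]
    push_cast
    have := (Nat.ceil_lt_add_one (show (0 : ℝ) ≤ 2 * (θ * ζ) * J by positivity)).le
    linarith
  -- the numbers
  have htub : ∀ i' j' : ℕ, j' ≤ M → 4 * ζ ≤ (Kt.y p).2 + i' * ζ - j' * ζ := by
    intro i' j' h1
    rw [hζ]
    exact hz.tub i' h1
  have hbl : ∀ i' ≤ M, ∀ j' ≤ M, ∀ l < n₀ + 1, b i' j' l ≤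
      Dn j' l + ((Kt.y p).2 + i' * ζ - j' * ζ) := by
    intro i' h1 j' h2 l h3
    have h4 := (hnear.up i' h1 j' h2 l h3).le
    have h5 := hz.lev i' h1 j' h2 l h3
    rw [h5] at h4
    rw [hζ]
    exact h4
  have hbg : ∀ i' ≤ M, ∀ j' ≤ M, ∀ l < n₀ + 1,
      Dn j' l + ((Kt.y p).2 + i' * ζ - j' * ζ) - θ * ζ ≤ b i' j' l := by
    intro i' h1 j' h2 l h3
    have h4 := hnear.lo i' h1 j' h2 l h3
    have h5 := hz.lev i' h1 j' h2 l h3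
    rw [h5] at h4
    rw [hζ]
    exact h4
  have hθζ : θ * ζ ≤ ζ := by
    have := mul_le_mul_of_nonneg_right hθ1 hζ0.le
    linarith
  have hDn : ∀ j' ≤ j, ∀ l < n₀ + 1, (Dn j' l - θ * ζ) * J ≤ ((R J F).g₀ j' l : ℝ) ∧
      ((R J F).g₀ j' l : ℝ) ≤ Dn j' l * J := by
    intro j' h1 l h2
    exact hR.bal.sd j' (h1.trans hj) l h2
  have hK1 : 1 ≤ Kt.K := hKK
  have key := hlab (m := m) (J := J) (F := F) (D := d J F) (c := Kt.cs p)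
    (j₀ := j) (ρ := Kt.rc p N M θ J F (d J F)) (q := Pool.Agent.H49.Ent.cond F.p A True)
    (x := x) (y := ε * up ζ J) (d := dgh Kt p N M Dn i j J) (i := i) (j := j)
    (w₀ := up ϖ J) (z := up ζ J) (M := M) (cp := (R J F).cp) (cs := (R J F).cs)
    (Rf := (R J F).Rf) (by rw [hϖ, hζ]; exact hD) hR.bal
    (fun j' s l => (hR.deg j' s l).trans hK1) hR.ref hz.inj
    (fun i' j' => hz.sub J F (d J F) i' j') hj hwJ hq hA' hi le_rfl (by positivity)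
    (fun i' hi' j' hj' l hl => ?_) (fun i' hi' j' hj' l hl k hk => ?_)
    (fun i' j' hj' hij l hl => ?_)
  · rw [hϖ, hζ] at key
    refine key.trans ?_
    have e1 := hJ₁.trans (show (J₁ : ℝ) ≤ J by exact_mod_cast hj1)
    rw [div_le_iff₀ hgap0] at e1
    rw [← hζ]
    have e2 : ε * (up ζ J : ℝ) ≤ ε * (ζ * J + 1) := mul_le_mul_of_nonneg_left hup2 hε
    have e3 : C * (ε * (up ζ J : ℝ) + x + 1) ≤ C * ((ε + 2 * θ) * ζ * J + (ε + 3)) := by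
      refine mul_le_mul_of_nonneg_left ?_ hC
      linarith
    have e4 := mul_le_mul_of_nonneg_left e3 (show (0 : ℝ) ≤ ((M : ℝ) + 1) ^ 2 by positivity)
    have e5 : ((M : ℝ) + 1) ^ 2 * (C * ((ε + 2 * θ) * ζ * J + (ε + 3))) =
        ((M : ℝ) + 1) ^ 2 * (C * ((ε + 2 * θ) * ζ)) * J + ((M : ℝ) + 1) ^ 2 * (C * (ε + 3)) := by
      ring
    have e6 : h * J = ((M : ℝ) + 1) ^ 2 * (C * ((ε + 2 * θ) * ζ)) * J + J * gap := by
      rw [hgap]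
      ring
    linarith
  · show (R J F).g₀ j' l ≤ ⌊b i' j' l * J⌋₊
    have hj'' : j' ≤ M := hj'.trans hj
    refine Nat.le_floor ((hDn j' hj' l hl).2.trans (mul_le_mul_of_nonneg_right ?_ hJ0))
    have h1 := hbg i' hi' j' hj'' l hl
    have h2 := htub i' j' hj''
    linarith
  · have hj'' : j' ≤ M := hj'.trans hj
    have hk' : k < n₀ + 1 := hk.trans hl
    show ⌊b i' j' l * J⌋₊ + (R J F).g₀ j' k ≤ (R J F).g₀ j' l + ⌊b i' j' k * J⌋₊ + x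
    have a0 : 0 ≤ b i' j' l * J := by
      have h1 := hbg i' hi' j' hj'' l hl
      have h2 := htub i' j' hj''
      have h3 := hDn j' hj' l hl
      have h4 : 0 ≤ Dn j' l * J := (Nat.cast_nonneg _).trans h3.2
      have h5 : Dn j' l * J ≤ b i' j' l * J := mul_le_mul_of_nonneg_right (by linarith) hJ0
      linarith
    have a1 : (⌊b i' j' l * J⌋₊ : ℝ) ≤ b i' j' l * J := Nat.floor_le a0
    have a2 := mul_le_mul_of_nonneg_right (hbl i' hi' j' hj'' l hl) hJ0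
    have a3 := hDn j' hj' k hk'
    have a4 := hDn j' hj' l hl
    have a5 : b i' j' k * J < ⌊b i' j' k * J⌋₊ + 1 := Nat.lt_floor_add_one _
    have a6 := mul_le_mul_of_nonneg_right (hbg i' hi' j' hj'' k hk') hJ0
    have : ((⌊b i' j' l * J⌋₊ + (R J F).g₀ j' k : ℕ) : ℝ) ≤
        (((R J F).g₀ j' l + ⌊b i' j' k * J⌋₊ + x : ℕ) : ℝ) := by
      push_cast
      have e1 : (Dn j' l + ((Kt.y p).2 + i' * ζ - j' * ζ)) * J =
        Dn j' l * J + ((Kt.y p).2 + i' * ζ - j' * ζ) * J := by ring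
      have e2 : (Dn j' k + ((Kt.y p).2 + i' * ζ - j' * ζ) - θ * ζ) * J =
        Dn j' k * J + ((Kt.y p).2 + i' * ζ - j' * ζ) * J - θ * ζ * J := by ring
      have e3 : (Dn j' l - θ * ζ) * J = Dn j' l * J - θ * ζ * J := by ring
      linarith
    exact_mod_cast this
  · have hi' : i' ≤ M := by omega
    have hj'' : j' ≤ M := hj'.trans hj
    show ⌊b i' j' l * J⌋₊ ≤ dgh Kt p N M Dn i j J j' l + x
    refine le_trans ?_ (Nat.le_add_right _ x)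
    unfold dgh
    rw [← hζ]
    refine Nat.floor_le_floor (mul_le_mul_of_nonneg_right ?_ hJ0)
    have h1 := hbl i' hi' j' hj'' l hl
    have h2 : (i' : ℝ) + j ≤ i + j' := by exact_mod_cast hij
    have h3 := mul_le_mul_of_nonneg_right h2 hζ0.le
    have e1 : ((i' : ℝ) + j) * ζ = i' * ζ + j * ζ := by ring
    have e2 : ((i : ℝ) + j') * ζ = i * ζ + j' * ζ := by ring
    linarith

/-- **The hypotheses of a place**, for all the records: the sizes, the exactness of the base in the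
windows and the charts of degree one. -/
structure PlcH (Kt : KitP m Θ n₀) (S : PCl m) (N M : ℕ) (θ : ℝ) (p : Θ) (Dn : ℕ → ℕ → ℝ)
    (eb : ℕ → ℝ) (y γ κ C₁ : ℝ) : Prop where
  tmh : TmH S
  num : NumZ Kt N M θ p Dn
  θ0 : 0 ≤ θ
  θκ : θ ≤ κ
  γ0 : 0 < γ
  win : (Kt.y p).1 + (M + 1) * msh (Kt.X p) N M + γ ≤ 1
  low : ∀ j ≤ M, ∀ l < n₀ + 1, msh (Kt.X p) N M + γ ≤ Dn j l
  siz : ∀ j ≤ M, ∀ l < n₀ + 1, Dn j l + eb j + 2 * msh (Kt.X p) N M + γ ≤ 1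
  exw : ∀ j ≤ M, Bas S fun J F A => ExW F A (fun l : Fin n₀ => Kt.cs p l)
    (up (Kt.y p).1 J + j * up (msh (Kt.X p) N M) J)
    ((∑ l ∈ range n₀, ((J : ℝ) - (⌊Dn j l * J⌋₊ : ℕ))) * Real.log 2 -
      κ * up (msh (Kt.X p) N M) J)
  cho : ChoW S (Kt.cs p) (n₀ + 1) M (Kt.y p).1 (msh (Kt.X p) N M) Dn eb y
    (κ * msh (Kt.X p) N M) C₁

/-- **The reference data of a column**, for a subclass with one datum. -/
theorem zrc_pre (n₀ K : ℕ) (hK1 : 1 ≤ K) {ε : ℝ} (hε : 0 < ε) : ∃ κ₀ : ℝ, 0 < κ₀ ∧ κ₀ ≤ 1 ∧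
    ∀ κ : ℝ, 0 < κ → κ ≤ κ₀ → ∀ {m : ℕ} {Θ : Type*} {Kt : KitP m Θ n₀} {S : PCl m} {K' s₁ : ℕ} {sh : ℕ → ℕ} {N M : ℕ}
    {θ : ℝ} {p : Θ} {Dn : ℕ → ℕ → ℝ} {eb : ℕ → ℝ} {y γ C₁ : ℝ}, Kt.K = K →
    PlcH Kt S N M θ p Dn eb y γ κ C₁ →
    ∀ (b : ℕ → ℕ → ℕ → ℝ) (e : ℕ → ℕ → ℝ) (j : ℕ), j ≤ M → ∀ S' : PCl m, S'.Ne →
    (∀ (τ : ℝ) (J : ℕ) (F : Fam m J) (A : F.Ω → Prop), S'.St τ J F A → S.St τ J F A) →
    ∀ d : ∀ (J : ℕ) (F : Fam m J), GDat F,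
    (∀ (τ : ℝ) (J : ℕ) (F : Fam m J) (A : F.Ω → Prop), S'.St τ J F A →
      (Kt.grid K' s₁ sh p N M θ b e).Ok F (d J F) A) →
    ∃ (S₁ : PCl m) (R : ∀ (J : ℕ) (F : Fam m J), RfD F), S₁.Ne ∧
      (∀ (τ : ℝ) (J : ℕ) (F : Fam m J) (A : F.Ω → Prop), S₁.St τ J F A → S'.St τ J F A) ∧
      ∀ (τ : ℝ) (J : ℕ) (F : Fam m J) (A : F.Ω → Prop), S₁.St τ J F A →
        (Kt.grid K' s₁ sh p N M θ b e).Ok F (d J F) A ∧
        RokP Kt N M θ p Dn eb y κ ε j (d J F) (R J F) A := by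
  obtain ⟨κ₀, hκ₀, hκ₀1, hrfd⟩ := rfd_cls (n₀ + 1) K (by omega) hK1 hε
  refine ⟨κ₀, hκ₀, hκ₀1, fun κ hκ hκκ => ?_⟩
  intro m Θ Kt S K' s₁ sh N M θ p Dn eb y γ C₁ hKK hP b e j hj S' hne hsub d hd
  subst hKK
  obtain ⟨ζ, hζ⟩ : ∃ ζ, ζ = msh (Kt.X p) N M := ⟨_, rfl⟩
  obtain ⟨ϖ, hϖ⟩ : ∃ ϖ, ϖ = (Kt.y p).1 := ⟨_, rfl⟩
  have hζ0 : 0 < ζ := by rw [hζ]; exact hP.num.msh_pos
  have hϖ0 : 0 ≤ ϖ := by rw [hϖ]; exact hP.num.y0
  have hjr : (j : ℝ) ≤ M := by exact_mod_cast hj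
  have hwin := hP.win
  rw [← hζ, ← hϖ] at hwin
  obtain ⟨S₁, R, hne₁, hsub₁, hR⟩ := hrfd κ hκ hκκ j (S := S) (c := Kt.cs p) (ϖ := ϖ) (ζ := ζ) (γ := γ)
    (b := Dn) (eb := eb) (y := y) (C₁ := C₁) hP.tmh hP.num.inj hϖ0 hζ0 hP.γ0 (by
      have e1 : ((j : ℝ) + 1) * ζ ≤ (M + 1) * ζ :=
        mul_le_mul_of_nonneg_right (by linarith) hζ0.le
      linarith) (fun j' hj' l hl => by
        rw [hζ]
        exact hP.low j' (hj'.trans hj) l hl) (fun j' hj' l hl => by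
        rw [hζ]
        exact hP.siz j' (hj'.trans hj) l hl) (fun j' hj' => by
        rw [hζ, hϖ]
        exact hP.exw j' (hj'.trans hj)) (by
        rw [hζ, hϖ]
        refine Bas.mono 0 hP.cho ?_
        rintro J - F A ⟨B, e', e'', g', G', H', h1, h2, h3, h3b, h4, h4b, h5⟩
        exact ⟨B, e', e'', g', G', H', h1, h2, fun j' hj' => h3 j' (hj'.trans hj),
          fun j' hj' => h3b j' (hj'.trans hj), fun j' hj' => h4 j' (hj'.trans hj),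
          fun j' hj' => h4b j' (hj'.trans hj), fun j' hj' => h5 j' (hj'.trans hj)⟩)
    K' s₁ sh (fun J => up ((Kt.y p).1 + (Kt.y p).2) J) M (fun J i j => ⌊e i j * J⌋₊)
    (fun J i j l => ⌊b i j l * J⌋₊) (fun J j l => (Dn j l - θ * ζ) * J)
    (fun J j l => Dn j l * J) hj (fun J j' _ l _ => by
      have hJ0 : (0 : ℝ) ≤ J := Nat.cast_nonneg J
      have e1 : θ * ζ ≤ κ * ζ := mul_le_mul_of_nonneg_right hP.θκ hζ0.le
      have e2 : 0 ≤ κ * ζ := by positivity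
      exact ⟨mul_le_mul_of_nonneg_right (by linarith) hJ0,
        mul_le_mul_of_nonneg_right (by linarith) hJ0⟩) S' hne hsub d (fun τ J F A hA => by
      obtain ⟨h1, h2⟩ := hd τ J F A hA
      have h3 := hP.num.jnt J F (d J F) A h2
      rw [hζ, hϖ]
      exact ⟨h1, h3⟩)
  refine ⟨S₁, R, hne₁, hsub₁, fun τ J F A hA => ⟨hd τ J F A (hsub₁ τ J F A hA), ?_⟩⟩
  have h1 := hR τ J F A hA
  unfold RokP
  rw [hζ, hϖ] at h1
  exact h1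

/-- **The record of a place**: the code, the heights, the digits of the direction and a further
value. -/
noncomputable def rcP (Kt : KitP m Θ n₀) (N M : ℕ) (p : Θ) (Dn : ℕ → ℕ → ℝ) (i j : ℕ)
    (R : ∀ (J : ℕ) (F : Fam m J), RfD F) (q : ℝ) {V : ∀ J : ℕ, Fam m J → Type}
    (zp : ∀ (J : ℕ) (F : Fam m J), F.Ω → V J F) (J : ℕ) (F : Fam m J) (ω : F.Ω) :
    ((R J F).W × (Fin (j + 1) → Fin (Kt.K + 1) → Fin (n₀ + 1) → ℤ)) × ((Fin m → ℤ) × V J F) :=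
  ((cod Kt N M p j (R J F) ω, htz Kt N M p Dn i j (R J F) ω), (F.D ⌊q * J⌋₊ ω, zp J F ω))

theorem rcP_line {Kt : KitP m Θ n₀} {N M : ℕ} {p : Θ} {Dn : ℕ → ℕ → ℝ} {i j : ℕ}
    {R : ∀ (J : ℕ) (F : Fam m J), RfD F} {q : ℝ} {V : ∀ J : ℕ, Fam m J → Type}
    {zp : ∀ (J : ℕ) (F : Fam m J), F.Ω → V J F} {J : ℕ} {F : Fam m J} {w : ℕ}
    (hw : up (Kt.y p).1 J + j * up (msh (Kt.X p) N M) J ≤ w) (hwJ : w ≤ J)
    (hz : ∀ ω ω', slam F w ω = slam F w ω' → zp J F ω = zp J F ω') (ω ω' : F.Ω)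
    (h : slam F w ω = slam F w ω') :
    rcP Kt N M p Dn i j R q zp J F ω = rcP Kt N M p Dn i j R q zp J F ω' := by
  have h1 : cod Kt N M p j (R J F) ω = cod Kt N M p j (R J F) ω' := by
    unfold cod
    rw [slam_of hw hwJ h]
  have h2 : F.l ω = F.l ω' := congrArg (fun s => s.1) h
  have h3 : F.d ω = F.d ω' := congrArg (fun s => s.2) h2
  unfold rcP
  refine Prod.ext (Prod.ext h1 ?_) (Prod.ext ?_ (hz ω ω' h))
  · exact hts_slam hw hwJ h h1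
  · show F.D ⌊q * J⌋₊ ω = F.D ⌊q * J⌋₊ ω'
    unfold Fam.D
    rw [h3]

/-- A place of `ZmCp`, with the explicit bound `ξ`. -/
def ZmQ (Kt : KitP m Θ n₀) (S : PCl m) (K' s₁ : ℕ) (sh : ℕ → ℕ) (N M : ℕ) (θ : ℝ) (p : Θ)
    (ka ξ : ℝ) (b : ℕ → ℕ → ℕ → ℝ) (e : ℕ → ℕ → ℝ) (i j : ℕ) : Prop :=
  ∀ S' : PCl m, S'.Ne →
    (∀ (τ : ℝ) (J : ℕ) (F : Fam m J) (A : F.Ω → Prop), S'.St τ J F A → S.St τ J F A) →
    ∀ d : ∀ (J : ℕ) (F : Fam m J), GDat F,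
    (∀ (τ : ℝ) (J : ℕ) (F : Fam m J) (A : F.Ω → Prop), S'.St τ J F A →
      (Kt.grid K' s₁ sh p N M θ b e).Ok F (d J F) A) →
    ∀ wp : ℝ, (Kt.y p).1 + j * msh (Kt.X p) N M < wp →
      wp < (Kt.y p).1 + j * msh (Kt.X p) N M + ξ →
    ∀ q : ℝ, 0 < q → q < (Kt.y p).2 + i * msh (Kt.X p) N M - j * msh (Kt.X p) N M + ξ →
    ∀ (V : ∀ (J : ℕ), Fam m J → Type) (z : ∀ (J : ℕ) (F : Fam m J), PtT F →
      (((i' j' : ℕ) → Option (((d J F).cd (n₀ + 1) (Kt.rc p N M θ J F (d J F))).V i' j')) × ℕ) →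
        (Fin m → ℤ) → V J F) (z' : ∀ (J : ℕ) (F : Fam m J), LnT F → V J F),
    (∀ (τ : ℝ) (J : ℕ) (F : Fam m J) (A : F.Ω → Prop), S'.St τ J F A → ∀ ω, A ω →
      z J F (ptr F J ω) (((d J F).cd (n₀ + 1) (Kt.rc p N M θ J F (d J F))).lab2
        (up (Kt.y p).1 J) (up (msh (Kt.X p) N M) J) i j ω) (F.D ⌊q * J⌋₊ ω) =
        z' J F (slam F ⌊wp * J⌋₊ ω)) →
    ∃ S'' : PCl m, S''.Ne ∧ (∀ (τ : ℝ) (J : ℕ) (F : Fam m J) (A : F.Ω → Prop),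
      S''.St τ J F A → S'.St τ J F A) ∧ ∀ ρ : ℝ, 0 < ρ → Bas S'' (fun J F A =>
        ((∑ l ∈ range n₀, (1 - Kt.L p l ((Kt.y p).1 + (Kt.y p).2 + i * msh (Kt.X p) N M)
          ((Kt.y p).1 + j * msh (Kt.X p) N M))) - ka * msh (Kt.X p) N M - ρ) *
            Real.log 2 * J ≤
          CH (Pool.Agent.H49.Ent.cond F.p A True) (fun ω (l : Fin n₀) => F.X J ω (Kt.cs p l))
            (fun ω => (((d J F).cd (n₀ + 1) (Kt.rc p N M θ J F (d J F))).lab2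
              (up (Kt.y p).1 J) (up (msh (Kt.X p) N M) J) i j ω,
              (F.D ⌊q * J⌋₊ ω, (z' J F (slam F ⌊wp * J⌋₊ ω), F.T ω)))))

/-- `ZmCp` with the explicit bound `ξ`. -/
def ZmCe (Kt : KitP m Θ n₀) (S : PCl m) (K' s₁ : ℕ) (sh : ℕ → ℕ) (N M : ℕ) (θ : ℝ) (p : Θ)
    (ka ξ : ℝ) : Prop :=
  ∀ (b : ℕ → ℕ → ℕ → ℝ) (e : ℕ → ℕ → ℝ), Kt.Near p N M θ b e →
    ∀ i ≤ M, ∀ j ≤ M, ZmQ Kt S K' s₁ sh N M θ p ka ξ b e i j

theorem ZmCe.zmcp {Kt : KitP m Θ n₀} {S : PCl m} {K' s₁ : ℕ} {sh : ℕ → ℕ} {N M : ℕ} {θ : ℝ}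
    {p : Θ} {ka ξ : ℝ} (h : ZmCe Kt S K' s₁ sh N M θ p ka ξ) (hξ : 0 < ξ) :
    ZmCp Kt S K' s₁ sh N M θ p ka :=
  fun b e hb i hi j hj => ⟨ξ, hξ, h b e hb i hi j hj⟩

/-- The levels of the base at a place. -/
theorem lev_sum {Kt : KitP m Θ n₀} {N M : ℕ} {θ : ℝ} {p : Θ} {Dn : ℕ → ℕ → ℝ}
    (hz : NumZ Kt N M θ p Dn) {i j : ℕ} (hi : i ≤ M) (hj : j ≤ M)
    {L : Finset (Fin m) → Fin m → ℝ → ℝ → ℝ} {wp P₀ σ η h ka : ℝ}
    (hlev : ∀ l < n₀, L ((range l).image (Kt.cs p)) (Kt.cs p l) wp 0 ≤ Dn j l + σ)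
    (hsum : n₀ * (σ + (P₀ - ((Kt.y p).2 + i * msh (Kt.X p) N M - j * msh (Kt.X p) N M))) + η +
      h / Real.log 2 ≤ ka * msh (Kt.X p) N M) :
    (∑ l ∈ range n₀, (1 - Kt.L p l ((Kt.y p).1 + (Kt.y p).2 + i * msh (Kt.X p) N M)
      ((Kt.y p).1 + j * msh (Kt.X p) N M))) - ka * msh (Kt.X p) N M + h / Real.log 2 ≤
      (∑ l ∈ range n₀, (1 - L ((range l).image (Kt.cs p)) (Kt.cs p l) wp 0 - P₀)) - η := by
  have h1 : ∑ l ∈ range n₀, (1 - Kt.L p l ((Kt.y p).1 + (Kt.y p).2 + i * msh (Kt.X p) N M)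
      ((Kt.y p).1 + j * msh (Kt.X p) N M)) ≤
      ∑ l ∈ range n₀, ((1 - L ((range l).image (Kt.cs p)) (Kt.cs p l) wp 0 - P₀) +
        (σ + (P₀ - ((Kt.y p).2 + i * msh (Kt.X p) N M - j * msh (Kt.X p) N M)))) := by
    refine Finset.sum_le_sum fun l hl => ?_
    have hl' : l < n₀ := Finset.mem_range.1 hl
    rw [hz.lev i hi j hj l (by omega)]
    have h2 := hlev l hl'
    linarith
  rw [Finset.sum_add_distrib, Finset.sum_const, Finset.card_range, nsmul_eq_mul] at h1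
  linarith

end Pool.EXC33
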