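import Pool.Agent.H33.EXC.Zrb

/-!
# `ZmC` at a box

`box_rex`: the numbers for the exactness behind records. `zmc_box`: `ZmC` from `BoxZ` and
`RecExa`.
-/

set_option autoImplicit false

namespace Pool.EXC33

open Finset MvPolynomial
open Pool.Agent.H49.Ent Pool.Agent.H32.Dense Pool.STK Pool.KS3 Pool.STAT Pool.STAT.CLO Pool.MIC6
open Pool.KA Pool.KSAT Pool.PB Pool.GEN Pool.K2S Pool.S6C
open Pool.STAT.OKI (RefC hts ohg tw)
open Pool.CHT (TmH)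
open Pool.REX (Vz)
open Pool.OWN72 (HasA HasB RepX ClA NrD RecExa img hrc)
open Pool.JVE (cI)

variable {m n₀ : ℕ} {Θ : Type*}

/-- **The numbers at a place** of a box: `ξ = 4 xr msh`, `η = ka msh / 4`. -/
theorem box_num {Kt : KitP m Θ n₀} {S : PCl m} {L : Finset (Fin m) → Fin m → ℝ → ℝ → ℝ}
    (hL : LamW S L) {N M : ℕ} {θ : ℝ} {p : Θ} {Dn : ℕ → ℕ → ℝ} {be co K₁ K₀ δ E ka xr : ℝ}
    (hz : NumZ Kt N M θ p Dn) (hbe : 0 < be) (hbe1 : be ≤ 1)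
    (hka : 0 < ka) (hka1 : ka ≤ 1) (hxr : xr = be * ka / (64 * (n₀ + 1))) (hK₀ : 0 < K₀)
    (hK₁ : 4 * K₀ + 4 ≤ K₁) (hδ0 : 0 ≤ δ) (hδ1 : δ ≤ be * ka / (32 * (n₀ + 1)))
    (hδ2 : K₀ * δ ≤ ka / 4) (hX : Kt.X p ≤ co / 16)
    (hact : ∀ w : ℝ, 0 ≤ w → w < 1 → L ∅ (Kt.cs p 0) w 0 ≤ w)
    (hB : BoxZ Kt S L N M p Dn be co K₁ δ E) {i j : ℕ} (hi : i ≤ M) (hj : j ≤ M) :
    ∃ (Wd : Set ℝ) (g R d : ℝ) (Dg sl : ℕ → ℝ) (σ : ℝ),
      NrD S L (Kt.cs p) n₀ Wd g R d be co Dg sl ∧ 0 ≤ d ∧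
      g + ka * msh (Kt.X p) N M / 4 ≤ (Kt.y p).1 + j * msh (Kt.X p) N M ∧
      (Kt.y p).1 + j * msh (Kt.X p) N M + 4 * (xr * msh (Kt.X p) N M) +
        K₀ * (((Kt.y p).2 + i * msh (Kt.X p) N M - j * msh (Kt.X p) N M +
          8 * (xr * msh (Kt.X p) N M)) + ka * msh (Kt.X p) N M / 4) ≤ g + R ∧
      K₀ * d ≤ ka * msh (Kt.X p) N M / 4 ∧
      (∀ w : ℝ, (Kt.y p).1 + j * msh (Kt.X p) N M < w →
        w < (Kt.y p).1 + j * msh (Kt.X p) N M + 4 * (xr * msh (Kt.X p) N M) → ∀ l < n₀,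
          L ((range l).image (Kt.cs p)) (Kt.cs p l) w 0 ≤ Dn j l + σ) ∧
      n₀ * (σ + 8 * (xr * msh (Kt.X p) N M)) + ka * msh (Kt.X p) N M / 4 +
        ka * msh (Kt.X p) N M / 4 ≤ ka * msh (Kt.X p) N M ∧
      4 * (xr * msh (Kt.X p) N M) ≤ co / 4 ∧
      (Kt.y p).2 + i * msh (Kt.X p) N M - j * msh (Kt.X p) N M +
          8 * (xr * msh (Kt.X p) N M) + ka * msh (Kt.X p) N M / 4 ≤ 4 * Kt.X p ∧
      0 ≤ (Kt.y p).2 + i * msh (Kt.X p) N M - j * msh (Kt.X p) N M +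
          8 * (xr * msh (Kt.X p) N M) ∧
      (Kt.y p).1 + j * msh (Kt.X p) N M + 4 * (xr * msh (Kt.X p) N M) ≤ 1 := by
  have hN1 := hz.N1
  have hNr : (1 : ℝ) ≤ N := by exact_mod_cast hN1
  have hM0 : (0 : ℝ) ≤ M := Nat.cast_nonneg M
  have hn0 : (0 : ℝ) ≤ n₀ := Nat.cast_nonneg n₀
  obtain ⟨ζ, hζ⟩ : ∃ ζ, ζ = msh (Kt.X p) N M := ⟨_, rfl⟩
  have hζ0 : 0 < ζ := by rw [hζ]; exact hz.msh_pos
  have hXζ : (N : ℝ) * ((M + 4) * ζ) = Kt.X p := by rw [hζ]; exact msh_mul hN1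
  have hX4 : (M + 4) * ζ ≤ Kt.X p := by
    have : 1 * ((M + 4) * ζ) ≤ N * ((M + 4) * ζ) :=
      mul_le_mul_of_nonneg_right hNr (by positivity)
    linarith
  have hMζ : 0 ≤ (M : ℝ) * ζ := by positivity
  have hζX : M * ζ + 4 * ζ ≤ Kt.X p := by linarith
  have hmul : ∀ j : ℕ, j ≤ M → (j : ℝ) * ζ ≤ M * ζ := fun j hj =>
    mul_le_mul_of_nonneg_right (by exact_mod_cast hj) hζ0.le
  have hmul0 : ∀ j : ℕ, 0 ≤ (j : ℝ) * ζ := fun j => by positivity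
  have hi1 := hmul i hi
  have hj1 := hmul j hj
  have hi0 := hmul0 i
  have hj0 := hmul0 j
  have hg0 := hB.g0
  have hE0 := hB.E0
  have hy2' := hB.y2
  have hsM := hB.siz M le_rfl 0 (by omega)
  rw [hB.fst M le_rfl, ← hζ] at hsM
  obtain ⟨Wd, g, R, d, Dg, sl, hN, hd0, hd1, hg1, hg2, hDn⟩ := hB.nrd
  rw [← hζ] at hd1
  -- the small numbers
  have hxr0 : 0 < xr := by rw [hxr]; positivity
  have hxe : xr * (64 * (n₀ + 1)) = be * ka := by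
    rw [hxr]
    field_simp
  have hbk : be * ka ≤ ka := by
    have : be * ka ≤ 1 * ka := mul_le_mul_of_nonneg_right hbe1 hka.le
    linarith
  have hxr64 : 64 * xr ≤ be * ka := by
    have : 0 ≤ xr * (64 * n₀) := by positivity
    linarith
  have hxζ : 64 * (xr * ζ) ≤ be * ka * ζ := by
    have := mul_le_mul_of_nonneg_right hxr64 hζ0.le
    linarith
  have hxζ0 : 0 < xr * ζ := by positivity
  have hbkζ : be * ka * ζ ≤ ka * ζ := mul_le_mul_of_nonneg_right hbk hζ0.le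
  have hkaζ : ka * ζ ≤ ζ := by
    have : ka * ζ ≤ 1 * ζ := mul_le_mul_of_nonneg_right hka1 hζ0.le
    linarith
  have hkaζ0 : 0 < ka * ζ := by positivity
  have hδe : δ * (32 * (n₀ + 1)) ≤ be * ka := by
    rwa [le_div_iff₀ (by positivity)] at hδ1
  have hδζ : 32 * (δ * ζ) ≤ be * ka * ζ := by
    have h1 : 0 ≤ δ * (32 * n₀) := by positivity
    have h2 : 32 * δ ≤ be * ka := by linarith
    have := mul_le_mul_of_nonneg_right h2 hζ0.le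
    linarith
  obtain ⟨σ, hσ⟩ : ∃ σ, σ = (2 * (4 * (xr * ζ)) + 2 * d) / be + 2 * d := ⟨_, rfl⟩
  refine ⟨Wd, g, R, d, Dg, sl, σ, hN, hd0, ?_, ?_, ?_, ?_, ?_, ?_, ?_, ?_, ?_⟩
  · rw [← hζ]
    linarith
  · rw [← hζ]
    have h1 : (Kt.y p).2 + i * ζ - j * ζ + 8 * (xr * ζ) + ka * ζ / 4 ≤ 4 * Kt.X p := by
      linarith
    have h2 := mul_le_mul_of_nonneg_left h1 hK₀.le
    have h3 : (4 * K₀ + 4) * Kt.X p ≤ K₁ * Kt.X p :=
      mul_le_mul_of_nonneg_right hK₁ hz.X0.le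
    have h4 : (4 * K₀ + 4) * Kt.X p = K₀ * (4 * Kt.X p) + 4 * Kt.X p := by ring
    linarith
  · rw [← hζ]
    have h1 : K₀ * d ≤ K₀ * (δ * ζ) := mul_le_mul_of_nonneg_left hd1 hK₀.le
    have h2 : K₀ * δ * ζ ≤ ka / 4 * ζ := mul_le_mul_of_nonneg_right hδ2 hζ0.le
    have h3 : K₀ * (δ * ζ) = K₀ * δ * ζ := by ring
    linarith
  · intro w hw hw' l hl
    rw [← hζ] at hw hw'
    rw [hσ]
    refine lev_nrd hL hN hbe hbe1 hd0 hact (w₁ := (Kt.y p).1 + j * ζ) (ξ := 4 * (xr * ζ))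
      (by linarith [hz.X0]) ?_ (by rw [hB.fst j hj, ← hζ]) (fun l h1 h2 => by
        have := hDn j hj l h1 h2
        rwa [← hζ] at this) hw hw' (by linarith) hl
    have h3 : (4 * K₀ + 4) * Kt.X p ≤ K₁ * Kt.X p :=
      mul_le_mul_of_nonneg_right hK₁ hz.X0.le
    have h4 : (4 * K₀ + 4) * Kt.X p = K₀ * (4 * Kt.X p) + 4 * Kt.X p := by ring
    have h5 : 0 ≤ K₀ * (4 * Kt.X p) := mul_nonneg hK₀.le (by linarith [hz.X0])
    linarith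
  · rw [← hζ]
    -- `n₀ σ`
    have hdb : d ≤ d / be := by
      rw [le_div_iff₀ hbe]
      have : d * be ≤ d * 1 := mul_le_mul_of_nonneg_left hbe1 hd0
      linarith
    have hxb : xr * ζ ≤ xr * ζ / be := by
      rw [le_div_iff₀ hbe]
      have : xr * ζ * be ≤ xr * ζ * 1 := mul_le_mul_of_nonneg_left hbe1 hxζ0.le
      linarith
    have h1 : σ + 8 * (xr * ζ) ≤ (16 * (xr * ζ) + 4 * d) / be := by
      rw [hσ]
      have e1 : (2 * (4 * (xr * ζ)) + 2 * d) / be = 8 * (xr * ζ / be) + 2 * (d / be) := by ring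
      have e2 : (16 * (xr * ζ) + 4 * d) / be = 16 * (xr * ζ / be) + 4 * (d / be) := by ring
      rw [e1, e2]
      linarith
    have h2 := mul_le_mul_of_nonneg_left h1 hn0
    have h3 : n₀ * ((16 * (xr * ζ) + 4 * d) / be) ≤ 3 / 8 * (ka * ζ) := by
      rw [mul_div_assoc', div_le_iff₀ hbe]
      have e1 : (n₀ : ℝ) * (16 * (xr * ζ)) ≤ be * ka * ζ / 4 := by
        have a1 : 0 ≤ xr * ζ := hxζ0.le
        have a2 : xr * (64 * (n₀ + 1)) * ζ = be * ka * ζ := by rw [hxe]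
        have a3 : xr * (64 * (n₀ + 1)) * ζ = 64 * n₀ * (xr * ζ) + 64 * (xr * ζ) := by ring
        have a4 : (n₀ : ℝ) * (16 * (xr * ζ)) = 64 * n₀ * (xr * ζ) / 4 := by ring
        linarith
      have e2 : (n₀ : ℝ) * (4 * d) ≤ be * ka * ζ / 8 := by
        have a1 := mul_le_mul_of_nonneg_left hd1 (show (0 : ℝ) ≤ 32 * (n₀ + 1) by positivity)
        have a2 := mul_le_mul_of_nonneg_right hδe hζ0.le
        have a3 : 32 * ((n₀ : ℝ) + 1) * (δ * ζ) = δ * (32 * (n₀ + 1)) * ζ := by ring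
        have a4 : 32 * ((n₀ : ℝ) + 1) * d = 8 * (n₀ * (4 * d)) + 32 * d := by ring
        linarith
      have e3 : (n₀ : ℝ) * (16 * (xr * ζ) + 4 * d) = n₀ * (16 * (xr * ζ)) + n₀ * (4 * d) := by
        ring
      have e4 : 3 / 8 * (ka * ζ) * be = be * ka * ζ / 4 + be * ka * ζ / 8 := by ring
      rw [e3, e4]
      linarith
    linarith
  · rw [← hζ]
    linarith
  · rw [← hζ]
    linarith
  · rw [← hζ]
    linarith
  · rw [← hζ]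
    linarith

/-- **`ZmC` at a box**, from the exactness behind records without bits. -/
theorem zmc_box (m n₀ K K' s₁ : ℕ) (sh : ℕ → ℕ) (hn1 : 1 ≤ n₀) (hK1 : 1 ≤ K) (hK' : 1 ≤ K')
    (hR : RecExa m n₀) {al : ℝ} {g₀ : ℝ → ℝ} (hal : 0 < al) (hg₀ : ∀ e, 0 < e → 0 < g₀ e)
    {be co : ℝ} (hbe : 0 < be) (hbe1 : be ≤ 1) (hco : 0 < co) (N M : ℕ) (hN : 1 ≤ N) {ka : ℝ}
    (hka : 0 < ka) :
    ∃ K₁ δ θ₀ X₀ : ℝ, 0 < K₁ ∧ 0 < δ ∧ 0 < θ₀ ∧ 0 < X₀ ∧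
    ∀ {Θ : Type*} {Kt : KitP m Θ n₀} {S : PCl m} {C₀ : ℝ}
    {L : Finset (Fin m) → Fin m → ℝ → ℝ → ℝ} {Na : ℚ → ℚ → ℝ} {θ : ℝ} {p : Θ}
    {Dn : ℕ → ℕ → ℝ} {E : ℝ}, Kt.K = K → TmH S → 0 ≤ C₀ → TmC S C₀ → LamW S L →
    (∀ k ≤ n₀, FZX k) → ActM Na al g₀ → ActB Na S (Kt.cs p 0) →
    (∀ w : ℝ, 0 ≤ w → w < 1 → L ∅ (Kt.cs p 0) w 0 ≤ w) →
    NumZ Kt N M θ p Dn → BoxZ Kt S L N M p Dn be co K₁ δ E → 0 ≤ θ → θ ≤ θ₀ → Kt.X p ≤ X₀ →
    ZmC Kt S K' s₁ sh N M θ p ka := by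
  obtain ⟨k, hk⟩ : ∃ k, k = min ka 1 := ⟨_, rfl⟩
  have hk0 : 0 < k := by rw [hk]; exact lt_min hka one_pos
  have hk1 : k ≤ 1 := by rw [hk]; exact min_le_right _ _
  have hkk : k ≤ ka := by rw [hk]; exact min_le_left _ _
  have hn0 : (0 : ℝ) ≤ n₀ := Nat.cast_nonneg n₀
  have hM0 : (0 : ℝ) ≤ M := Nat.cast_nonneg M
  have hNr : (1 : ℝ) ≤ N := by exact_mod_cast hN
  have hl2 : 0 < Real.log 2 := Real.log_pos one_lt_two
  obtain ⟨C, hC, hplace⟩ := zmc_place n₀ K K' s₁ sh hK1 hK'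
  obtain ⟨θR, hθR⟩ : ∃ θR : ℝ, θR = k / (16 * (N * (M + 4))) := ⟨_, rfl⟩
  have hNM : 0 < (N : ℝ) * (M + 4) := by positivity
  have hθR0 : 0 < θR := by rw [hθR]; positivity
  obtain ⟨K₀, r₀, hK₀, hr₀, hrex⟩ := rexZ_of hR hal hg₀ hbe hco hθR0
  obtain ⟨xr, hxr⟩ : ∃ xr : ℝ, xr = be * k / (64 * (n₀ + 1)) := ⟨_, rfl⟩
  have hxr0 : 0 < xr := by rw [hxr]; positivity
  have hbk : be * k ≤ 1 := by
    have : be * k ≤ 1 * 1 := mul_le_mul hbe1 hk1 hk0.le one_pos.le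
    linarith
  have hxr1 : xr ≤ 1 / 16 := by
    rw [hxr, div_le_div_iff₀ (by positivity) (by norm_num)]
    linarith
  obtain ⟨ε, hε, hpre⟩ := box_pre n₀ K K' s₁ sh hn1 hC
    (show 0 < k * Real.log 2 / 4 by positivity) hxr0 hxr1 hco M
  obtain ⟨κ₀, hκ₀, hκ₀1, hpl⟩ := hplace ε hε
  obtain ⟨κ, δ₁, θ₀, y, hκ0, hκκ, hδ₁, hθ₀, hbox⟩ := hpre κ₀ hκ₀
  obtain ⟨δ, hδ⟩ : ∃ δ, δ = min δ₁ (min (be * k / (32 * (n₀ + 1))) (k / (4 * K₀))) := ⟨_, rfl⟩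
  have hδ0 : 0 < δ := by
    rw [hδ]
    exact lt_min hδ₁ (lt_min (by positivity) (by positivity))
  have hδ1 : δ ≤ δ₁ := by rw [hδ]; exact min_le_left _ _
  have hδ2 : δ ≤ be * k / (32 * (n₀ + 1)) := by
    rw [hδ]
    exact (min_le_right _ _).trans (min_le_left _ _)
  have hδ3 : K₀ * δ ≤ k / 4 := by
    have h1 : δ ≤ k / (4 * K₀) := by
      rw [hδ]
      exact (min_le_right _ _).trans (min_le_right _ _)
    rw [le_div_iff₀ (by positivity)] at h1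
    linarith
  refine ⟨4 * K₀ + 4, δ, θ₀, min (min (co / 16) (1 / 16)) (r₀ / 4), by positivity, hδ0, hθ₀,
    lt_min (lt_min (by linarith) (by norm_num)) (by linarith), ?_⟩
  intro Θ Kt S C₀ L Na θ p Dn E hKK htmh hC₀ htmc hL hF hM hBq hact hz hB hθ0 hθθ hX
  have hX1 : Kt.X p ≤ co / 16 := hX.trans ((min_le_left _ _).trans (min_le_left _ _))
  have hX2 : Kt.X p ≤ 1 / 16 := hX.trans ((min_le_left _ _).trans (min_le_right _ _))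
  have hX3 : 4 * Kt.X p ≤ r₀ := by
    have := hX.trans (min_le_right _ _)
    linarith
  have hζ0 := hz.msh_pos
  have hXζ : (N : ℝ) * ((M + 4) * msh (Kt.X p) N M) = Kt.X p := msh_mul hN
  have hactF : Pool.MIC6.ActF S (Kt.cs p 0) := by
    obtain ⟨Wd, g, R, d, Dg, sl, hN, -⟩ := hB.nrd
    exact hN.aff.act
  obtain ⟨hP, hh, hH⟩ := hbox hKK htmh htmc hactF hz hB hδ0.le hδ1 hθ0 hθθ hX1 hX2
  refine ZmC.mono (ka := k) ?_ hkk hζ0.le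
  rw [zmC_iff]
  intro b e hnear i hi j hj
  obtain ⟨Wd, g, R, d, Dg, sl, σ, hN, hd0, a1, a2, a3, a4, a5, a6, a7, a8, a9⟩ :=
    box_num hL hz hbe hbe1 hk0 hk1 hxr hK₀ le_rfl hδ0.le hδ2 hδ3 hX1 hact hB hi hj
  have hη0 : 0 < k * msh (Kt.X p) N M / 4 := by positivity
  have hrz := hrex hC₀ htmc htmh.1 hL hF hM hBq hd0 hN (b₀ := (Kt.y p).1 + j * msh (Kt.X p) N M)
    (b₁ := (Kt.y p).1 + j * msh (Kt.X p) N M + 4 * (xr * msh (Kt.X p) N M))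
    (P₀ := (Kt.y p).2 + i * msh (Kt.X p) N M - j * msh (Kt.X p) N M +
      8 * (xr * msh (Kt.X p) N M)) (η := k * msh (Kt.X p) N M / 4) a1 a2 a8 hη0 (a7.trans hX3) (by
      have h1 := mul_le_mul_of_nonneg_left a7 hθR0.le
      have e0 : θR * (16 * (N * (M + 4))) = k := by
        rw [hθR]
        exact div_mul_cancel₀ k (by positivity)
      have e1 : 4 * Kt.X p = 4 * (N * ((M + 4) * msh (Kt.X p) N M)) := by rw [hXζ]
      have e2 : θR * (4 * (N * ((M + 4) * msh (Kt.X p) N M))) =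
        θR * (16 * (N * (M + 4))) * msh (Kt.X p) N M / 4 := by ring
      have h2 : θR * (4 * Kt.X p) = k * msh (Kt.X p) N M / 4 := by
        rw [e1, e2, e0]
      linarith) a3
  have e1 : k * Real.log 2 / 4 * msh (Kt.X p) N M / Real.log 2 = k * msh (Kt.X p) N M / 4 := by
    field_simp
  exact hpl κ hκ0 hκκ hKK hP hnear hi hj hh (by positivity) a6 (by
    rw [e1]
    have e2 : (Kt.y p).2 + i * msh (Kt.X p) N M - j * msh (Kt.X p) N M +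
      8 * (xr * msh (Kt.X p) N M) - ((Kt.y p).2 + i * msh (Kt.X p) N M -
        j * msh (Kt.X p) N M) = 8 * (xr * msh (Kt.X p) N M) := by ring
    rw [e2]
    exact a5) (hH b e i hi j hj) hrz a4

end Pool.EXC33
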