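import Pool.Agent.H33.EXC.Zrp

/-!
# The places of `ZmC`, from the exactness behind records without bits

`lab_few_place`: the context has few bits given the exact point and the first digits of the
direction. `zmc_place`: a place of `ZmC`, from `RexZ` (records without bits). The loss of the
context is paid in the exchange of the conditions.
-/

set_option autoImplicit false

namespace Pool.EXC33

open Finset MvPolynomial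
open Pool.Agent.H49.Ent Pool.Agent.H32.Dense Pool.STK Pool.KS3 Pool.STAT Pool.STAT.CLO Pool.MIC6
open Pool.KA Pool.KSAT Pool.PB Pool.GEN Pool.K2S Pool.S6C
open Pool.STAT.OKI (RefC hts ohg tw)
open Pool.CHT (TmH)
open Pool.REX (Vz)

/-- **The context has few bits** given the exact point and the first digits of the direction. -/
theorem lab_few_place (n₀ K K' s₁ : ℕ) (sh : ℕ → ℕ) (hK1 : 1 ≤ K) (hK' : 1 ≤ K') :
    ∃ C : ℝ, 0 ≤ C ∧ ∀ ε : ℝ, 0 < ε → ∃ κ₀ : ℝ, 0 < κ₀ ∧ κ₀ ≤ 1 ∧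
    ∀ κ : ℝ, 0 < κ → κ ≤ κ₀ → ∀ {m : ℕ} {Θ : Type*} {Kt : KitP m Θ n₀} {S : PCl m} {N M : ℕ} {θ : ℝ} {p : Θ}
    {γ C₁ y : ℝ} {Dn : ℕ → ℕ → ℝ} {eb : ℕ → ℝ} {b : ℕ → ℕ → ℕ → ℝ} {e : ℕ → ℕ → ℝ} {i j : ℕ}
    {P₀ h : ℝ}, Kt.K = K → PlcH Kt S N M θ p Dn eb y γ κ C₁ → Kt.Near p N M θ b e →
    i ≤ M → j ≤ M → ((M : ℝ) + 1) ^ 2 * (C * ((ε + 2 * θ) * msh (Kt.X p) N M)) < h →
    HrcP Kt S K' s₁ sh N M θ p b e Dn eb y κ ε i j P₀ →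
    ∀ S' : PCl m, S'.Ne →
    (∀ (τ : ℝ) (J : ℕ) (F : Fam m J) (A : F.Ω → Prop), S'.St τ J F A → S.St τ J F A) →
    ∀ d : ∀ (J : ℕ) (F : Fam m J), GDat F,
    (∀ (τ : ℝ) (J : ℕ) (F : Fam m J) (A : F.Ω → Prop), S'.St τ J F A →
      (Kt.grid K' s₁ sh p N M θ b e).Ok F (d J F) A) →
    ∃ S'' : PCl m, S''.Ne ∧
      (∀ (τ : ℝ) (J : ℕ) (F : Fam m J) (A : F.Ω → Prop), S''.St τ J F A → S'.St τ J F A) ∧
      Bas S'' (fun J F A => CH (Pool.Agent.H49.Ent.cond F.p A True)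
        (((d J F).cd (n₀ + 1) (Kt.rc p N M θ J F (d J F))).lab2 (up (Kt.y p).1 J)
          (up (msh (Kt.X p) N M) J) i j)
        (fun ω => (F.D ⌊P₀ * J⌋₊ ω, (F.X J ω, F.W ω))) ≤ h * J) := by
  obtain ⟨C, hC, hctx⟩ := ctx_cls n₀ K K' s₁ sh hK'
  refine ⟨C, hC, fun ε hε => ?_⟩
  obtain ⟨κ₀, hκ₀, hκ₀1, hpre⟩ := zrc_pre n₀ K hK1 hε
  refine ⟨κ₀, hκ₀, hκ₀1, fun κ hκ hκκ => ?_⟩
  have hκ1 : κ ≤ 1 := hκκ.trans hκ₀1
  intro m Θ Kt S N M θ p γ C₁ y Dn eb b e i j P₀ h hKK hP hnear hi hj hCh hrc S' hne hsub d hd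
  have hz := hP.num
  obtain ⟨S₁, R, hne₁, hsub₁, hok⟩ := hpre κ hκ hκκ (K' := K') (s₁ := s₁) (sh := sh) hKK hP b e j hj S' hne
    hsub d hd
  have hsubS : ∀ (τ : ℝ) (J : ℕ) (F : Fam m J) (A : F.Ω → Prop), S₁.St τ J F A →
      S.St τ J F A := fun τ J F A hA => hsub τ J F A (hsub₁ τ J F A hA)
  have hpos₁ : ∀ (τ : ℝ) (J : ℕ) (F : Fam m J) (A : F.Ω → Prop), S₁.St τ J F A →
      0 < Pe F.p A := fun τ J F A hA => hP.tmh.1 τ J F A (hsubS τ J F A hA)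
  obtain ⟨h₀, hh₀⟩ : ∃ h₀, h₀ = (((M : ℝ) + 1) ^ 2 * (C * ((ε + 2 * θ) * msh (Kt.X p) N M)) + h)
    / 2 := ⟨_, rfl⟩
  have hh1 : ((M : ℝ) + 1) ^ 2 * (C * ((ε + 2 * θ) * msh (Kt.X p) N M)) < h₀ := by
    rw [hh₀]
    linarith
  have hh2 : h₀ < h := by
    rw [hh₀]
    linarith
  have c1 := hctx (m := m) (Kt := Kt) (S₁ := S₁) (d := d) (R := R) (i := i) (j := j) hKK hK1 hz
    hnear hP.θ0 (hP.θκ.trans hκ1) hε.le hi hj hpos₁ hok hh1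
  have c2 := hrc S₁ hne₁ hsubS d R hok (h - h₀) (by linarith)
  refine ⟨S₁, hne₁, hsub₁, ?_⟩
  have c3 : Bas S₁ (fun J F A => 0 < Pe F.p A) :=
    ⟨1, one_pos, 0, fun J _ F A hA => hpos₁ 1 J F A hA⟩
  refine Bas.mono 0 ((c1.and c2).and c3) ?_
  rintro J - F A ⟨⟨a1, a2⟩, a3⟩
  have hq1 := isLaw_cond F.isLaw a3
  have e1 : CH (Pool.Agent.H49.Ent.cond F.p A True)
      (((d J F).cd (n₀ + 1) (Kt.rc p N M θ J F (d J F))).lab2 (up (Kt.y p).1 J)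
        (up (msh (Kt.X p) N M) J) i j)
      (fun ω => (F.D ⌊P₀ * J⌋₊ ω, (F.X J ω, F.W ω))) ≤ CH (Pool.Agent.H49.Ent.cond F.p A True)
      (fun ω => (((d J F).cd (n₀ + 1) (Kt.rc p N M θ J F (d J F))).lab2 (up (Kt.y p).1 J)
        (up (msh (Kt.X p) N M) J) i j ω,
        (cod Kt N M p j (R J F) ω, htz Kt N M p Dn i j (R J F) ω)))
      (fun ω => (F.D ⌊P₀ * J⌋₊ ω, (F.X J ω, F.W ω))) :=
    CH_mono_left hq1.nonneg fun ω ω' _ _ hh => by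
      simp only [Prod.mk.injEq] at hh
      exact hh.1.1
  have e2 := CH_chain hq1.nonneg
    (((d J F).cd (n₀ + 1) (Kt.rc p N M θ J F (d J F))).lab2 (up (Kt.y p).1 J)
      (up (msh (Kt.X p) N M) J) i j)
    (fun ω => (cod Kt N M p j (R J F) ω, htz Kt N M p Dn i j (R J F) ω))
    (fun ω => (F.D ⌊P₀ * J⌋₊ ω, (F.X J ω, F.W ω)))
  have e3 : CH (Pool.Agent.H49.Ent.cond F.p A True)
      (((d J F).cd (n₀ + 1) (Kt.rc p N M θ J F (d J F))).lab2 (up (Kt.y p).1 J)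
        (up (msh (Kt.X p) N M) J) i j)
      (fun ω => ((cod Kt N M p j (R J F) ω, htz Kt N M p Dn i j (R J F) ω),
        (F.D ⌊P₀ * J⌋₊ ω, (F.X J ω, F.W ω)))) ≤ CH (Pool.Agent.H49.Ent.cond F.p A True)
      (((d J F).cd (n₀ + 1) (Kt.rc p N M θ J F (d J F))).lab2 (up (Kt.y p).1 J)
        (up (msh (Kt.X p) N M) J) i j)
      (fun ω => (cod Kt N M p j (R J F) ω, htz Kt N M p Dn i j (R J F) ω)) :=
    CH_mono_cond hq1.nonneg fun ω ω' _ _ hh => (Prod.ext_iff.mp hh).1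
  linarith

/-- A place of `ZmC`. -/
def ZmQ0 {m n₀ : ℕ} {Θ : Type*} (Kt : KitP m Θ n₀) (S : PCl m) (K' s₁ : ℕ) (sh : ℕ → ℕ)
    (N M : ℕ) (θ : ℝ) (p : Θ) (ka : ℝ) (b : ℕ → ℕ → ℕ → ℝ) (e : ℕ → ℕ → ℝ) (i j : ℕ) : Prop :=
  ∀ S' : PCl m, S'.Ne →
    (∀ (τ : ℝ) (J : ℕ) (F : Fam m J) (A : F.Ω → Prop), S'.St τ J F A → S.St τ J F A) →
    ∀ d : ∀ (J : ℕ) (F : Fam m J), GDat F,
    (∀ (τ : ℝ) (J : ℕ) (F : Fam m J) (A : F.Ω → Prop), S'.St τ J F A →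
      (Kt.grid K' s₁ sh p N M θ b e).Ok F (d J F) A) →
    ∃ S'' : PCl m, S''.Ne ∧ (∀ (τ : ℝ) (J : ℕ) (F : Fam m J) (A : F.Ω → Prop),
      S''.St τ J F A → S'.St τ J F A) ∧ ∀ ρ : ℝ, 0 < ρ → Bas S'' (fun J F A =>
        ((∑ l ∈ range n₀, (1 - Kt.L p l ((Kt.y p).1 + (Kt.y p).2 + i * msh (Kt.X p) N M)
          ((Kt.y p).1 + j * msh (Kt.X p) N M))) - ka * msh (Kt.X p) N M - ρ) *
            Real.log 2 * J ≤
          CH (Pool.Agent.H49.Ent.cond F.p A True) (fun ω (l : Fin n₀) => F.X J ω (Kt.cs p l))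
            (fun ω => (((d J F).cd (n₀ + 1) (Kt.rc p N M θ J F (d J F))).lab2
              (up (Kt.y p).1 J) (up (msh (Kt.X p) N M) J) i j ω, F.T ω)))

theorem zmC_iff {m n₀ : ℕ} {Θ : Type*} {Kt : KitP m Θ n₀} {S : PCl m} {K' s₁ : ℕ} {sh : ℕ → ℕ}
    {N M : ℕ} {θ : ℝ} {p : Θ} {ka : ℝ} : ZmC Kt S K' s₁ sh N M θ p ka ↔
      ∀ (b : ℕ → ℕ → ℕ → ℝ) (e : ℕ → ℕ → ℝ), Kt.Near p N M θ b e →
        ∀ i ≤ M, ∀ j ≤ M, ZmQ0 Kt S K' s₁ sh N M θ p ka b e i j :=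
  Iff.rfl

/-- **A place of `ZmC`**, from the exactness behind records without bits. -/
theorem zmc_place (n₀ K K' s₁ : ℕ) (sh : ℕ → ℕ) (hK1 : 1 ≤ K) (hK' : 1 ≤ K') :
    ∃ C : ℝ, 0 ≤ C ∧ ∀ ε : ℝ, 0 < ε → ∃ κ₀ : ℝ, 0 < κ₀ ∧ κ₀ ≤ 1 ∧
    ∀ κ : ℝ, 0 < κ → κ ≤ κ₀ → ∀ {m : ℕ} {Θ : Type*} {Kt : KitP m Θ n₀} {S : PCl m}
    {L : Finset (Fin m) → Fin m → ℝ → ℝ → ℝ} {N M : ℕ} {θ : ℝ} {p : Θ} {ka γ C₁ y : ℝ}
    {Dn : ℕ → ℕ → ℝ} {eb : ℕ → ℝ} {b : ℕ → ℕ → ℕ → ℝ} {e : ℕ → ℕ → ℝ} {i j : ℕ}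
    {ξ P₀ η σ h : ℝ}, Kt.K = K → PlcH Kt S N M θ p Dn eb y γ κ C₁ → Kt.Near p N M θ b e →
    i ≤ M → j ≤ M → ((M : ℝ) + 1) ^ 2 * (C * ((ε + 2 * θ) * msh (Kt.X p) N M)) < h →
    0 < ξ → ξ ≤ γ →
    n₀ * (σ + (P₀ - ((Kt.y p).2 + i * msh (Kt.X p) N M - j * msh (Kt.X p) N M))) + η +
      h / Real.log 2 ≤ ka * msh (Kt.X p) N M →
    HrcP Kt S K' s₁ sh N M θ p b e Dn eb y κ ε i j P₀ →
    RexZ S L (Kt.cs p) n₀ ((Kt.y p).1 + j * msh (Kt.X p) N M)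
      ((Kt.y p).1 + j * msh (Kt.X p) N M + ξ) P₀ η →
    (∀ w : ℝ, (Kt.y p).1 + j * msh (Kt.X p) N M < w →
      w < (Kt.y p).1 + j * msh (Kt.X p) N M + ξ → ∀ l < n₀,
        L ((range l).image (Kt.cs p)) (Kt.cs p l) w 0 ≤ Dn j l + σ) →
    ZmQ0 Kt S K' s₁ sh N M θ p ka b e i j := by
  obtain ⟨C, hC, hctx⟩ := ctx_cls n₀ K K' s₁ sh hK'
  refine ⟨C, hC, fun ε hε => ?_⟩
  obtain ⟨κ₀, hκ₀, hκ₀1, hpre⟩ := zrc_pre n₀ K hK1 hε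
  refine ⟨κ₀, hκ₀, hκ₀1, fun κ hκ hκκ => ?_⟩
  have hκ1 : κ ≤ 1 := hκκ.trans hκ₀1
  intro m Θ Kt S L N M θ p ka γ C₁ y Dn eb b e i j ξ P₀ η σ h hKK hP hnear hi hj hCh hξ0 hξγ hsum
    hrc hrex hlev S' hne hsub d hd
  have hz := hP.num
  have hζ0 := hz.msh_pos
  have hϖ0 := hz.y0
  have hl2 : 0 < Real.log 2 := Real.log_pos one_lt_two
  have hjr : (j : ℝ) ≤ M := by exact_mod_cast hj
  have hjζ : (j : ℝ) * msh (Kt.X p) N M ≤ M * msh (Kt.X p) N M :=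
    mul_le_mul_of_nonneg_right hjr hζ0.le
  have hjζ0 : (0 : ℝ) ≤ j * msh (Kt.X p) N M := by positivity
  have hwin := hP.win
  obtain ⟨wp, hwpe⟩ : ∃ wp, wp = (Kt.y p).1 + j * msh (Kt.X p) N M + ξ / 2 := ⟨_, rfl⟩
  have hwp : (Kt.y p).1 + j * msh (Kt.X p) N M < wp := by rw [hwpe]; linarith
  have hwp' : wp < (Kt.y p).1 + j * msh (Kt.X p) N M + ξ := by rw [hwpe]; linarith
  have wp0 : 0 ≤ wp := by linarith
  have wp1 : wp < 1 := by linarith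
  obtain ⟨S₁, R, hne₁, hsub₁, hok⟩ := hpre κ hκ hκκ (K' := K') (s₁ := s₁) (sh := sh) hKK hP b e j hj S' hne
    hsub d hd
  have hsubS : ∀ (τ : ℝ) (J : ℕ) (F : Fam m J) (A : F.Ω → Prop), S₁.St τ J F A →
      S.St τ J F A := fun τ J F A hA => hsub τ J F A (hsub₁ τ J F A hA)
  have hpos₁ : ∀ (τ : ℝ) (J : ℕ) (F : Fam m J) (A : F.Ω → Prop), S₁.St τ J F A →
      0 < Pe F.p A := fun τ J F A hA => hP.tmh.1 τ J F A (hsubS τ J F A hA)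
  have c1 := hctx (m := m) (Kt := Kt) (S₁ := S₁) (d := d) (R := R) (i := i) (j := j) hKK hK1 hz
    hnear hP.θ0 (hP.θκ.trans hκ1) hε.le hi hj hpos₁ hok hCh
  obtain ⟨J₁, hJ₁⟩ := win_ev hϖ0 hζ0 hwp wp1
  have hline : ∀ J ≥ J₁, ∀ F : Fam m J, (lnV wp wp0 wp1 _ (fun (J : ℕ) (F : Fam m J) (ω : F.Ω) =>
      (cod Kt N M p j (R J F) ω, htz Kt N M p Dn i j (R J F) ω))).y J F = fun ω =>
        some (cod Kt N M p j (R J F) ω, htz Kt N M p Dn i j (R J F) ω) := by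
    intro J hJ F
    obtain ⟨h1, h2⟩ := hJ₁ J hJ
    exact lnV_y fun ω ω' h => (Prod.ext_iff.mp (rcP_line (q := 0) (V := fun _ _ => Unit)
      (zp := fun _ _ _ => ()) h1 h2 (fun _ _ _ => rfl) ω ω' h)).1
  have hbits : ∀ h₁ : ℝ, 0 < h₁ → Bas S₁ (fun J F A => CH (Pool.Agent.H49.Ent.cond F.p A True)
      ((lnV wp wp0 wp1 _ (fun (J : ℕ) (F : Fam m J) (ω : F.Ω) =>
        (cod Kt N M p j (R J F) ω, htz Kt N M p Dn i j (R J F) ω))).y J F)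
      (fun ω => (F.D ⌊P₀ * J⌋₊ ω, (F.X J ω, F.W ω))) ≤ h₁ * J) := by
    intro h₁ hh₁
    have c3 : Bas S₁ (fun J F A => 0 < Pe F.p A) :=
      ⟨1, one_pos, 0, fun J _ F A hA => hpos₁ 1 J F A hA⟩
    refine Bas.mono J₁ ((hrc S₁ hne₁ hsubS d R hok h₁ hh₁).and c3) ?_
    rintro J hJ F A ⟨a1, a3⟩
    rw [hline J hJ F]
    refine le_trans (CH_mono_left (isLaw_cond F.isLaw a3).nonneg fun ω ω' _ _ hh => ?_) a1
    have h1 : (cod Kt N M p j (R J F) ω, htz Kt N M p Dn i j (R J F) ω) =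
      (cod Kt N M p j (R J F) ω', htz Kt N M p Dn i j (R J F) ω') := (Prod.ext_iff.mp hh).1
    exact congrArg some h1
  obtain ⟨S₂, hne₂, hsub₂, hex⟩ := hrex S₁ hne₁ hsubS _ hwp hwp' hbits
  refine ⟨S₂, hne₂, fun τ J F A hA => hsub₁ τ J F A (hsub₂ τ J F A hA), fun ρ hρ => ?_⟩
  have c4 : Bas S₂ (fun J F A => 0 < Pe F.p A) :=
    ⟨1, one_pos, 0, fun J _ F A hA => hpos₁ 1 J F A (hsub₂ 1 J F A hA)⟩
  refine Bas.mono J₁ (((hex ρ hρ).and (c1.sub hsub₂)).and c4) ?_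
  rintro J hJ F A ⟨⟨a1, a2⟩, a3⟩
  have hJ0 : (0 : ℝ) ≤ J := Nat.cast_nonneg J
  have hq1 := isLaw_cond F.isLaw a3
  rw [hline J hJ F] at a1
  have key := trade_core hq1 (fun ω (l : Fin n₀) => F.X J ω (Kt.cs p l))
    (((d J F).cd (n₀ + 1) (Kt.rc p N M θ J F (d J F))).lab2 (up (Kt.y p).1 J)
      (up (msh (Kt.X p) N M) J) i j)
    (fun ω => (cod Kt N M p j (R J F) ω, htz Kt N M p Dn i j (R J F) ω)) (fun _ => ())
    (fun _ => ()) F.W F.T (fun ω ω' h => (Prod.ext_iff.mp h).1) a2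
  have k1 : CH (Pool.Agent.H49.Ent.cond F.p A True) (fun ω (l : Fin n₀) => F.X J ω (Kt.cs p l))
      (fun ω => (some (cod Kt N M p j (R J F) ω, htz Kt N M p Dn i j (R J F) ω), F.W ω)) ≤
      CH (Pool.Agent.H49.Ent.cond F.p A True) (fun ω (l : Fin n₀) => F.X J ω (Kt.cs p l))
      (fun ω => (some ((cod Kt N M p j (R J F) ω, htz Kt N M p Dn i j (R J F) ω), ((), ())),
        F.W ω)) := CH_mono_cond hq1.nonneg fun ω ω' _ _ hh => by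
    simp only [Prod.mk.injEq, Option.some.injEq] at hh ⊢
    exact ⟨⟨hh.1, trivial⟩, hh.2⟩
  have k2 : CH (Pool.Agent.H49.Ent.cond F.p A True) (fun ω (l : Fin n₀) => F.X J ω (Kt.cs p l))
      (fun ω => (((d J F).cd (n₀ + 1) (Kt.rc p N M θ J F (d J F))).lab2
        (up (Kt.y p).1 J) (up (msh (Kt.X p) N M) J) i j ω, ((), ((), F.T ω)))) ≤
      CH (Pool.Agent.H49.Ent.cond F.p A True) (fun ω (l : Fin n₀) => F.X J ω (Kt.cs p l))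
      (fun ω => (((d J F).cd (n₀ + 1) (Kt.rc p N M θ J F (d J F))).lab2
        (up (Kt.y p).1 J) (up (msh (Kt.X p) N M) J) i j ω, F.T ω)) :=
    CH_mono_cond hq1.nonneg fun ω ω' _ _ hh =>
      Prod.ext (Prod.ext_iff.mp hh).1
        (Prod.ext_iff.mp (Prod.ext_iff.mp (Prod.ext_iff.mp hh).2).2).2
  have hlv := lev_sum hz hi hj (wp := wp) (fun l hl => hlev wp hwp hwp' l hl) hsum
  have e1 : h / Real.log 2 * Real.log 2 = h := div_mul_cancel₀ h hl2.ne'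
  have e3 := mul_le_mul_of_nonneg_right (mul_le_mul_of_nonneg_right
    (sub_le_sub_right hlv ρ) hl2.le) hJ0
  have e4 : ((∑ l ∈ range n₀, (1 - Kt.L p l ((Kt.y p).1 + (Kt.y p).2 + i * msh (Kt.X p) N M)
      ((Kt.y p).1 + j * msh (Kt.X p) N M))) - ka * msh (Kt.X p) N M + h / Real.log 2 - ρ) *
        Real.log 2 * J =
      ((∑ l ∈ range n₀, (1 - Kt.L p l ((Kt.y p).1 + (Kt.y p).2 + i * msh (Kt.X p) N M)
      ((Kt.y p).1 + j * msh (Kt.X p) N M))) - ka * msh (Kt.X p) N M - ρ) * Real.log 2 * J +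
        (h / Real.log 2 * Real.log 2) * J := by ring
  rw [e4, e1] at e3
  have a5 : ((∑ l ∈ range n₀, (1 - Kt.L p l ((Kt.y p).1 + (Kt.y p).2 + i * msh (Kt.X p) N M)
      ((Kt.y p).1 + j * msh (Kt.X p) N M))) - ka * msh (Kt.X p) N M - ρ) * Real.log 2 * J +
      h * J ≤ CH (Pool.Agent.H49.Ent.cond F.p A True)
        (fun ω (l : Fin n₀) => F.X J ω (Kt.cs p l))
        (fun ω => (some (cod Kt N M p j (R J F) ω, htz Kt N M p Dn i j (R J F) ω), F.W ω)) :=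
    e3.trans a1
  exact (le_sub_iff_add_le.2 a5).trans ((sub_le_sub_right k1 _).trans (key.trans k2))

end Pool.EXC33
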