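import Pool.Agent.H33.EXC.Zrl
import Pool.Agent.H21.HRC.Hrc
import Pool.Agent.H98.OWN.ChoB
import Pool.Agent.H72.OWN.Rxf

/-!
# The inputs of the places, from the literal theorems

`hrcP_of`: `HrcP` from `hrc`. `choW_of`: `ChoW` from `cho_gridB`. `rexZ_of`: `RexZ` from `RecExa`.
`lev_nrd`: the numbers of the base at the windows of the records.
-/

set_option autoImplicit false

namespace Pool.EXC33

open Finset MvPolynomial
open Pool.Agent.H49.Ent Pool.Agent.H32.Dense Pool.STK Pool.KS3 Pool.STAT Pool.STAT.CLO Pool.MIC6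
open Pool.KA Pool.KSAT Pool.PB Pool.GEN Pool.K2S Pool.S6C
open Pool.STAT.OKI (RefC hts ohg tw)
open Pool.CHT (TmH)
open Pool.REX (Vz)
open Pool.OWN72 (HasA HasB RepX ClA NrD RecExa img hrc)
open Pool.JVE (cI)

variable {m : ℕ}

theorem repX_mono {S : PCl m} {y v : Fin m} {I : Finset (Fin m)} {w W N P x x' : ℝ}
    (h : RepX S y I v w W N P x') (hx : x ≤ x') : RepX S y I v w W N P x := by
  intro h₁ hh₁
  refine Bas.mono 0 (h h₁ hh₁) fun J _ F A h2 e a c h3 => h2 e a c ?_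
  refine ⟨fun ω hω => ?_, h3.ca, h3.cc⟩
  obtain ⟨a1, a2, a3⟩ := h3.dp ω hω
  refine ⟨a1, a2, a3.trans ?_⟩
  refine one_div_le_one_div_of_le (by positivity) (pow_le_pow_right₀ one_le_two ?_)
  exact Nat.floor_le_floor (mul_le_mul_of_nonneg_right (by linarith) (Nat.cast_nonneg J))

/-! ### The code and the heights -/

/-- **`HrcP` from `hrc`.** -/
theorem hrcP_of (n₀ K : ℕ) : ∃ C : ℝ, 1 ≤ C ∧
    ∀ {m : ℕ} {Θ : Type*} {Kt : KitP m Θ n₀} {S : PCl m} {C₀ : ℝ} {K' s₁ : ℕ} {sh : ℕ → ℕ}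
    {N M : ℕ} {θ : ℝ} {p : Θ} {b : ℕ → ℕ → ℕ → ℝ} {e : ℕ → ℕ → ℝ} {Dn : ℕ → ℕ → ℝ}
    {y κ ε γ γ₁ E x P₀ : ℝ} {i j : ℕ}, Kt.K = K → TmC S C₀ → NumZ Kt N M θ p Dn →
    Pool.MIC6.ActF S (Kt.cs p 0) → 0 ≤ θ → θ ≤ κ → 0 < ε → 0 < κ → 0 < γ → 0 < γ₁ → 0 < x →
    0 < y → 0 ≤ E → C * (ε + κ) * msh (Kt.X p) N M ≤ x → C * (ε + κ) * msh (Kt.X p) N M ≤ γ →
    C * y ≤ γ → (Kt.y p).2 + i * msh (Kt.X p) N M - j * msh (Kt.X p) N M + 8 * x ≤ P₀ → P₀ ≤ 1 →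
    j ≤ M → (Kt.y p).1 + (j + 1) * msh (Kt.X p) N M + γ₁ ≤ 1 →
    (∀ j' ≤ j, ∀ l, 1 ≤ l → l < n₀ + 1 →
      (Kt.y p).1 + j' * msh (Kt.X p) N M + 2 * x ≤ Dn j' l) →
    (∀ j' ≤ j, Dn j' 0 = (Kt.y p).1 + j' * msh (Kt.X p) N M) →
    (∀ j' ≤ j, ∀ k l, k < l → l < n₀ + 1 → Dn j' k ≤ Dn j' l) →
    (∀ j' ≤ j, ∀ l < n₀ + 1, Dn j' l +
      ((Kt.y p).2 + i * msh (Kt.X p) N M - j * msh (Kt.X p) N M) + E + γ ≤ 1) →
    (∀ j' ≤ j, ∀ l, 1 ≤ l → l < n₀ + 1 →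
      RepX S (Kt.cs p 0) (img (Kt.cs p) l) (Kt.cs p l) ((Kt.y p).1 + j' * msh (Kt.X p) N M)
        ((Kt.y p).1 + j * msh (Kt.X p) N M + γ₁) (Dn j' l)
        ((Kt.y p).2 + i * msh (Kt.X p) N M - j * msh (Kt.X p) N M) x) →
    HrcP Kt S K' s₁ sh N M θ p b e Dn (fun _ => E + y) y κ ε i j P₀ := by
  obtain ⟨C, hC, key⟩ := hrc (n₀ + 1) K (by omega)
  refine ⟨C, hC, ?_⟩
  intro m Θ Kt S C₀ K' s₁ sh N M θ p b e Dn y κ ε γ γ₁ E x P₀ i j hKK htm hz hact hθ hθκ hε hκ hγ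
    hγ₁ hx hy hE hCx hCγ hCy hPP hP₀ hj hwin hlow h0b hmono hsz hrep S₁ hne₁ hsub₁ d R hok h hh
  subst hKK
  have hm := hz.msh_pos
  have hP := hz.tub i hj
  have hP0 : 0 ≤ (Kt.y p).2 + i * msh (Kt.X p) N M - j * msh (Kt.X p) N M := by linarith
  have k1 := key (m := m) (S := S) (C₀ := C₀) (c := Kt.cs p) (ϖ := (Kt.y p).1)
    (ζ := msh (Kt.X p) N M) (ε := ε) (κ := κ) (x := x) (y := y) (γ := γ) (γ₁ := γ₁)
    (P := (Kt.y p).2 + i * msh (Kt.X p) N M - j * msh (Kt.X p) N M) (P₀ := P₀) (E := E)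
    (b := Dn) (j₀ := j) htm hz.inj hact hz.y0 hm hε hκ hγ hγ₁ hP0 hx hy hE hCx hCγ hCy hPP hP₀
    hwin hlow (fun j' hj' => by
      rw [h0b j' hj', sub_self, abs_zero]
      exact hx.le) hmono hsz hrep h hh
  have k2 : Bas S₁ (fun J F A => (Kt.grid K' s₁ sh p N M θ b e).Ok F (d J F) A ∧
      RokP Kt N M θ p Dn (fun _ => E + y) y κ ε j (d J F) (R J F) A) :=
    ⟨1, one_pos, 0, fun J _ F A hA => hok 1 J F A hA⟩
  refine Bas.mono 0 ((Bas.sub hsub₁ k1).and k2) ?_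
  rintro J - F A ⟨a1, ⟨a2, -⟩, a3⟩
  unfold RokP at a3
  have hJ0 : (0 : ℝ) ≤ J := Nat.cast_nonneg J
  exact a1 (d J F) K' s₁ sh (up ((Kt.y p).1 + (Kt.y p).2) J) M (fun i j => ⌊e i j * J⌋₊)
    (fun i j l => ⌊b i j l * J⌋₊) _ _ (R J F).e₀ (R J F).e' (R J F).e'' (R J F).g₀ (R J F).g'
    (R J F).G₀ (R J F).G' (R J F).H₀ (R J F).H' (R J F).W (R J F).cp (R J F).cs (R J F).Rf hj a2
    a3.bal a3.cho a3.chb (fun j' hj' l hl => by
      obtain ⟨b1, b2⟩ := a3.bal.sd j' (hj'.trans hj) l hl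
      have e1 : θ * msh (Kt.X p) N M * J ≤ κ * (msh (Kt.X p) N M * J) := by
        have := mul_le_mul_of_nonneg_right hθκ (mul_nonneg hm.le hJ0)
        linarith
      have e2 : (Dn j' l - θ * msh (Kt.X p) N M) * J =
        Dn j' l * J - θ * msh (Kt.X p) N M * J := by ring
      have e3 : 0 ≤ κ * (msh (Kt.X p) N M * J) := by positivity
      rw [abs_le]
      constructor <;> linarith) (fun j' hj' l hl => by
      have := a3.num j' hj' l hl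
      rwa [mul_assoc] at this) a3.siz a3.sib a3.ref

/-! ### The charts of degree one -/

/-- **`ChoW` from `cho_gridB`**; the numbers have an error `δ`. -/
theorem choW_of {S : PCl m} {c : ℕ → Fin m} {n M : ℕ} {ϖ ζ δ δ' E x y : ℝ} {b : ℕ → ℕ → ℝ}
    (hn : 2 ≤ n) (hϖ : 0 ≤ ϖ) (hζ : 0 < ζ) (hwin : ϖ + (M + 1) * ζ ≤ 1) (hδ : 0 ≤ δ)
    (hδ' : 0 < δ') (hE : 0 ≤ E)
    (hA : ∀ j ≤ M, ∀ l, 1 ≤ l → l + 1 < n → HasA S (img c l) (c l) (ϖ + j * ζ) (b j l - δ))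
    (hB : ∀ j ≤ M, HasB S (img c (n - 1)) (c (n - 1)) (ϖ + j * ζ) (b j (n - 1) - δ) E)
    (hb0 : ∀ j ≤ M, b j 0 = ϖ + j * ζ)
    (hbw : ∀ j ≤ M, ∀ l, 1 ≤ l → l < n → ϖ + j * ζ + δ + δ' ≤ b j l)
    (hbE : ∀ j ≤ M, ∀ l < n, b j l + E + δ' ≤ 1) (hx : δ < x) (hy : 0 < y) :
    ChoW S c n M ϖ ζ b (fun _ => E + y) y x ((cI m ^ n) ^ (M + 1)) := by
  obtain ⟨x', hx'⟩ : ∃ x', x' = min (x - δ) y := ⟨_, rfl⟩
  have hx'0 : 0 < x' := by rw [hx']; exact lt_min (by linarith) hy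
  have hx'1 : x' ≤ x - δ := by rw [hx']; exact min_le_left _ _
  have hx'2 : x' ≤ y := by rw [hx']; exact min_le_right _ _
  obtain ⟨b', hb'⟩ : ∃ b' : ℕ → ℕ → ℝ, b' = fun j l => if l = 0 then b j l else b j l - δ :=
    ⟨_, rfl⟩
  have b'0 : ∀ j, b' j 0 = b j 0 := fun j => by rw [hb']; exact if_pos rfl
  have b'1 : ∀ j l, 1 ≤ l → b' j l = b j l - δ := fun j l hl => by
    rw [hb']
    exact if_neg (by omega)
  have hζM : ∀ j : ℕ, 0 ≤ (j : ℝ) * ζ := fun j => by positivity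
  have key := Pool.OWN98.cho_gridB (S := S) (c := c) (n := n) (M := M) (ϖ := ϖ) (ζ := ζ)
    (δ := δ') (E := E) (b := b') hn hϖ hζ hwin hδ' hE (fun j hj l h1 h2 => by
      rw [b'1 j l h1]
      exact hA j hj l h1 h2) (fun j hj => by
      rw [b'1 j (n - 1) (by omega)]
      exact hB j hj) (fun j hj => (b'0 j).trans (hb0 j hj)) (fun j hj l h1 h2 => by
      rw [b'1 j l h1]
      have := hbw j hj l h1 h2
      have := hζM j
      linarith) (fun j hj l h1 h2 => by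
      rw [b'1 j l h1]
      have := hbw j hj l h1 h2
      linarith) (fun j hj l h1 h2 => by
      rw [b'1 j l h1]
      have := hbE j hj l h2
      linarith) (fun j hj => by
      rw [b'1 j (n - 1) (by omega)]
      have := hbE j hj (n - 1) (by omega)
      linarith) hx'0
  refine Bas.mono 0 key ?_
  rintro J - F A ⟨B, g', G', H', h1, h2, h3, h4, h5⟩
  have hJ0 : (0 : ℝ) ≤ J := Nat.cast_nonneg J
  refine ⟨B, fun _ => ⌊(E + x') * J⌋₊, fun _ => ⌊x' * J⌋₊, g', G', H', h1, h2, h3, h4,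
    fun j _ => ?_, fun j _ => ?_, fun j hj l hl => ?_⟩
  · refine (Nat.floor_le (by positivity)).trans (mul_le_mul_of_nonneg_right ?_ hJ0)
    linarith
  · exact (Nat.floor_le (by positivity)).trans (mul_le_mul_of_nonneg_right hx'2 hJ0)
  · have e1 := h5 j hj l hl
    have e2 : |b' j l * J - b j l * J| ≤ δ * J := by
      rcases Nat.eq_zero_or_pos l with h0 | h0
      · rw [h0, b'0, sub_self, abs_zero]
        positivity
      · rw [b'1 j l h0]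
        have : (b j l - δ) * J - b j l * J = -(δ * J) := by ring
        rw [this, abs_neg, abs_of_nonneg (by positivity)]
    have e3 := abs_sub_le (g' j l : ℝ) (b' j l * J) (b j l * J)
    have e4 : x' * J ≤ (x - δ) * J := mul_le_mul_of_nonneg_right hx'1 hJ0
    have e5 : (x - δ) * J = x * J - δ * J := by ring
    linarith

/-! ### Exactness behind records -/

/-- The numbers of the base at the windows of the records. -/
theorem lev_nrd {S : PCl m} {L : Finset (Fin m) → Fin m → ℝ → ℝ → ℝ} (hL : LamW S L)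
    {c : ℕ → Fin m} {n₀ : ℕ} {Wd : Set ℝ} {g R d be co : ℝ} {Dg sl : ℕ → ℝ}
    (hN : NrD S L c n₀ Wd g R d be co Dg sl) (hbe : 0 < be) (hbe1 : be ≤ 1) (hd : 0 ≤ d)
    (hact : ∀ w : ℝ, 0 ≤ w → w < 1 → L ∅ (c 0) w 0 ≤ w) {w₁ ξ : ℝ}
    (hw₁ : g ≤ w₁) (hw₂ : w₁ + 2 * ξ + 2 * d ≤ g + R) {Dn : ℕ → ℝ} (h0 : Dn 0 = w₁)
    (hDn : ∀ l, 1 ≤ l → l < n₀ → Dg l + sl l * (w₁ - g) - d ≤ Dn l) {w : ℝ} (hw : w₁ < w)
    (hw' : w < w₁ + ξ) (hwu : w < 1) {l : ℕ} (hl : l < n₀) :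
    L ((range l).image c) (c l) w 0 ≤ Dn l + ((2 * ξ + 2 * d) / be + 2 * d) := by
  have hdv : 2 * ξ + 2 * d ≤ (2 * ξ + 2 * d) / be := by
    rw [le_div_iff₀ hbe]
    have : (2 * ξ + 2 * d) * be ≤ (2 * ξ + 2 * d) * 1 :=
      mul_le_mul_of_nonneg_left hbe1 (by linarith)
    linarith
  have hg0 := hN.g0
  rcases Nat.eq_zero_or_pos l with hl0 | hl0
  · subst hl0
    have h1 := hact w (by linarith) hwu
    rw [h0]
    simp only [Finset.range_zero, Finset.image_empty]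
    linarith
  · obtain ⟨w', h1, h2, h3⟩ := hN.den w (w + 2 * d + ξ) (by linarith) (by linarith)
      (by linarith)
    have h4 := hN.lin l hl0 hl w' h1 (by linarith) (by linarith)
    have h5 := hL.mono (img c l) (img c l) (c l) w w' 0 0 (Finset.Subset.refl _) h2.le le_rfl
    obtain ⟨h6, h7⟩ := hN.slo l hl0 hl
    have h8 := hDn l hl0 hl
    rw [abs_le] at h4
    have h9 : sl l * (w' - w₁) ≤ 1 / be * (2 * ξ + 2 * d) :=
      mul_le_mul h7 (by linarith) (by linarith) (by positivity)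
    have e1 : 1 / be * (2 * ξ + 2 * d) = (2 * ξ + 2 * d) / be := by ring
    have e2 : sl l * (w' - g) = sl l * (w₁ - g) + sl l * (w' - w₁) := by ring
    have h10 : L ((range l).image c) (c l) w 0 ≤ L (img c l) (c l) w' 0 := h5
    linarith [h4.2]

/-- **`RexZ` from `RecExa`.** -/
theorem rexZ_of {n₀ : ℕ} (hR : RecExa m n₀) {al : ℝ} {g₀ : ℝ → ℝ} (hal : 0 < al)
    (hg₀ : ∀ e, 0 < e → 0 < g₀ e) {be co θ : ℝ} (hbe : 0 < be) (hco : 0 < co) (hθ : 0 < θ) :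
    ∃ K r₀ : ℝ, 0 < K ∧ 0 < r₀ ∧
    ∀ {S : PCl m} {C₀ : ℝ} {L : Finset (Fin m) → Fin m → ℝ → ℝ → ℝ} {Na : ℚ → ℚ → ℝ}
      {c : ℕ → Fin m} {Wd : Set ℝ} {g R d : ℝ} {Dg sl : ℕ → ℝ}, 0 ≤ C₀ → TmC S C₀ →
      (∀ (τ : ℝ) (J : ℕ) (F : Fam m J) (A : F.Ω → Prop), S.St τ J F A → 0 < Pe F.p A) →
      LamW S L → (∀ k ≤ n₀, FZX k) → ActM Na al g₀ → ActB Na S (c 0) → 0 ≤ d →
      NrD S L c n₀ Wd g R d be co Dg sl →
    ∀ {b₀ b₁ P₀ η : ℝ}, g + η ≤ b₀ → b₁ + K * (P₀ + η) ≤ g + R → 0 ≤ P₀ → 0 < η →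
      P₀ + η ≤ r₀ → θ * (P₀ + η) ≤ η → K * d ≤ η → RexZ S L c n₀ b₀ b₁ P₀ η := by
  obtain ⟨K, r₀, hK, hr₀, key⟩ := hR al g₀ hal hg₀ be co θ hbe hco hθ
  refine ⟨K, r₀, hK, hr₀, ?_⟩
  intro S C₀ L Na c Wd g R d Dg sl hC₀ htm hpos hL hF hM hB hd hN b₀ b₁ P₀ η h1 h2 h3 h4 h5 h6 h7 S₁
    hne₁ hsub₁ v hv hv' hbits
  obtain ⟨S₂, hne₂, hsub₂, hex⟩ := key S₁ C₀ L Na c Wd g R d Dg sl hne₁ hC₀
    (fun τ J F A hτ h => htm τ J F A hτ (hsub₁ τ J F A h))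
    (fun τ J F A h => hpos τ J F A (hsub₁ τ J F A h)) (hL.sub hsub₁) hF hM
    (fun q q' a1 a2 a3 h hh => (hB q q' a1 a2 a3 h hh).sub hsub₁) hd (hN.subc hsub₁) Unit
    (fun _ => v) (fun _ => P₀) (fun _ => η)
    (fun _ => ⟨by linarith, h3, h4, by linarith, h5, h6, h7⟩) (fun _ => hbits)
  refine ⟨S₂, hne₂, hsub₂, fun ρ hρ => Bas.mono 0 (hex () ρ hρ) ?_⟩
  intro J _ F A h8
  rw [Fin.sum_univ_eq_sum_range (fun l => 1 - L (img c l) (c l) v.b 0 - P₀) n₀] at h8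
  exact h8

end Pool.EXC33
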