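import Pool.Agent.H33.EXC.Zrc

/-!
# The places of `ZmC` and `ZmCp`, from the exactness behind records

`zmq_place`: a place of `ZmCp` from `RexS` (records with at most `h J` bits). `zmr_place`: a place
of `ZmC` from `RexZ` (records without bits). `lab_few_place`: the context has few bits given the
exact point and the direction.
-/

set_option autoImplicit false

namespace Pool.EXC33

open Finset MvPolynomial
open Pool.Agent.H49.Ent Pool.Agent.H32.Dense Pool.STK Pool.KS3 Pool.STAT Pool.STAT.CLO Pool.MIC6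
open Pool.KA Pool.KSAT Pool.PB Pool.GEN Pool.K2S Pool.S6C
open Pool.STAT.OKI (RefC hts ohg tw)
open Pool.CHT (TmH)
open Pool.REX (Vz)

/-- The window of a column is longer than a little shorter windows. -/
theorem win_ev {ϖ ζ wp : ℝ} {j : ℕ} (hϖ : 0 ≤ ϖ) (hζ : 0 < ζ) (h : ϖ + j * ζ < wp) (h1 : wp < 1) :
    ∃ J₁ : ℕ, ∀ J ≥ J₁, up ϖ J + j * up ζ J ≤ ⌊wp * J⌋₊ ∧ ⌊wp * J⌋₊ ≤ J := by
  obtain ⟨J₁, hJ₁⟩ := exists_nat_ge (((j : ℝ) + 1) / (wp - (ϖ + j * ζ)))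
  refine ⟨J₁, fun J hJ => ?_⟩
  have hJ0 : (0 : ℝ) ≤ J := Nat.cast_nonneg J
  have a1 := hJ₁.trans (show (J₁ : ℝ) ≤ J by exact_mod_cast hJ)
  rw [div_le_iff₀ (by linarith)] at a1
  have hj0 : (0 : ℝ) ≤ j := Nat.cast_nonneg j
  have hup1 := up_le hϖ J
  have hup2 := mul_le_mul_of_nonneg_left (up_le hζ.le J) hj0
  constructor
  · refine Nat.le_floor ?_
    push_cast
    linarith
  · refine Nat.floor_le_of_le ?_
    have := mul_le_mul_of_nonneg_right h1.le hJ0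
    linarith

theorem cond_mem {m J : ℕ} {F : Fam m J} {A : F.Ω → Prop} {ω : F.Ω}
    (hω : 0 < Pool.Agent.H49.Ent.cond F.p A True ω) : A ω := by
  by_contra hc
  unfold Pool.Agent.H49.Ent.cond at hω
  simp [hc] at hω

/-- Exactness behind records without bits, in all subclasses, for the windows in `(b₀, b₁)`. -/
def RexZ {m : ℕ} (S : PCl m) (L : Finset (Fin m) → Fin m → ℝ → ℝ → ℝ) (c : ℕ → Fin m) (n₀ : ℕ)
    (b₀ b₁ P₀ η : ℝ) : Prop :=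
  ∀ S₁ : PCl m, S₁.Ne →
    (∀ (τ : ℝ) (J : ℕ) (F : Fam m J) (A : F.Ω → Prop), S₁.St τ J F A → S.St τ J F A) →
  ∀ v : Vz m, b₀ < v.b → v.b < b₁ →
    (∀ h : ℝ, 0 < h → Bas S₁ (fun J F A => CH (Pool.Agent.H49.Ent.cond F.p A True) (v.y J F)
      (fun ω => (F.D ⌊P₀ * J⌋₊ ω, (F.X J ω, F.W ω))) ≤ h * J)) →
  ∃ S₂ : PCl m, S₂.Ne ∧
    (∀ (τ : ℝ) (J : ℕ) (F : Fam m J) (A : F.Ω → Prop), S₂.St τ J F A → S₁.St τ J F A) ∧
    ∀ ρ : ℝ, 0 < ρ → Bas S₂ (fun J F A =>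
      ((∑ l ∈ range n₀, (1 - L ((range l).image c) (c l) v.b 0 - P₀)) - η - ρ) *
        Real.log 2 * J ≤
        CH (Pool.Agent.H49.Ent.cond F.p A True) (fun ω (l : Fin n₀) => F.X J ω (c l))
          (fun ω => (v.y J F ω, F.W ω)))

theorem RexS.rexZ {m : ℕ} {S : PCl m} {L : Finset (Fin m) → Fin m → ℝ → ℝ → ℝ} {c : ℕ → Fin m}
    {n₀ : ℕ} {b₀ b₁ P₀ η h : ℝ} (hr : RexS S L c n₀ b₀ b₁ P₀ η h) (hh : 0 < h) :
    RexZ S L c n₀ b₀ b₁ P₀ η :=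
  fun S₁ hne hsub v h1 h2 h3 => hr S₁ hne hsub v h1 h2 (h3 h hh)

/-- **A place of `ZmCp`**, from the exactness behind records. -/
theorem zmq_place (n₀ K K' s₁ : ℕ) (sh : ℕ → ℕ) (hK1 : 1 ≤ K) (hK' : 1 ≤ K') :
    ∃ C : ℝ, 0 ≤ C ∧ ∀ ε : ℝ, 0 < ε → ∃ κ₀ : ℝ, 0 < κ₀ ∧ κ₀ ≤ 1 ∧
    ∀ κ : ℝ, 0 < κ → κ ≤ κ₀ → ∀ {m : ℕ} {Θ : Type*} {Kt : KitP m Θ n₀} {S : PCl m}
    {L : Finset (Fin m) → Fin m → ℝ → ℝ → ℝ} {N M : ℕ} {θ : ℝ} {p : Θ} {ka γ C₁ y : ℝ}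
    {Dn : ℕ → ℕ → ℝ} {eb : ℕ → ℝ} {b : ℕ → ℕ → ℕ → ℝ} {e : ℕ → ℕ → ℝ} {i j : ℕ}
    {ξ P₀ η σ h : ℝ}, Kt.K = K → PlcH Kt S N M θ p Dn eb y γ κ C₁ → Kt.Near p N M θ b e →
    i ≤ M → j ≤ M → ((M : ℝ) + 1) ^ 2 * (C * ((ε + 2 * θ) * msh (Kt.X p) N M)) < h →
    (Kt.y p).2 + i * msh (Kt.X p) N M - j * msh (Kt.X p) N M + ξ ≤ P₀ → ξ ≤ γ →
    n₀ * (σ + (P₀ - ((Kt.y p).2 + i * msh (Kt.X p) N M - j * msh (Kt.X p) N M))) + η +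
      h / Real.log 2 ≤ ka * msh (Kt.X p) N M →
    HrcP Kt S K' s₁ sh N M θ p b e Dn eb y κ ε i j P₀ →
    RexS S L (Kt.cs p) n₀ ((Kt.y p).1 + j * msh (Kt.X p) N M)
      ((Kt.y p).1 + j * msh (Kt.X p) N M + ξ) P₀ η h →
    (∀ w : ℝ, (Kt.y p).1 + j * msh (Kt.X p) N M < w →
      w < (Kt.y p).1 + j * msh (Kt.X p) N M + ξ → ∀ l < n₀,
        L ((range l).image (Kt.cs p)) (Kt.cs p l) w 0 ≤ Dn j l + σ) →
    ZmQ Kt S K' s₁ sh N M θ p ka ξ b e i j := by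
  obtain ⟨C, hC, hctx⟩ := ctx_cls n₀ K K' s₁ sh hK'
  refine ⟨C, hC, fun ε hε => ?_⟩
  obtain ⟨κ₀, hκ₀, hκ₀1, hpre⟩ := zrc_pre n₀ K hK1 hε
  refine ⟨κ₀, hκ₀, hκ₀1, fun κ hκ hκκ => ?_⟩
  have hκ1 : κ ≤ 1 := hκκ.trans hκ₀1
  intro m Θ Kt S L N M θ p ka γ C₁ y Dn eb b e i j ξ P₀ η σ h hKK hP hnear hi hj hCh hξP hξγ hsum
    hrc hrex hlev S' hne hsub d hd wp hwp hwp' q hq hq' V z z' hzz
  have hz := hP.num
  have hζ0 := hz.msh_pos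
  have hϖ0 := hz.y0
  have hl2 : 0 < Real.log 2 := Real.log_pos one_lt_two
  have hjr : (j : ℝ) ≤ M := by exact_mod_cast hj
  have hjζ : (j : ℝ) * msh (Kt.X p) N M ≤ M * msh (Kt.X p) N M :=
    mul_le_mul_of_nonneg_right hjr hζ0.le
  have hjζ0 : (0 : ℝ) ≤ j * msh (Kt.X p) N M := by positivity
  have hwin := hP.win
  have wp0 : 0 ≤ wp := by linarith
  have wp1 : wp < 1 := by linarith
  have hqP : q ≤ P₀ := by linarith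
  obtain ⟨S₁, R, hne₁, hsub₁, hok⟩ := hpre κ hκ hκκ (K' := K') (s₁ := s₁) (sh := sh) hKK hP b e j hj S' hne
    hsub d hd
  have hsubS : ∀ (τ : ℝ) (J : ℕ) (F : Fam m J) (A : F.Ω → Prop), S₁.St τ J F A →
      S.St τ J F A := fun τ J F A hA => hsub τ J F A (hsub₁ τ J F A hA)
  have hpos₁ : ∀ (τ : ℝ) (J : ℕ) (F : Fam m J) (A : F.Ω → Prop), S₁.St τ J F A →
      0 < Pe F.p A := fun τ J F A hA => hP.tmh.1 τ J F A (hsubS τ J F A hA)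
  obtain ⟨h₀, hh₀⟩ : ∃ h₀, h₀ = (((M : ℝ) + 1) ^ 2 * (C * ((ε + 2 * θ) * msh (Kt.X p) N M)) + h)
    / 2 := ⟨_, rfl⟩
  have hh1 : ((M : ℝ) + 1) ^ 2 * (C * ((ε + 2 * θ) * msh (Kt.X p) N M)) < h₀ := by
    rw [hh₀]
    linarith
  have hh2 : h₀ < h := by
    rw [hh₀]
    linarith
  have c1 := hctx (m := m) (Kt := Kt) (S₁ := S₁) (d := d) (R := R) (i := i) (j := j) hKK hK1 hz
    hnear hP.θ0 (hP.θκ.trans hκ1) hε.le hi hj hpos₁ hok hh1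
  have c2 := hrc S₁ hne₁ hsubS d R hok (h - h₀) (by linarith)
  obtain ⟨J₁, hJ₁⟩ := win_ev hϖ0 hζ0 hwp wp1
  have hline : ∀ J ≥ J₁, ∀ F : Fam m J, (lnV wp wp0 wp1 _ (rcP Kt N M p Dn i j R q
      (fun J F ω => z' J F (slam F ⌊wp * J⌋₊ ω)))).y J F = fun ω => some (rcP Kt N M p Dn i j R q
      (fun J F ω => z' J F (slam F ⌊wp * J⌋₊ ω)) J F ω) := by
    intro J hJ F
    obtain ⟨h1, h2⟩ := hJ₁ J hJ
    exact lnV_y fun ω ω' h => rcP_line h1 h2 (fun ω ω' h => congrArg (z' J F) h) ω ω' h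
  have hbits : Bas S₁ (fun J F A => CH (Pool.Agent.H49.Ent.cond F.p A True)
      ((lnV wp wp0 wp1 _ (rcP Kt N M p Dn i j R q
        (fun J F ω => z' J F (slam F ⌊wp * J⌋₊ ω)))).y J F)
      (fun ω => (F.D ⌊P₀ * J⌋₊ ω, (F.X J ω, F.W ω))) ≤ h * J) := by
    have c3 : Bas S₁ (fun J F A => 0 < Pe F.p A ∧ ∀ ω, A ω →
        z J F (ptr F J ω) (((d J F).cd (n₀ + 1) (Kt.rc p N M θ J F (d J F))).lab2
          (up (Kt.y p).1 J) (up (msh (Kt.X p) N M) J) i j ω) (F.D ⌊q * J⌋₊ ω) =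
          z' J F (slam F ⌊wp * J⌋₊ ω)) :=
      ⟨1, one_pos, 0, fun J _ F A hA => ⟨hpos₁ 1 J F A hA, hzz 1 J F A (hsub₁ 1 J F A hA)⟩⟩
    refine Bas.mono J₁ ((c1.and c2).and c3) ?_
    rintro J hJ F A ⟨⟨a1, a2⟩, a3, a4⟩
    rw [hline J hJ F]
    have hq1 := isLaw_cond F.isLaw a3
    have hfl : ⌊q * (J : ℝ)⌋₊ ≤ ⌊P₀ * (J : ℝ)⌋₊ :=
      Nat.floor_le_floor (mul_le_mul_of_nonneg_right hqP (Nat.cast_nonneg J))
    have key := rec_core hq1 _ _ (F.D ⌊q * J⌋₊) (fun ω => z' J F (slam F ⌊wp * J⌋₊ ω)) _ a1 a2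
      (fun ω ω' b1 b2 hh => D_det F _ hfl ω ω' b1 b2 (Prod.ext_iff.mp hh).1)
      (fun ω ω' b1 b2 hh hl => by
        have b3 : ptr F J ω = ptr F J ω' := (Prod.ext_iff.mp hh).2
        have b4 := D_det F _ hfl ω ω' b1 b2 (Prod.ext_iff.mp hh).1
        show z' J F (slam F ⌊wp * J⌋₊ ω) = z' J F (slam F ⌊wp * J⌋₊ ω')
        rw [← a4 ω (cond_mem b1), ← a4 ω' (cond_mem b2), b3, hl, b4])
    refine key.trans (le_of_eq ?_)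
    ring
  obtain ⟨S₂, hne₂, hsub₂, hex⟩ := hrex S₁ hne₁ hsubS (lnV wp wp0 wp1 _ (rcP Kt N M p Dn i j R q
    (fun J F ω => z' J F (slam F ⌊wp * J⌋₊ ω)))) hwp hwp' hbits
  refine ⟨S₂, hne₂, fun τ J F A hA => hsub₁ τ J F A (hsub₂ τ J F A hA), fun ρ hρ => ?_⟩
  have c4 : Bas S₂ (fun J F A => 0 < Pe F.p A) :=
    ⟨1, one_pos, 0, fun J _ F A hA => hpos₁ 1 J F A (hsub₂ 1 J F A hA)⟩
  refine Bas.mono J₁ (((hex ρ hρ).and (c1.sub hsub₂)).and c4) ?_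
  rintro J hJ F A ⟨⟨a1, a2⟩, a3⟩
  have hJ0 : (0 : ℝ) ≤ J := Nat.cast_nonneg J
  have hq1 := isLaw_cond F.isLaw a3
  rw [hline J hJ F] at a1
  have key := trade_core hq1 (fun ω (l : Fin n₀) => F.X J ω (Kt.cs p l))
    (((d J F).cd (n₀ + 1) (Kt.rc p N M θ J F (d J F))).lab2 (up (Kt.y p).1 J)
      (up (msh (Kt.X p) N M) J) i j)
    (fun ω => (cod Kt N M p j (R J F) ω, htz Kt N M p Dn i j (R J F) ω)) (F.D ⌊q * J⌋₊)
    (fun ω => z' J F (slam F ⌊wp * J⌋₊ ω)) F.W F.T (fun ω ω' h => (Prod.ext_iff.mp h).1) a2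
  have hlv := lev_sum hz hi hj (wp := wp) (fun l hl => hlev wp hwp hwp' l hl) hsum
  have e1 : h / Real.log 2 * Real.log 2 = h := div_mul_cancel₀ h hl2.ne'
  have e2 : h₀ * J ≤ h * J := mul_le_mul_of_nonneg_right hh2.le hJ0
  have e3 := mul_le_mul_of_nonneg_right (mul_le_mul_of_nonneg_right
    (sub_le_sub_right hlv ρ) hl2.le) hJ0
  have e4 : ((∑ l ∈ range n₀, (1 - Kt.L p l ((Kt.y p).1 + (Kt.y p).2 + i * msh (Kt.X p) N M)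
      ((Kt.y p).1 + j * msh (Kt.X p) N M))) - ka * msh (Kt.X p) N M + h / Real.log 2 - ρ) *
        Real.log 2 * J =
      ((∑ l ∈ range n₀, (1 - Kt.L p l ((Kt.y p).1 + (Kt.y p).2 + i * msh (Kt.X p) N M)
      ((Kt.y p).1 + j * msh (Kt.X p) N M))) - ka * msh (Kt.X p) N M - ρ) * Real.log 2 * J +
        (h / Real.log 2 * Real.log 2) * J := by ring
  rw [e4, e1] at e3
  have a5 : ((∑ l ∈ range n₀, (1 - Kt.L p l ((Kt.y p).1 + (Kt.y p).2 + i * msh (Kt.X p) N M)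
      ((Kt.y p).1 + j * msh (Kt.X p) N M))) - ka * msh (Kt.X p) N M - ρ) * Real.log 2 * J +
      h * J ≤ CH (Pool.Agent.H49.Ent.cond F.p A True)
        (fun ω (l : Fin n₀) => F.X J ω (Kt.cs p l))
        (fun ω => (some (rcP Kt N M p Dn i j R q (fun J F ω => z' J F (slam F ⌊wp * J⌋₊ ω)) J F ω),
          F.W ω)) := e3.trans a1
  exact (le_sub_iff_add_le.2 a5).trans ((sub_le_sub_left e2 _).trans key)

end Pool.EXC33
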